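import Pool.Agent.H12.Fr.Gd

/-!
# The block lemma
-/

set_option autoImplicit false
set_option maxHeartbeats 4000000

open Finset

namespace Pool.Agent.H12.Fr

open Pool.Agent.H54.Frank

variable {V : Type*} [DecidableEq V]

/-- two elements which are not separated by tight sets -/
lemma block {g : Finset V → ℝ} {S T : Finset V} {k : ℝ} (hST : S ⊆ T) (hg : SubOn g S T)
    (gk : ∀ X, S ⊆ X → X ⊆ T → k ≤ g X) (gS : g S = k) (gT : g T = k)
    (hc : ¬ MChain g 0 S T) :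
    ∃ c ∈ T, ∃ d ∈ T, c ∉ S ∧ d ∉ S ∧ d ≠ c ∧
      ∀ W, S ⊆ W → W ⊆ T → g W = k → (c ∈ W ↔ d ∈ W) := by
  classical
  obtain ⟨X, ⟨hX1, hX2, hX3, hX4⟩, hXmax⟩ : ∃ X, (S ⊆ X ∧ X ⊆ T ∧ MChain g 0 S X ∧ g X = k) ∧
      ∀ X', (S ⊆ X' ∧ X' ⊆ T ∧ MChain g 0 S X' ∧ g X' = k) → #X' ≤ #X := by
    have hne : (T.powerset.filter fun X => S ⊆ X ∧ X ⊆ T ∧ MChain g 0 S X ∧ g X = k).Nonempty :=
      ⟨S, Finset.mem_filter.2 ⟨Finset.mem_powerset.2 hST, Finset.Subset.refl _, hST,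
        MChain.refl _, gS⟩⟩
    obtain ⟨X, hX, hmax⟩ := Finset.exists_max_image _ (fun X => #X) hne
    refine ⟨X, (Finset.mem_filter.1 hX).2, fun X' hX' => hmax X' (Finset.mem_filter.2
      ⟨Finset.mem_powerset.2 hX'.2.1, hX'⟩)⟩
  have hXT : X ≠ T := fun h0 => hc (h0 ▸ hX3)
  have hXss : X ⊂ T := lt_of_le_of_ne hX2 hXT
  obtain ⟨Y, ⟨hY1, hY2, hY3⟩, hYmin⟩ : ∃ Y, (X ⊂ Y ∧ Y ⊆ T ∧ g Y = k) ∧
      ∀ Y', (X ⊂ Y' ∧ Y' ⊆ T ∧ g Y' = k) → #Y ≤ #Y' := by
    have hne : (T.powerset.filter fun Y => X ⊂ Y ∧ Y ⊆ T ∧ g Y = k).Nonempty :=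
      ⟨T, Finset.mem_filter.2 ⟨Finset.mem_powerset.2 (Finset.Subset.refl _), hXss,
        Finset.Subset.refl _, gT⟩⟩
    obtain ⟨Y, hY, hmin⟩ := Finset.exists_min_image _ (fun Y => #Y) hne
    refine ⟨Y, (Finset.mem_filter.1 hY).2, fun Y' hY' => hmin Y' (Finset.mem_filter.2
      ⟨Finset.mem_powerset.2 hY'.2.1, hY'⟩)⟩
  have tight : ∀ A B, S ⊆ A → A ⊆ T → S ⊆ B → B ⊆ T → g A = k → g B = k →
      g (A ∪ B) = k ∧ g (A ∩ B) = k := by
    intro A B a1 a2 b1 b2 a3 b3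
    have h1 := hg A B a1 a2 b1 b2
    have h2 := gk (A ∪ B) (a1.trans Finset.subset_union_left) (Finset.union_subset a2 b2)
    have h3 := gk (A ∩ B) (Finset.subset_inter a1 b1) (Finset.inter_subset_left.trans a2)
    constructor <;> linarith
  have hSY : S ⊆ Y := hX1.trans hY1.1
  have dich : ∀ W, S ⊆ W → W ⊆ T → g W = k → (∀ i ∈ Y, i ∉ X → i ∉ W) ∨
      ∀ i ∈ Y, i ∉ X → i ∈ W := by
    intro W w1 w2 w3
    have h1 := (tight W Y w1 w2 hSY hY2 w3 hY3).2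
    have h2 := (tight X (W ∩ Y) hX1 hX2 (Finset.subset_inter w1 hSY)
      (Finset.inter_subset_left.trans w2) hX4 h1).1
    by_cases hcase : X ⊂ X ∪ (W ∩ Y)
    · right
      have h3 := hYmin _ ⟨hcase, Finset.union_subset hX2 (Finset.inter_subset_left.trans w2), h2⟩
      have h4 : X ∪ (W ∩ Y) ⊆ Y := Finset.union_subset hY1.1 Finset.inter_subset_right
      have h5 := Finset.eq_of_subset_of_card_le h4 h3
      intro i hi hiX
      rw [← h5] at hi
      rcases Finset.mem_union.1 hi with h6 | h6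
      · exact absurd h6 hiX
      · exact (Finset.mem_inter.1 h6).1
    · left
      intro i hi hiX hiW
      apply hcase
      refine ⟨Finset.subset_union_left, fun h3 => hiX (h3 (Finset.mem_union_right _
        (Finset.mem_inter.2 ⟨hiW, hi⟩)))⟩
  obtain ⟨c, hcY, hcX⟩ := Finset.exists_of_ssubset hY1
  obtain ⟨d, hdY, hdX, hdc⟩ : ∃ d, d ∈ Y ∧ d ∉ X ∧ d ≠ c := by
    by_contra hcon
    push Not at hcon
    have hYe : Y = insert c X := by
      ext i
      simp only [Finset.mem_insert]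
      constructor
      · intro hi
        by_cases hiX : i ∈ X
        · exact Or.inr hiX
        · exact Or.inl (hcon i hi hiX)
      · rintro (rfl | h1)
        · exact hcY
        · exact hY1.1 h1
    have h1 : MChain g 0 S (insert c X) :=
      MChain.step hX3 hcX (by rw [← hYe, hY3, hX4]; simp)
    have h2 := hXmax (insert c X) ⟨hX1.trans (Finset.subset_insert _ _), hYe ▸ hY2, h1,
      hYe ▸ hY3⟩
    rw [Finset.card_insert_of_notMem hcX] at h2
    omega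
  refine ⟨c, hY2 hcY, d, hY2 hdY, fun h0 => hcX (hX1 h0), fun h0 => hdX (hX1 h0), hdc,
    fun W w1 w2 w3 => ?_⟩
  rcases dich W w1 w2 w3 with h1 | h1
  · exact ⟨fun h2 => absurd h2 (h1 c hcY hcX), fun h2 => absurd h2 (h1 d hdY hdX)⟩
  · exact ⟨fun _ => h1 d hdY hdX, fun _ => h1 c hcY hcX⟩

lemma ge2 {g : Finset V → ℝ} {U : Finset V} (h : Gd g U) {a b c d : V} (cU : c ∈ U)
    (hK : K4 (FF g U) a b c d) {X : Finset V} (hX : X ⊆ U) (ha : a ∈ X) (hb : b ∈ X)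
    (hc : c ∉ X) (hd : d ∉ X) : 2 ≤ g X := by
  by_contra h1
  push Not at h1
  exact (hK X (h.ff hX ha cU hc h1)).1 ⟨ha, hb, hc, hd⟩

/-- a pair of elements which is not separated by tight sets -/
def Pr (g : Finset V → ℝ) (U : Finset V) (a b c d z w : V) : Prop :=
  ∀ X, X ⊆ U → a ∈ X → b ∈ X → c ∉ X → d ∉ X → g X = 2 → (z ∈ X ↔ w ∈ X)

/-- the family is constant on the second interval -/
def To (g : Finset V → ℝ) (U : Finset V) (a b c d : V) : Prop :=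
  ∀ X, X ⊆ U → a ∉ X → b ∉ X → c ∈ X → d ∈ X → g X = 2

lemma mixN {g : Finset V → ℝ} {U : Finset V} (h : Gd g U) {a b c d z w : V}
    (cU : c ∈ U) (dU : d ∈ U) (zU : z ∈ U) (ac : a ≠ c) (ad : a ≠ d) (bc : b ≠ c) (bd : b ≠ d)
    (cd : c ≠ d) (za : z ≠ a) (zb : z ≠ b) (zc : z ≠ c) (zd : z ≠ d) (wz : w ≠ z)
    (hK : K4 (FF g U) a b c d) (ho : To g U a b c d) (pr : Pr g U a b c d z w)
    {Y₁ Y₂ : Finset V} (h₁ : FF g U Y₁) (h₂ : FF g U Y₂)
    (x1 : a ∈ Y₁) (x2 : b ∈ Y₁) (x3 : c ∈ Y₁) (x4 : z ∉ Y₁) (x5 : d ∉ Y₁)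
    (y1 : a ∉ Y₂) (y2 : b ∉ Y₂) (y3 : c ∈ Y₂) (y4 : z ∈ Y₂) (y5 : d ∉ Y₂) : False := by
  -- the tight set
  have e1 : insert c (Y₁.erase c) = Y₁ := Finset.insert_erase x3
  have t1 : g (Y₁.erase c) = 2 := by
    have h3 := (h.up (Y₁.erase c) c).2
    rw [e1, h₁.2.2.2] at h3
    have h4 : 2 ≤ g (Y₁.erase c) := ge2 h cU hK ((Finset.erase_subset _ _).trans h₁.1)
      (Finset.mem_erase.2 ⟨ac, x1⟩) (Finset.mem_erase.2 ⟨bc, x2⟩) (Finset.notMem_erase _ _)
      fun h0 => x5 (Finset.mem_of_mem_erase h0)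
    linarith
  have hw : w ∉ Y₁.erase c := by
    intro h0
    have h3 := (pr (Y₁.erase c) ((Finset.erase_subset _ _).trans h₁.1)
      (Finset.mem_erase.2 ⟨ac, x1⟩) (Finset.mem_erase.2 ⟨bc, x2⟩) (Finset.notMem_erase _ _)
      (fun h0 => x5 (Finset.mem_of_mem_erase h0)) t1).2 h0
    exact x4 (Finset.mem_of_mem_erase h3)
  have s1 : insert z (Y₁.erase c) ⊆ U :=
    Finset.insert_subset zU ((Finset.erase_subset _ _).trans h₁.1)
  have m1 : c ∉ insert z (Y₁.erase c) := by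
    rw [Finset.mem_insert, not_or]
    exact ⟨zc.symm, Finset.notMem_erase _ _⟩
  have m2 : d ∉ insert z (Y₁.erase c) := by
    rw [Finset.mem_insert, not_or]
    exact ⟨zd.symm, fun h0 => x5 (Finset.mem_of_mem_erase h0)⟩
  have m3 : a ∈ insert z (Y₁.erase c) := Finset.mem_insert_of_mem (Finset.mem_erase.2 ⟨ac, x1⟩)
  have m4 : b ∈ insert z (Y₁.erase c) := Finset.mem_insert_of_mem (Finset.mem_erase.2 ⟨bc, x2⟩)
  have t2 : 3 ≤ g (insert z (Y₁.erase c)) := by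
    have h3 := ge2 h cU hK s1 m3 m4 m1 m2
    refine h.three_le (lt_of_le_of_ne h3 fun h4 => ?_)
    have h5 := (pr _ s1 m3 m4 m1 m2 h4.symm).1 (Finset.mem_insert_self _ _)
    rcases Finset.mem_insert.1 h5 with h6 | h6
    · exact wz h6
    · exact hw h6
  have e2 : insert c (insert z (Y₁.erase c)) = insert z Y₁ := by
    rw [Finset.insert_comm, e1]
  have t3 : 2 ≤ g (insert z Y₁) := by
    have h3 := (h.up (insert z (Y₁.erase c)) c).2
    rw [e2] at h3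
    linarith
  -- the pair
  have t4 : g {c, z} ≤ 1 := by
    have h3 := h.sub Y₂ {c, d, z}
    have e3 : Y₂ ∪ {c, d, z} = insert d Y₂ := by
      ext i
      simp only [Finset.mem_union, Finset.mem_insert, Finset.mem_singleton]
      constructor
      · rintro (h4 | rfl | rfl | rfl)
        · exact Or.inr h4
        · exact Or.inr y3
        · exact Or.inl rfl
        · exact Or.inr y4
      · rintro (rfl | h4)
        · exact Or.inr (Or.inr (Or.inl rfl))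
        · exact Or.inl h4
    have e4 : Y₂ ∩ {c, d, z} = {c, z} := by
      ext i
      simp only [Finset.mem_inter, Finset.mem_insert, Finset.mem_singleton]
      constructor
      · rintro ⟨h4, rfl | rfl | rfl⟩
        · exact Or.inl rfl
        · exact absurd h4 y5
        · exact Or.inr rfl
      · rintro (rfl | rfl)
        · exact ⟨y3, Or.inl rfl⟩
        · exact ⟨y4, Or.inr (Or.inr rfl)⟩
    have v1 : g (insert d Y₂) = 2 := ho _ (Finset.insert_subset dU h₂.1)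
      (by rw [Finset.mem_insert, not_or]; exact ⟨ad, y1⟩)
      (by rw [Finset.mem_insert, not_or]; exact ⟨bd, y2⟩) (Finset.mem_insert_of_mem y3)
      (Finset.mem_insert_self _ _)
    have v2 : g {c, d, z} = 2 := by
      refine ho _ ?_ ?_ ?_ ?_ ?_
      · intro i hi
        simp only [Finset.mem_insert, Finset.mem_singleton] at hi
        rcases hi with rfl | rfl | rfl <;> assumption
      · simp only [Finset.mem_insert, Finset.mem_singleton, not_or]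
        exact ⟨ac, ad, za.symm⟩
      · simp only [Finset.mem_insert, Finset.mem_singleton, not_or]
        exact ⟨bc, bd, zb.symm⟩
      · simp
      · simp
    rw [e3, e4, v1, v2, h₂.2.2.2] at h3
    linarith
  have h3 := h.sub Y₁ {c, z}
  have e5 : Y₁ ∪ {c, z} = insert z Y₁ := by
    ext i
    simp only [Finset.mem_union, Finset.mem_insert, Finset.mem_singleton]
    constructor
    · rintro (h4 | rfl | rfl)
      · exact Or.inr h4
      · exact Or.inr x3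
      · exact Or.inl rfl
    · rintro (rfl | h4)
      · exact Or.inr (Or.inr rfl)
      · exact Or.inl h4
  have e6 : Y₁ ∩ {c, z} = {c} := by
    ext i
    simp only [Finset.mem_inter, Finset.mem_insert, Finset.mem_singleton]
    constructor
    · rintro ⟨h4, rfl | rfl⟩
      · rfl
      · exact absurd h4 x4
    · rintro rfl
      exact ⟨x3, Or.inl rfl⟩
  have v3 : 1 ≤ g {c} := h.ge_one (Finset.singleton_subset_iff.2 cU) (Finset.mem_singleton_self _)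
    dU (fun h0 => cd (Finset.mem_singleton.1 h0).symm)
  rw [e5, e6, h₁.2.2.2] at h3
  linarith

lemma mixA {g : Finset V → ℝ} {U : Finset V} (h : Gd g U) {a b c d z w : V}
    (aU : a ∈ U) (bU : b ∈ U) (cU : c ∈ U) (dU : d ∈ U) (ab : a ≠ b) (ac : a ≠ c)
    (ad : a ≠ d) (bc : b ≠ c) (bd : b ≠ d) (za : z ≠ a) (zb : z ≠ b) (zc : z ≠ c) (zd : z ≠ d)
    (wz : w ≠ z) (wa : w ≠ a) (hK : K4 (FF g U) a b c d) (ho : To g U a b c d)
    (pr : Pr g U a b c d z w) {Y₁ Y₂ : Finset V} (h₁ : FF g U Y₁) (h₂ : FF g U Y₂)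
    (x1 : a ∉ Y₁) (x2 : b ∈ Y₁) (x3 : c ∉ Y₁) (x4 : z ∈ Y₁) (x5 : d ∉ Y₁)
    (y1 : a ∉ Y₂) (y2 : b ∈ Y₂) (y3 : c ∈ Y₂) (y4 : z ∉ Y₂) (y5 : d ∈ Y₂) : False := by
  have s0 : insert a Y₁ ⊆ U := Finset.insert_subset aU h₁.1
  have c0 : c ∉ insert a Y₁ := by
    rw [Finset.mem_insert, not_or]; exact ⟨ac.symm, x3⟩
  have d0 : d ∉ insert a Y₁ := by
    rw [Finset.mem_insert, not_or]; exact ⟨ad.symm, x5⟩
  have t1 : g (insert a Y₁) = 2 := by
    have h3 := (h.up Y₁ a).1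
    rw [h₁.2.2.2] at h3
    have h4 := ge2 h cU hK s0 (Finset.mem_insert_self _ _) (Finset.mem_insert_of_mem x2) c0 d0
    linarith
  have hw : w ∈ insert a Y₁ := (pr _ s0 (Finset.mem_insert_self _ _)
    (Finset.mem_insert_of_mem x2) c0 d0 t1).1 (Finset.mem_insert_of_mem x4)
  have hw' : w ∈ Y₁ := (Finset.mem_insert.1 hw).resolve_left wa
  have s1 : insert a (Y₁.erase z) ⊆ U :=
    Finset.insert_subset aU ((Finset.erase_subset _ _).trans h₁.1)
  have m1 : c ∉ insert a (Y₁.erase z) := by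
    rw [Finset.mem_insert, not_or]
    exact ⟨ac.symm, fun h0 => x3 (Finset.mem_of_mem_erase h0)⟩
  have m2 : d ∉ insert a (Y₁.erase z) := by
    rw [Finset.mem_insert, not_or]
    exact ⟨ad.symm, fun h0 => x5 (Finset.mem_of_mem_erase h0)⟩
  have m4 : b ∈ insert a (Y₁.erase z) := Finset.mem_insert_of_mem (Finset.mem_erase.2 ⟨zb.symm, x2⟩)
  have t2 : 3 ≤ g (insert a (Y₁.erase z)) := by
    have h3 := ge2 h cU hK s1 (Finset.mem_insert_self _ _) m4 m1 m2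
    refine h.three_le (lt_of_le_of_ne h3 fun h4 => ?_)
    have h5 := (pr _ s1 (Finset.mem_insert_self _ _) m4 m1 m2 h4.symm).2
      (Finset.mem_insert_of_mem (Finset.mem_erase.2 ⟨wz, hw'⟩))
    rcases Finset.mem_insert.1 h5 with h6 | h6
    · exact za h6
    · exact Finset.notMem_erase _ _ h6
  have t3 : 2 ≤ g (Y₁.erase z) := by
    have h3 := (h.up (Y₁.erase z) a).1
    linarith
  set R := U \ {a, z} with hR
  have t4 : g R ≤ 1 := by
    have h3 := h.sub Y₂ (U \ {a, b, z})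
    have e3 : Y₂ ∪ (U \ {a, b, z}) = R := by
      ext i
      simp only [hR, Finset.mem_union, Finset.mem_sdiff, Finset.mem_insert,
        Finset.mem_singleton, not_or]
      constructor
      · rintro (h4 | ⟨h4, h5, h6, h7⟩)
        · exact ⟨h₂.1 h4, fun h5 => y1 (h5 ▸ h4), fun h5 => y4 (h5 ▸ h4)⟩
        · exact ⟨h4, h5, h7⟩
      · rintro ⟨h4, h5, h6⟩
        by_cases hib : i = b
        · exact Or.inl (hib ▸ y2)
        · exact Or.inr ⟨h4, h5, hib, h6⟩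
    have e4 : Y₂ ∩ (U \ {a, b, z}) = Y₂.erase b := by
      ext i
      simp only [Finset.mem_inter, Finset.mem_sdiff, Finset.mem_insert, Finset.mem_singleton,
        not_or, Finset.mem_erase]
      constructor
      · rintro ⟨h4, -, -, h5, -⟩
        exact ⟨h5, h4⟩
      · rintro ⟨h4, h5⟩
        exact ⟨h5, h₂.1 h5, fun h6 => y1 (h6 ▸ h5), h4, fun h6 => y4 (h6 ▸ h5)⟩
    have v1 : g (Y₂.erase b) = 2 := ho _ ((Finset.erase_subset _ _).trans h₂.1)
      (fun h0 => y1 (Finset.mem_of_mem_erase h0)) (Finset.notMem_erase _ _)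
      (Finset.mem_erase.2 ⟨bc.symm, y3⟩) (Finset.mem_erase.2 ⟨bd.symm, y5⟩)
    have v2 : g (U \ {a, b, z}) = 2 := by
      refine ho _ Finset.sdiff_subset ?_ ?_ ?_ ?_
      · simp
      · simp
      · simp only [Finset.mem_sdiff, Finset.mem_insert, Finset.mem_singleton, not_or]
        exact ⟨cU, ac.symm, bc.symm, zc.symm⟩
      · simp only [Finset.mem_sdiff, Finset.mem_insert, Finset.mem_singleton, not_or]
        exact ⟨dU, ad.symm, bd.symm, zd.symm⟩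
    rw [e3, e4, v1, v2, h₂.2.2.2] at h3
    linarith
  have h3 := h.sub Y₁ R
  have e5 : Y₁ ∪ R = U.erase a := by
    ext i
    simp only [hR, Finset.mem_union, Finset.mem_sdiff, Finset.mem_insert,
      Finset.mem_singleton, not_or, Finset.mem_erase]
    constructor
    · rintro (h4 | ⟨h4, h5, -⟩)
      · exact ⟨fun h5 => x1 (h5 ▸ h4), h₁.1 h4⟩
      · exact ⟨h5, h4⟩
    · rintro ⟨h4, h5⟩
      by_cases hiz : i = z
      · exact Or.inl (hiz ▸ x4)
      · exact Or.inr ⟨h5, h4, hiz⟩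
  have e6 : Y₁ ∩ R = Y₁.erase z := by
    ext i
    simp only [hR, Finset.mem_inter, Finset.mem_sdiff, Finset.mem_insert,
      Finset.mem_singleton, not_or, Finset.mem_erase]
    constructor
    · rintro ⟨h4, -, -, h5⟩
      exact ⟨h5, h4⟩
    · rintro ⟨h4, h5⟩
      exact ⟨h5, h₁.1 h5, fun h6 => x1 (h6 ▸ h5), h4⟩
  have v3 : 1 ≤ g (U.erase a) := h.ge_one (Finset.erase_subset _ _)
    (Finset.mem_erase.2 ⟨ab.symm, bU⟩) aU (Finset.notMem_erase _ _)
  rw [e5, e6, h₁.2.2.2] at h3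
  linarith

omit [DecidableEq V] in
lemma Pr.sA {g : Finset V → ℝ} {U : Finset V} {a b c d z w : V} (h : Pr g U a b c d z w) :
    Pr g U b a c d z w := fun X h1 h2 h3 h4 h5 h6 => h X h1 h3 h2 h4 h5 h6

omit [DecidableEq V] in
lemma Pr.sN {g : Finset V → ℝ} {U : Finset V} {a b c d z w : V} (h : Pr g U a b c d z w) :
    Pr g U a b d c z w := fun X h1 h2 h3 h4 h5 h6 => h X h1 h2 h3 h5 h4 h6

omit [DecidableEq V] in
lemma To.sA {g : Finset V → ℝ} {U : Finset V} {a b c d : V} (h : To g U a b c d) :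
    To g U b a c d := fun X h1 h2 h3 h4 h5 => h X h1 h3 h2 h4 h5

omit [DecidableEq V] in
lemma To.sN {g : Finset V → ℝ} {U : Finset V} {a b c d : V} (h : To g U a b c d) :
    To g U a b d c := fun X h1 h2 h3 h4 h5 => h X h1 h2 h3 h5 h4

omit [DecidableEq V] in
/-- a failing separation gives a separating set -/
lemma exSep {F : Finset V → Prop} {a b c d : V} (h : ¬ K4 F a b c d) :
    ∃ X, F X ∧ ((a ∈ X ∧ b ∈ X ∧ c ∉ X ∧ d ∉ X) ∨ (a ∉ X ∧ b ∉ X ∧ c ∈ X ∧ d ∈ X)) := by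
  unfold K4 at h
  push Not at h
  obtain ⟨X, hX, h1⟩ := h
  refine ⟨X, hX, ?_⟩
  by_cases h2 : a ∈ X ∧ b ∈ X ∧ c ∉ X ∧ d ∉ X
  · exact Or.inl h2
  · exact Or.inr (h1 fun p q r => by_contra fun s => h2 ⟨p, q, r, s⟩)

/-- **The block lemma.** -/
theorem inZ_of {g : Finset V → ℝ} {U : Finset V} (h : Gd g U) {a b c d z w : V}
    (mU : a ∈ U ∧ b ∈ U ∧ c ∈ U ∧ d ∈ U)
    (ne : a ≠ b ∧ a ≠ c ∧ a ≠ d ∧ b ≠ c ∧ b ≠ d ∧ c ≠ d) (zU : z ∈ U)
    (zne : z ≠ a ∧ z ≠ b ∧ z ≠ c ∧ z ≠ d) (wne : w ≠ a ∧ w ≠ b ∧ w ≠ c ∧ w ≠ d) (wz : w ≠ z)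
    (hK : K4 (FF g U) a b c d) (ho : To g U a b c d) (pr : Pr g U a b c d z w) :
    InZ (FF g U) U a b c d z := by
  obtain ⟨aU, bU, cU, dU⟩ := mU
  obtain ⟨ab, ac, ad, bc, bd, cd⟩ := ne
  obtain ⟨za, zb, zc, zd⟩ := zne
  refine ⟨zU, ⟨za, zb, zc, zd⟩, ?_, ?_⟩
  · by_contra hcon
    rw [not_or] at hcon
    obtain ⟨Y₁, h₁, s1⟩ := exSep hcon.1
    obtain ⟨Y₂, h₂, s2⟩ := exSep hcon.2
    have k1 := hK Y₁ h₁
    have k2 := hK Y₂ h₂
    rcases s1 with ⟨x1, x2, x3, x4⟩ | ⟨x1, x2, x3, x4⟩ <;>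
      rcases s2 with ⟨y1, y2, y3, y4⟩ | ⟨y1, y2, y3, y4⟩
    · have h3 := (h.cross h₁ h₂ x1 y2 cU x3 y3).2
      exact (hK _ h3).1 ⟨Finset.mem_union_right _ y1, Finset.mem_union_left _ x2,
        by simp [x3, y3], by simp [x4, y4]⟩
    · have x5 : a ∉ Y₁ := fun h0 => k1.1 ⟨h0, x2, x3, x4⟩
      have y5 : b ∈ Y₂ := by_contra fun h0 => k2.2 ⟨y1, h0, y3, y4⟩
      exact mixA h aU bU cU dU ab ac ad bc bd za zb zc zd wz wne.1 hK ho pr h₁ h₂ x5 x2 x3 x1 x4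
        y1 y5 y3 y2 y4
    · have y5 : b ∉ Y₂ := fun h0 => k2.1 ⟨y1, h0, y3, y4⟩
      have x5 : a ∈ Y₁ := by_contra fun h0 => k1.2 ⟨h0, x2, x3, x4⟩
      exact mixA h bU aU cU dU ab.symm bc bd ac ad zb za zc zd wz wne.2.1 hK.a ho.sA pr.sA h₂ h₁
        y5 y1 y3 y2 y4 x2 x5 x3 x1 x4
    · have h3 := (h.cross h₁ h₂ x3 y3 zU x1 y2).1
      exact (hK _ h3).2 ⟨by simp [y1], by simp [x2], Finset.mem_inter.2 ⟨x3, y3⟩,
        Finset.mem_inter.2 ⟨x4, y4⟩⟩
  · by_contra hcon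
    rw [not_or] at hcon
    obtain ⟨Y₁, h₁, s1⟩ := exSep hcon.1
    obtain ⟨Y₂, h₂, s2⟩ := exSep hcon.2
    have k1 := hK Y₁ h₁
    have k2 := hK Y₂ h₂
    rcases s1 with ⟨x1, x2, x3, x4⟩ | ⟨x1, x2, x3, x4⟩ <;>
      rcases s2 with ⟨y1, y2, y3, y4⟩ | ⟨y1, y2, y3, y4⟩
    · have h3 := (h.cross h₁ h₂ x1 y1 zU x3 y4).1
      exact (hK _ h3).1 ⟨Finset.mem_inter.2 ⟨x1, y1⟩, Finset.mem_inter.2 ⟨x2, y2⟩,
        by simp [y3], by simp [x4]⟩
    · have x5 : c ∈ Y₁ := by_contra fun h0 => k1.1 ⟨x1, x2, h0, x4⟩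
      have y5 : d ∉ Y₂ := fun h0 => k2.2 ⟨y1, y2, y3, h0⟩
      exact mixN h cU dU zU ac ad bc bd cd za zb zc zd wz hK ho pr h₁ h₂ x1 x2 x5 x3 x4 y1 y2 y3
        y4 y5
    · have x5 : c ∉ Y₁ := fun h0 => k1.2 ⟨x1, x2, h0, x4⟩
      have y5 : d ∈ Y₂ := by_contra fun h0 => k2.1 ⟨y1, y2, y3, h0⟩
      exact mixN h dU cU zU ad ac bd bc cd.symm za zb zd zc wz hK.n ho.sN pr.sN h₂ h₁ y1 y2 y5 y4
        y3 x1 x2 x4 x3 x5
    · have h3 := (h.cross h₁ h₂ x3 y4 aU x1 y1).2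
      exact (hK _ h3).2 ⟨by simp [x1, y1], by simp [x2, y2], Finset.mem_union_right _ y3,
        Finset.mem_union_left _ x4⟩

/-- sets in the family do not separate -/
theorem noSep_of {g : Finset V → ℝ} {U : Finset V} (h : Gd g U) {a b c d z w : V}
    (mU : a ∈ U ∧ b ∈ U ∧ c ∈ U ∧ d ∈ U)
    (ne : a ≠ b ∧ a ≠ c ∧ a ≠ d ∧ b ≠ c ∧ b ≠ d ∧ c ≠ d)
    (zne : z ≠ a ∧ z ≠ b ∧ z ≠ c ∧ z ≠ d) (wne : w ≠ a ∧ w ≠ b ∧ w ≠ c ∧ w ≠ d)
    (hK : K4 (FF g U) a b c d) (pr : Pr g U a b c d z w) : NoSep (FF g U) a b c d z w := by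
  obtain ⟨aU, bU, cU, dU⟩ := mU
  obtain ⟨ab, ac, ad, bc, bd, cd⟩ := ne
  intro X hX h1
  have key : ∀ Y, Y ⊆ U → a ∈ Y → b ∈ Y → c ∉ Y → d ∉ Y → g Y ≤ 2 → (z ∈ Y ↔ w ∈ Y) := by
    intro Y y1 y2 y3 y4 y5 y6
    exact pr Y y1 y2 y3 y4 y5 (le_antisymm y6 (ge2 h cU hK y1 y2 y3 y4 y5))
  rcases h1 with ⟨h2, h3, h4⟩ | ⟨h2, h3, h4⟩
  · have h5 : g ((X.erase c).erase d) ≤ 2 := by
      rcases h4 with h4 | h4
      · rw [Finset.erase_eq_of_notMem h4]
        by_cases h6 : d ∈ X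
        · have := (h.up (X.erase d) d).2
          rw [Finset.insert_erase h6, hX.2.2.2] at this
          linarith
        · rw [Finset.erase_eq_of_notMem h6, hX.2.2.2]; norm_num
      · rw [Finset.erase_eq_of_notMem (fun h0 => h4 (Finset.mem_of_mem_erase h0))]
        by_cases h6 : c ∈ X
        · have := (h.up (X.erase c) c).2
          rw [Finset.insert_erase h6, hX.2.2.2] at this
          linarith
        · rw [Finset.erase_eq_of_notMem h6, hX.2.2.2]; norm_num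
    have h6 := key ((X.erase c).erase d)
      ((Finset.erase_subset _ _).trans ((Finset.erase_subset _ _).trans hX.1))
      (by simp [ac, ad, h2]) (by simp [bc, bd, h3]) (by simp) (by simp) h5
    simp only [Finset.mem_erase, zne.2.2.1, zne.2.2.2, wne.2.2.1, wne.2.2.2, ne_eq,
      not_false_eq_true, true_and] at h6
    exact h6
  · have h5 : g (insert a (insert b X)) ≤ 2 := by
      rcases h2 with h2 | h2
      · rw [Finset.insert_eq_of_mem (Finset.mem_insert_of_mem h2)]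
        have := (h.up X b).1
        rw [hX.2.2.2] at this
        linarith
      · rw [Finset.insert_eq_of_mem h2]
        have := (h.up X a).1
        rw [hX.2.2.2] at this
        linarith
    have h6 := key (insert a (insert b X))
      (Finset.insert_subset aU (Finset.insert_subset bU hX.1)) (by simp) (by simp)
      (by simp [ac.symm, bc.symm, h3]) (by simp [ad.symm, bd.symm, h4]) h5
    simp only [Finset.mem_insert, zne.1, zne.2.1, wne.1, wne.2.1, false_or] at h6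
    exact h6

end Pool.Agent.H12.Fr
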