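import Pool.Agent.H12.Fr.Snd

/-!
# The three finite facts: certificates

The trees were found by computer; they are checked here by kernel evaluation.
-/

set_option autoImplicit false
set_option maxHeartbeats 4000000
set_option maxRecDepth 20000

open Finset

namespace Pool.Agent.H12.Fr

/-- certificate S1 -/
def trS1 : Tr :=
(.split [.hyp 0, .hyp 1, .hyp 2, .an 0 1 2 3, .ck 0 1 2 3, .kf 2 3 1 4 13, .kf 2 3 1 4 50,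
 .kf 2 3 1 4 18, .sa 0 1 2 3 4, .kf 2 3 1 4 45, .sa 1 0 2 3 5, .kf 2 3 0 5 33, .kf 2 3 0 5 30,
 .kf 2 3 0 5 49, .kf 2 3 0 5 14, .sa 4 2 0 1 3, .kf 0 1 2 3 51, .kf 0 1 2 3 3, .kf 0 1 2 3 12,
 .kf 0 1 2 3 44, .kf 0 1 2 3 19, .kf 0 1 2 3 35, .sn 2 3 5 0 1, .sn 2 3 4 0 1, .sa 4 3 0 1 2,
 .kf 0 1 2 3 60, .sn 2 3 4 1 0, .kf 0 1 2 3 28, .sa 1 2 0 5 3, .sa 1 3 0 5 2, .sa 4 2 0 5 3,
 .sa 4 3 0 5 2, .sn 2 3 5 4 1, .sa 0 2 1 4 3, .sa 5 2 1 4 3, .sa 0 3 1 4 2] 4908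
 (.leaf [.sa 5 4 0 1 2, .sa 5 4 0 1 3] (.hyp 3))
 (.split [] 6425
 (.leaf [.sa 1 3 0 4 2, .ck 1 3 0 4, .kf 1 3 0 4 17, .kf 1 3 0 4 46] (.kd 2 3 0 4))
 (.split [] 6417
 (.leaf [.sa 1 2 0 4 3, .ck 1 2 0 4, .kf 1 2 0 4 17, .kf 1 2 0 4 46] (.kd 2 3 0 4))
 (.split [] 3016
 (.split [.kf 0 1 3 5 56, .sn 0 1 2 3 5, .kf 0 1 3 5 23, .kf 0 1 3 5 7, .kf 0 1 3 5 40] 2440
 (.split [.kf 0 1 2 4 20, .sn 0 1 3 2 4, .kf 0 1 2 4 52, .kf 0 1 2 4 43, .kf 0 1 2 4 11] 2849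
 (.leaf [.kf 1 4 0 5 22, .kf 1 4 0 5 41, .kd 1 4 3 5, .kd 2 4 0 5, .sn 1 4 2 3 5,
 .sa 1 4 0 5 2] (.sn 1 4 3 5 0))
 (.split [] 41
 (.split [.cap 37 41, .cap 41 58, .cup 41 42, .cup 10 41, .cap 41 53, .cap 39 41, .cup 5 41] 15
 (.leaf [.cap 15 21, .cap 15 26, .kd 0 2 1 3, .kd 0 2 1 4, .kd 1 3 0 5, .sn 0 2 3 1 4,
 .sn 0 5 2 3 1] (.sa 5 0 1 3 2))
 (.split [] 48
 (.leaf [.cup 41 48, .cup 24 48, .cap 26 57, .kd 0 2 3 4, .kd 0 2 1 4, .kd 3 4 0 5,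
 .sn 0 2 3 4 1, .sn 0 5 2 3 4] (.sa 5 0 3 4 2))
 (.leaf [.kd 0 1 4 5, .kd 2 3 4 5, .kd 1 3 4 5, .sn 4 5 3 1 0,
 .sa 0 5 2 3 4] (.sn 4 5 2 3 1))))
 (.split [] 22
 (.split [.cap 22 26, .cap 22 27, .cap 22 58, .cup 10 22, .cup 22 24, .cap 22 53, .cup 5 22] 48
 (.leaf [.cup 36 48, .cup 37 48, .kd 1 4 2 5, .kd 1 3 2 5, .kd 1 3 0 5, .sn 2 5 3 1 4,
 .sn 0 5 2 3 1] (.sa 0 5 1 3 2))
 (.split [] 15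
 (.leaf [.cap 15 39, .cap 15 22, .cup 6 37, .kd 0 2 3 4, .kd 0 2 1 4, .kd 3 4 0 5,
 .sn 0 2 3 4 1, .sn 0 5 2 3 4] (.sa 5 0 3 4 2))
 (.leaf [.kd 0 1 4 5, .kd 2 3 4 5, .kd 1 3 4 5, .sn 4 5 3 1 0,
 .sa 0 5 2 3 4] (.sn 4 5 2 3 1))))
 (.split [] 6
 (.split [.cup 6 10, .cup 6 26, .kd 1 4 0 5, .cup 9 37, .cup 6 37, .cap 15 39] 48
 (.leaf [.cup 36 48, .cap 37 54, .kd 0 3 1 4, .kd 0 3 2 4, .sn 0 3 2 4 1] (.sa 1 0 2 4 3))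
 (.leaf [.kd 0 1 4 5, .kd 2 3 4 5, .sn 4 5 3 1 0, .sa 0 5 2 3 4, .sn 4 5 2 3 1, .kd 1 3 4 5,
 .cap 53 54, .kd 0 3 1 4, .kd 0 3 2 4, .sn 0 3 2 4 1] (.sa 1 0 2 4 3)))
 (.split [] 57
 (.split [.cap 37 57, .cap 53 57, .kd 1 4 0 5, .cap 26 57, .cap 26 54, .cup 24 48] 15
 (.leaf [.cap 15 26, .cup 9 10, .kd 0 3 1 4, .kd 0 3 2 4, .sn 0 3 2 4 1] (.sa 1 0 2 4 3))
 (.leaf [.kd 0 1 4 5, .kd 2 3 4 5, .sn 4 5 3 1 0, .sa 0 5 2 3 4, .sn 4 5 2 3 1, .kd 1 3 4 5,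
 .cup 9 10, .kd 0 3 1 4, .kd 0 3 2 4, .sn 0 3 2 4 1] (.sa 1 0 2 4 3)))
 (.leaf [.kd 1 2 0 5, .kd 1 2 3 5, .sn 1 2 3 5 0] (.sa 0 1 3 5 2)))))))
 (.split [.hyp 3, .kf 0 1 3 4 24, .kf 0 1 3 4 39] 2849
 (.leaf [.kf 1 4 0 5 22, .kf 1 4 0 5 41, .kf 1 4 0 5 26, .kf 1 4 0 5 37, .kd 1 4 3 5,
 .kd 3 4 0 5, .sn 1 4 2 3 5, .sa 1 4 0 5 3] (.sn 1 4 3 5 0))
 (.split [] 37
 (.split [.cup 34 37, .cap 37 41, .cap 37 57, .cup 6 37, .cup 37 38] 22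
 (.split [.cap 22 46, .cup 17 22, .cap 15 22, .cap 22 27, .cup 10 22, .cup 5 22, .cap 29 37,
 .kd 2 3 1 5, .sa 0 1 2 3 5] 25
 (.leaf [.cap 25 53, .cup 11 25, .cup 37 52, .cup 37 48, .kd 0 1 4 5, .kd 2 3 4 5, .kd 1 3 4 5,
 .sn 4 5 3 1 0, .sa 0 5 2 3 4] (.sn 4 5 2 3 1))
 (.leaf [.kd 3 4 1 5, .kd 1 2 0 4, .kd 1 2 3 4, .sn 1 5 2 3 4, .sn 1 2 3 4 0] (.sa 5 1 3 4 2)))
 (.leaf [.kd 1 2 0 5, .kd 1 2 3 5, .sn 1 2 3 5 0] (.sa 0 1 3 5 2)))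
 (.split [] 22
 (.leaf [.cap 22 26, .cap 22 58, .cup 5 22, .kd 3 4 0 5, .kd 0 2 3 4, .kd 0 2 1 4,
 .sn 0 5 2 3 4, .sn 0 2 3 4 1] (.sa 5 0 3 4 2))
 (.split [] 26
 (.split [.cap 26 57, .cup 6 26, .cap 26 29, .cup 20 26] 41
 (.split [.cup 25 41, .cap 41 58, .cup 36 41, .cup 17 41, .cap 41 46, .cup 26 34, .kd 2 3 1 5,
 .sa 0 1 2 3 5] 38
 (.leaf [.cap 38 52, .cap 38 43, .kd 0 1 2 4, .cup 10 41] (.cap 11 26))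
 (.leaf [.kd 3 4 1 5, .kd 1 2 0 4, .kd 1 2 3 4, .sn 1 5 2 3 4, .sn 1 2 3 4 0] (.sa 5 1 3 4 2)))
 (.leaf [.kd 1 2 0 5, .kd 1 2 3 5, .sn 1 2 3 5 0] (.sa 0 1 3 5 2)))
 (.leaf [.kd 3 4 0 5, .kd 1 4 0 5, .sn 0 5 2 3 4, .cap 41 58, .cup 5 41, .kd 0 2 3 4,
 .kd 0 2 1 4, .sa 5 0 3 4 2] (.sn 0 2 3 4 1)))))))
 (.split [.hyp 4, .kf 0 1 2 5 27, .kf 0 1 2 5 11, .kf 0 1 2 5 52, .sn 0 1 3 2 5,
 .kf 0 1 2 5 36] 2504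
 (.split [.kf 0 1 3 4 24, .kf 0 1 3 4 7, .kf 0 1 3 4 39, .kf 0 1 3 4 56] 2849
 (.leaf [.kf 1 4 0 5 26, .kf 1 4 0 5 37, .kd 1 4 2 5, .kd 3 4 0 5, .sn 1 4 3 2 5,
 .sa 1 4 0 5 3] (.sn 1 4 2 5 0))
 (.split [] 37
 (.split [.cup 9 37, .cap 37 41, .cap 37 57, .cup 6 37, .cap 37 54, .cup 37 40, .cap 37 43,
 .kd 0 1 3 5, .cap 15 23] 48
 (.leaf [.cup 37 48, .cup 20 48, .kd 0 1 2 4, .cap 22 53, .sn 0 1 3 2 4, .kd 0 3 1 4,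
 .kd 0 3 2 4, .sn 0 3 2 4 1] (.sa 1 0 2 4 3))
 (.leaf [.kd 0 1 4 5, .kd 1 2 4 5, .kd 2 3 4 5, .sn 4 5 2 1 0, .sa 0 5 2 3 4] (.sn 4 5 3 2 1)))
 (.split [] 26
 (.split [.cap 22 26, .cap 26 57, .cap 23 26, .cup 9 26, .cup 6 26, .cap 26 54, .cup 20 26,
 .kd 0 1 3 5, .cup 40 48] 15
 (.leaf [.cap 15 26, .cap 15 43, .kd 0 1 2 4, .cup 10 41, .sn 0 1 3 2 4, .kd 0 3 1 4,
 .kd 0 3 2 4, .sn 0 3 2 4 1] (.sa 1 0 2 4 3))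
 (.leaf [.kd 0 1 4 5, .kd 1 2 4 5, .kd 2 3 4 5, .sn 4 5 2 1 0, .sa 0 5 2 3 4] (.sn 4 5 3 2 1)))
 (.split [.kd 1 4 2 5, .kd 3 4 0 5, .sn 2 5 3 4 1, .sn 0 5 2 3 4, .sa 0 5 3 4 2] 58
 (.leaf [.cap 57 58, .cap 22 58, .kd 1 4 0 5, .cup 25 41, .cup 41 48, .cap 41 53, .kd 3 4 2 5,
 .cap 38 58, .cup 34 41, .cap 15 43, .kd 0 1 4 5, .kd 2 3 4 5, .sn 4 5 3 1 0, .sn 4 5 2 1 0,
 .sa 0 5 2 3 4, .sn 4 5 2 3 1, .sn 4 5 3 2 1, .kd 1 3 4 5, .kd 1 2 4 5] (.cup 6 10))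
 (.split [] 5
 (.split [.cup 5 6, .cup 5 41, .kd 1 4 0 5, .cap 15 22, .cup 10 22] 53
 (.leaf [.cap 53 57, .cap 22 53, .cup 20 48, .kd 0 1 4 5, .kd 1 2 4 5, .kd 2 3 4 5,
 .sn 4 5 2 1 0, .sa 0 5 2 3 4] (.sn 4 5 3 2 1))
 (.leaf [.kd 1 3 2 5, .kd 1 3 0 5, .sa 0 1 2 5 3] (.sn 1 3 2 5 0)))
 (.leaf [.kd 0 2 3 4, .kd 0 2 1 4, .sa 5 0 3 4 2] (.sn 0 2 3 4 1)))))))
 (.split [.hyp 3, .kf 0 1 2 4 20, .sn 0 1 3 2 4, .kf 0 1 2 4 43] 2849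
 (.leaf [.kf 1 4 0 5 22, .kf 1 4 0 5 41, .kf 1 4 0 5 26, .kf 1 4 0 5 37, .kd 2 4 0 5,
 .kd 1 4 2 5, .sa 1 4 0 5 2, .sn 1 4 3 2 5] (.sn 1 4 2 5 0))
 (.split [] 41
 (.split [.cap 37 41, .cup 41 42, .cup 10 41, .cap 41 53, .cap 39 41, .cup 5 41] 26
 (.split [.cap 15 26, .cap 26 46, .cup 17 26] 57
 (.leaf [.cap 21 57, .kd 1 3 2 4, .kd 1 3 0 4, .sa 0 1 2 4 3] (.sn 1 3 2 4 0))
 (.leaf [.cup 41 56, .cup 24 41, .cup 41 48, .kd 0 1 3 4, .kd 2 3 4 5, .kd 1 3 4 5, .cap 7 21,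
 .sa 1 3 4 5 2, .kd 1 3 2 4, .sn 1 3 2 4 5] (.sa 0 1 2 4 3)))
 (.leaf [.kd 1 3 2 5, .kd 1 3 0 5, .sa 0 1 2 5 3] (.sn 1 3 2 5 0)))
 (.split [] 26
 (.leaf [.cap 22 26, .cup 9 26, .cap 26 54, .kd 0 3 1 4, .kd 0 3 2 4,
 .sn 0 3 2 4 1] (.sa 1 0 2 4 3))
 (.split [] 37
 (.split [.cup 9 37, .cap 37 46, .cap 37 54] 22
 (.split [.cap 22 58, .cup 10 22, .cup 22 24, .cap 22 53, .cap 21 22, .cup 22 34,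
 .cup 17 37] 39
 (.leaf [.cap 39 42, .kd 1 3 2 4, .kd 1 3 0 4, .sa 0 1 2 4 3] (.sn 1 3 2 4 0))
 (.leaf [.cup 7 37, .kd 0 1 3 4, .cup 42 56, .kd 1 3 2 4, .kd 1 3 0 4,
 .sa 0 1 2 4 3] (.sn 1 3 2 4 0)))
 (.leaf [.kd 0 3 1 4, .kd 0 3 2 4, .sn 0 3 2 4 1] (.sa 1 0 2 4 3)))
 (.leaf [.kd 1 4 0 5, .cup 10 22, .cap 22 53, .kd 1 3 2 5, .kd 1 3 0 5,
 .sa 0 1 2 5 3] (.sn 1 3 2 5 0)))))))))))

/-- hypotheses S1 -/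
def hyS1 : List (List (ℕ × Bool)) :=
  [[(cn 0 1 2 3, true)], [(kn 4 1 2 3, true)], [(kn 0 5 2 3, true)],
    [(kn 0 1 4 3, true), (kn 0 1 2 4, true)], [(kn 0 1 5 3, true), (kn 0 1 2 5, true)]]

lemma ckS1 : check 6 false hyS1 trS1 0 0 = true := by decide +kernel

/-- certificate S2a -/
def trS2a : Tr :=
(.leaf [.hyp 0, .hyp 1, .hyp 3, .hyp 9, .an 0 1 2 3, .ck 0 1 2 3, .kf 2 3 0 4 14,
 .kf 2 3 0 4 17, .kf 2 3 0 4 46, .kf 2 3 0 4 49, .sn 0 1 3 2 4, .kf 1 3 2 4 10, .kf 1 3 2 4 21,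
 .kf 1 3 2 4 42, .kf 1 3 2 4 53, .sn 2 3 4 0 1, .sa 0 1 2 4 3, .kd 1 3 0 4,
 .sa 1 3 0 4 2] (.sn 1 3 2 4 0))

/-- hypotheses S2a -/
def hyS2a : List (List (ℕ × Bool)) :=
  [[(cn 0 1 2 3, true)], [(kn 0 4 2 3, true)], [(kn 4 1 2 3, false)],
    [(kn 0 1 2 4, true)], [(kn 0 1 4 3, false)], [(kn 0 5 2 3, true)],
    [(kn 5 1 2 3, false)], [(kn 0 1 2 5, true)], [(kn 0 1 5 3, false)],
    [(kn 3 1 2 4, true)], [(kn 0 3 2 4, false)],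
    [(kn 0 1 3 4, true), (kn 0 1 2 3, true)], [(kn 5 1 2 4, true)],
    [(kn 0 5 2 4, false)], [(kn 0 1 5 4, true), (kn 0 1 2 5, true)]]

lemma ckS2a : check 6 true hyS2a trS2a 0 0 = true := by decide +kernel

/-- certificate S2b -/
def trS2b : Tr :=
(.leaf [.hyp 0, .hyp 1, .hyp 3, .hyp 9, .an 0 1 2 3, .ck 0 1 2 3, .kf 2 3 0 4 14,
 .kf 2 3 0 4 17, .kf 2 3 0 4 46, .kf 2 3 0 4 49, .kf 2 3 0 4 78, .kf 2 3 0 4 81,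
 .kf 2 3 0 4 110, .kf 2 3 0 4 113, .sn 0 1 3 2 4, .kf 1 3 2 4 10, .kf 1 3 2 4 21,
 .kf 1 3 2 4 42, .kf 1 3 2 4 53, .kf 1 3 2 4 74, .kf 1 3 2 4 85, .kf 1 3 2 4 106,
 .kf 1 3 2 4 117, .sn 2 3 4 0 1, .sa 0 1 2 4 3, .kd 1 3 0 4, .sa 1 3 0 4 2] (.sn 1 3 2 4 0))

/-- hypotheses S2b -/
def hyS2b : List (List (ℕ × Bool)) :=
  [[(cn 0 1 2 3, true)], [(kn 0 4 2 3, true)], [(kn 4 1 2 3, false)],
    [(kn 0 1 2 4, true)], [(kn 0 1 4 3, false)], [(kn 0 5 2 3, true)],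
    [(kn 5 1 2 3, false)], [(kn 0 1 2 5, true)], [(kn 0 1 5 3, false)],
    [(kn 3 1 2 4, true)], [(kn 0 3 2 4, false)],
    [(kn 0 1 3 4, true), (kn 0 1 2 3, true)], [(kn 6 1 2 4, true)],
    [(kn 0 6 2 4, false)], [(kn 0 1 6 4, true), (kn 0 1 2 6, true)]]

lemma ckS2b : check 7 true hyS2b trS2b 0 0 = true := by decide +kernel

/-- certificate S2c -/
def trS2c : Tr :=
(.split [.hyp 0, .hyp 1, .hyp 3, .hyp 5, .hyp 9, .hyp 10, .hyp 12, .an 0 1 2 3, .ck 0 1 2 3,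
 .kf 2 3 0 4 14, .kf 2 3 0 4 17, .kf 2 3 0 4 46, .kf 2 3 0 4 49, .kf 2 3 0 4 78, .kf 2 3 0 4 81,
 .kf 2 3 0 4 110, .kf 2 3 0 4 113, .sn 0 1 3 2 4, .kf 0 1 2 4 11, .kf 0 1 2 4 20,
 .kf 0 1 2 4 43, .kf 0 1 2 4 52, .kf 0 1 2 4 75, .kf 0 1 2 4 84, .kf 0 1 2 4 107,
 .kf 0 1 2 4 116, .kf 2 3 0 5 30, .kf 2 3 0 5 33, .kf 2 3 0 5 94, .kf 2 3 0 5 97,
 .kf 2 4 1 5 21, .kf 2 4 1 5 42, .kf 2 4 1 5 85, .kf 2 4 1 5 106, .kf 2 4 1 6 53,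
 .kf 2 4 1 6 74, .kf 0 1 2 3 28, .kf 0 1 2 3 35, .kf 0 1 2 3 92, .kf 0 1 2 3 99, .sn 2 3 4 0 1,
 .sa 1 3 0 4 2] 117
 (.leaf [.cap 22 117, .cap 41 117, .cap 86 117, .cap 105 117] (.kd 2 4 0 5))
 (.split [] 10
 (.leaf [.cup 10 22, .cup 10 41, .cup 10 86, .cup 10 105] (.kd 2 4 0 5))
 (.leaf [.kd 1 3 0 4, .kd 1 3 2 4, .sn 1 3 2 4 0] (.sa 0 1 2 4 3))))

/-- hypotheses S2c -/
def hyS2c : List (List (ℕ × Bool)) :=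
  [[(cn 0 1 2 3, true)], [(kn 0 4 2 3, true)], [(kn 4 1 2 3, false)],
    [(kn 0 1 2 4, true)], [(kn 0 1 4 3, false)], [(kn 0 5 2 3, true)],
    [(kn 5 1 2 3, false)], [(kn 0 1 2 5, true)], [(kn 0 1 5 3, false)],
    [(kn 5 1 2 4, true)], [(kn 0 5 2 4, false)],
    [(kn 0 1 5 4, true), (kn 0 1 2 5, true)], [(kn 6 1 2 4, true)],
    [(kn 0 6 2 4, false)], [(kn 0 1 6 4, true), (kn 0 1 2 6, true)]]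

lemma ckS2c : check 7 true hyS2c trS2c 0 0 = true := by decide +kernel

/-- certificate S2d -/
def trS2d : Tr :=
(.split [.hyp 0, .hyp 1, .hyp 3, .hyp 5, .hyp 7, .hyp 9, .hyp 12, .hyp 13, .an 0 1 2 3,
 .ck 0 1 2 3, .sa 1 0 2 3 4, .kf 2 3 0 4 14, .kf 2 3 0 4 17, .kf 2 3 0 4 46, .kf 2 3 0 4 49,
 .kf 2 3 0 4 78, .kf 2 3 0 4 81, .kf 2 3 0 4 110, .kf 2 3 0 4 113, .kf 2 3 0 4 142,
 .kf 2 3 0 4 145, .kf 2 3 0 4 174, .kf 2 3 0 4 177, .kf 2 3 0 4 206, .kf 2 3 0 4 209,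
 .kf 2 3 0 4 238, .kf 2 3 0 4 241, .sn 0 1 3 2 4, .kf 0 1 2 4 11, .kf 0 1 2 4 20,
 .kf 0 1 2 4 43, .kf 0 1 2 4 52, .kf 0 1 2 4 75, .kf 0 1 2 4 84, .kf 0 1 2 4 107,
 .kf 0 1 2 4 116, .kf 0 1 2 4 139, .kf 0 1 2 4 148, .kf 0 1 2 4 171, .kf 0 1 2 4 180,
 .kf 0 1 2 4 203, .kf 0 1 2 4 212, .kf 0 1 2 4 235, .kf 0 1 2 4 244, .sa 1 0 2 3 5,
 .kf 2 3 0 5 30, .kf 2 3 0 5 33, .kf 2 3 0 5 94, .kf 2 3 0 5 97, .kf 2 3 0 5 158,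
 .kf 2 3 0 5 161, .kf 2 3 0 5 222, .kf 2 3 0 5 225, .sn 0 1 3 2 5, .kf 0 1 2 5 27,
 .kf 0 1 2 5 36, .kf 0 1 2 5 91, .kf 0 1 2 5 100, .kf 0 1 2 5 155, .kf 0 1 2 5 164,
 .kf 0 1 2 5 219, .kf 0 1 2 5 228, .kf 2 4 1 6 21, .kf 2 4 1 6 29, .kf 2 4 1 6 53,
 .kf 2 4 1 6 61, .kf 2 4 1 6 66, .kf 2 4 1 6 74, .kf 2 4 1 6 98, .kf 2 4 1 6 106,
 .kf 2 4 1 6 149, .kf 2 4 1 6 157, .kf 2 4 1 6 181, .kf 2 4 1 6 189, .kf 2 4 1 6 194,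
 .kf 2 4 1 6 202, .kf 2 4 1 6 226, .kf 2 4 1 6 234, .kf 2 4 1 7 85, .kf 2 4 1 7 93,
 .kf 2 4 1 7 117, .kf 2 4 1 7 125, .kf 2 4 1 7 130, .kf 2 4 1 7 138, .kf 2 4 1 7 162,
 .kf 2 4 1 7 170, .kf 0 1 2 3 3, .kf 0 1 2 3 12, .kf 0 1 2 3 19, .kf 0 1 2 3 28, .kf 0 1 2 3 35,
 .kf 0 1 2 3 44, .kf 0 1 2 3 51, .kf 0 1 2 3 60, .kf 0 1 2 3 67, .kf 0 1 2 3 76, .kf 0 1 2 3 83,
 .kf 0 1 2 3 92, .kf 0 1 2 3 99, .kf 0 1 2 3 108, .kf 0 1 2 3 115, .kf 0 1 2 3 124,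
 .kf 0 1 2 3 131, .kf 0 1 2 3 140, .kf 0 1 2 3 147, .kf 0 1 2 3 156, .kf 0 1 2 3 163,
 .kf 0 1 2 3 172, .kf 0 1 2 3 179, .kf 0 1 2 3 188, .kf 0 1 2 3 195, .kf 0 1 2 3 204,
 .kf 0 1 2 3 211, .kf 0 1 2 3 220, .kf 0 1 2 3 227, .kf 0 1 2 3 236, .kf 0 1 2 3 243,
 .kf 0 1 2 3 252, .sn 2 3 4 0 1, .sn 2 3 5 0 1, .sa 4 2 0 1 3, .sa 5 2 0 1 3, .sa 1 3 0 4 2,
 .sa 1 3 0 5 2, .sn 2 4 6 1 0, .sn 2 4 7 1 0, .sa 7 4 0 1 2, .sa 6 5 0 1 2, .sa 0 4 1 6 2,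
 .sn 2 4 3 6 1, .sn 2 4 3 7 1, .sa 6 4 1 7 2] 10
 (.leaf [.cup 10 22, .cup 10 41, .cup 10 86, .cup 10 105, .cup 10 150, .cup 10 169, .cup 10 214,
 .cup 10 233, .kd 2 4 0 5, .sx 1 0 4 2 5 6, .sy 0 1 2 4 6 5] (.hyp 11))
 (.split [] 245
 (.leaf [.cap 22 245, .cap 41 245, .cap 86 245, .cap 105 245, .cap 150 245, .cap 169 245,
 .cap 214 245, .cap 233 245, .kd 2 4 0 5, .sx 1 0 4 2 5 6, .sy 0 1 2 4 6 5] (.hyp 11))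
 (.split [] 96
 (.leaf [.cup 42 96, .cup 96 213, .kd 1 3 0 4, .kd 1 3 2 4, .sn 1 3 2 4 0] (.sa 0 1 2 4 3))
 (.split [] 95
 (.leaf [.cap 42 95, .cap 95 213, .kd 1 3 0 4, .kd 1 3 2 4, .sn 1 3 2 4 0] (.sa 0 1 2 4 3))
 (.split [] 159
 (.leaf [.cap 42 159, .cap 159 213, .kd 1 3 0 4, .kd 1 3 2 4, .sn 1 3 2 4 0] (.sa 0 1 2 4 3))
 (.split [] 31
 (.leaf [.cap 31 42, .cap 31 213, .kd 1 3 0 4, .kd 1 3 2 4, .sn 1 3 2 4 0] (.sa 0 1 2 4 3))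
 (.split [] 224
 (.leaf [.cup 42 224, .cup 213 224, .kd 1 3 0 4, .kd 1 3 2 4, .sn 1 3 2 4 0] (.sa 0 1 2 4 3))
 (.split [] 3592
 (.split [.sy 0 1 2 4 6 5, .sz 0 1 2 4 6 7, .kf 0 1 4 6 7, .kf 0 1 4 6 15, .kf 0 1 4 6 39,
 .kf 0 1 4 6 47, .kf 0 1 4 6 80, .kf 0 1 4 6 88, .kf 0 1 4 6 112, .kf 0 1 4 6 120,
 .kf 0 1 4 6 135, .kf 0 1 4 6 167, .kf 0 1 4 6 175, .kf 0 1 4 6 216, .kf 0 1 4 6 240,
 .kf 0 1 4 6 248, .hyp 14, .kf 0 1 4 7 71, .kf 0 1 4 7 103, .kf 0 1 4 7 111, .kf 0 1 4 7 152,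
 .kf 0 1 4 7 184, .kf 0 1 4 7 208, .sn 4 7 2 1 0] 90
 (.leaf [.cap 42 90, .cap 90 213, .kd 1 3 0 4, .kd 1 3 2 4, .sn 1 3 2 4 0] (.sa 0 1 2 4 3))
 (.split [] 37
 (.leaf [.cup 37 42, .cup 37 213, .kd 1 3 0 4, .kd 1 3 2 4, .sn 1 3 2 4 0] (.sa 0 1 2 4 3))
 (.split [] 101
 (.leaf [.cup 42 101, .cup 101 213, .kd 1 3 0 4, .kd 1 3 2 4, .sn 1 3 2 4 0] (.sa 0 1 2 4 3))
 (.split [] 165
 (.leaf [.cup 42 165, .cup 165 213, .kd 1 3 0 4, .kd 1 3 2 4, .sn 1 3 2 4 0] (.sa 0 1 2 4 3))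
 (.split [] 42
 (.split [.cup 6 42, .cup 9 42, .cup 13 42, .cap 26 42, .cup 38 42, .cup 41 42, .cup 42 45,
 .cup 42 70, .cup 42 72, .cup 42 73, .cup 42 77, .cap 42 79, .cup 42 102, .cup 42 104,
 .cup 42 105, .cup 42 109, .cup 42 134, .cup 42 136, .cup 42 137, .cup 42 141, .cap 42 143,
 .cup 42 166, .cup 42 168, .cup 42 169, .cup 42 198, .cup 42 200, .cup 42 201, .cup 42 230,
 .cup 42 232, .cup 42 233] 218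
 (.leaf [.cup 22 218, .cup 86 218, .cup 150 218, .cup 214 218] (.kd 2 4 0 5))
 (.split [] 129
 (.split [.cup 129 144, .cup 129 146, .cup 129 154, .cup 129 176, .cup 129 178, .cup 129 210,
 .cup 129 242, .kd 2 3 1 7, .kd 2 3 4 7, .sy 0 1 2 3 7 4, .sa 0 4 2 3 7, .sn 4 7 3 2 1] 229
 (.split [.cap 55 229, .cap 114 229, .cap 118 229, .cap 119 229, .cap 185 229, .cap 229 246,
 .cap 229 249, .kd 2 3 5 6, .sa 0 5 2 3 6] 153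
 (.leaf [.cap 23 153, .cap 87 153] (.kd 0 1 3 7))
 (.leaf [.cup 25 129, .kd 1 2 4 7, .kd 0 3 5 6, .cap 23 217, .cap 151 217, .sn 5 6 2 3 0,
 .kd 0 1 5 6] (.sn 5 6 3 0 1)))
 (.leaf [.kd 1 3 0 5, .kd 1 3 2 5, .sn 1 3 2 5 0] (.sa 0 1 2 5 3)))
 (.split [] 25
 (.split [.cup 22 25, .cup 25 42, .cup 25 86, .cup 25 150, .cap 23 59, .kd 2 4 0 5, .cap 54 214,
 .cap 62 214, .cap 126 214, .cap 182 214, .cup 42 118, .kd 2 4 0 7, .cap 151 193, .cup 154 193,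
 .cap 183 193] 229
 (.leaf [.cap 55 229, .kd 0 4 3 6, .kd 2 4 3 6, .sn 0 4 2 3 6] (.sa 0 4 3 6 2))
 (.leaf [.kd 1 3 0 5, .kd 1 3 2 5, .sn 1 3 2 5 0] (.sa 0 1 2 5 3)))
 (.split [] 229
 (.split [.cap 57 229, .cap 114 229, .cap 118 229, .cap 121 229, .cap 153 229, .cap 185 229,
 .cap 229 246, .cap 229 249, .kd 0 4 1 6, .sn 0 4 2 1 6, .sn 0 4 3 2 1] 193
 (.leaf [.cup 144 193, .cup 146 193, .cap 151 193, .cup 176 193, .cup 178 193, .cup 193 210,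
 .cup 193 242, .kd 0 3 5 6, .kd 2 3 4 7, .kd 2 3 5 6, .sa 0 4 2 3 7, .sa 0 5 2 3 6,
 .sn 4 7 3 2 1, .sn 5 6 2 3 0, .kd 1 2 4 7, .sn 5 6 3 0 1, .cap 23 217] (.kd 0 1 5 6))
 (.split [.cap 217 229, .kd 1 2 0 4, .cup 22 89, .cup 86 89] 214
 (.leaf [.cap 54 214, .cap 62 214, .cap 126 214] (.kd 2 4 0 7))
 (.leaf [.kd 2 4 0 5, .cap 62 150, .cap 126 150, .cup 42 54] (.kd 2 4 0 7))))
 (.split [] 154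
 (.split [.cup 22 154, .cup 86 154, .cup 154 193] 214
 (.leaf [.cap 54 214, .cap 62 214, .cap 126 214, .cup 42 118] (.kd 2 4 0 7))
 (.leaf [.kd 2 4 0 5, .cap 62 150, .cap 126 150, .cup 42 54, .cup 42 118] (.kd 2 4 0 7)))
 (.leaf [.kd 1 3 0 5, .kd 1 3 2 5, .sn 1 3 2 5 0] (.sa 0 1 2 5 3)))))))
 (.split [] 213
 (.split [.cap 22 213, .cap 23 213, .cap 25 213, .cap 54 213, .cap 55 213, .cap 57 213,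
 .cap 82 213, .cap 86 213, .cap 87 213, .cap 89 213, .cap 114 213, .cap 118 213, .cap 119 213,
 .cap 121 213, .cap 150 213, .cap 151 213, .cap 153 213, .cup 160 213, .cup 176 213,
 .cap 182 213, .cap 183 213, .cap 185 213, .cap 213 214, .cap 213 217, .cup 213 229,
 .cap 213 249] 218
 (.leaf [.cup 65 218, .cup 129 218, .cup 137 218, .cup 193 218, .cap 105 213, .cap 169 213,
 .cap 201 213, .cap 213 233, .kd 2 4 0 5, .cup 41 136, .cup 41 168, .cup 41 200, .cup 41 232,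
 .kd 0 4 3 7, .kd 2 4 3 7, .sn 0 4 2 3 7] (.sa 0 4 3 7 2))
 (.split [] 166
 (.leaf [.cup 41 166, .cup 129 166, .cap 166 233, .cap 137 213, .cap 169 213, .kd 2 4 0 5,
 .cup 105 136, .cup 105 168, .cup 105 200, .cup 105 232, .kd 0 4 3 7, .sn 0 4 2 3 7,
 .sa 0 4 3 7 2, .kd 2 4 3 7, .cup 26 201, .cap 201 213, .cup 154 193, .kd 1 3 0 5, .kd 1 3 2 5,
 .sn 1 3 2 5 0] (.sa 0 1 2 5 3))
 (.split [] 137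
 (.leaf [.cup 26 137, .cap 137 213, .cup 129 154, .kd 1 3 0 5, .kd 1 3 2 5,
 .sn 1 3 2 5 0] (.sa 0 1 2 5 3))
 (.split [] 201
 (.leaf [.cup 26 201, .cap 201 213, .cup 154 193, .kd 1 3 0 5, .kd 1 3 2 5,
 .sn 1 3 2 5 0] (.sa 0 1 2 5 3))
 (.split [] 26
 (.split [.cup 6 26, .cup 13 26, .cup 26 70, .cup 26 72, .cup 26 73, .cup 26 77, .cap 26 79,
 .cup 26 134, .cup 26 141, .cap 26 143, .cup 26 198, .cup 26 200, .kd 4 6 1 7, .kd 0 5 3 6,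
 .sa 5 6 1 7 4, .sn 0 5 2 3 6] 233
 (.leaf [.cap 102 233, .cap 213 233, .cap 230 233, .cup 193 210, .kd 0 4 1 6, .sn 0 4 2 1 6,
 .sa 5 0 1 6 4, .sn 0 4 3 2 1, .sn 0 5 3 6 1, .kd 1 2 0 4, .cup 38 41, .cup 38 169, .cap 45 233,
 .cap 173 233] (.kd 0 5 1 6))
 (.split [] 136
 (.leaf [.cup 26 136, .cup 105 136, .cup 129 154, .cap 169 213, .cup 41 136] (.kd 2 4 0 5))
 (.split [] 102
 (.leaf [.cup 5 102, .cup 69 102, .cup 102 168, .cap 102 232, .cap 102 250, .kd 0 4 3 7,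
 .sn 0 4 2 3 7, .sa 0 4 3 7 2, .kd 2 4 3 7, .cap 169 186, .cap 169 213, .cup 129 178,
 .cup 129 242, .kd 3 6 5 7, .kd 0 2 5 7, .kd 2 3 5 6, .kd 2 3 5 7,
 .sz 7 5 2 3 6 0] (.sa 0 5 2 3 7))
 (.split [] 230
 (.split [.cap 104 230, .cap 105 230, .cap 109 230] 129
 (.leaf [.cup 129 146, .cup 129 154, .cup 129 242, .kd 5 6 1 7, .kd 5 6 3 7, .kd 2 3 5 6,
 .sn 5 6 3 7 1, .sa 0 5 2 3 6] (.sn 5 6 2 3 7))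
 (.leaf [.cap 169 213, .kd 2 4 0 5, .cup 41 232, .kd 0 4 3 6, .kd 2 4 3 6,
 .sn 0 4 2 3 6] (.sa 0 4 3 6 2)))
 (.leaf [.kd 0 4 1 6, .sn 0 4 2 1 6, .sn 0 4 3 2 1, .kd 1 2 0 4, .cup 38 41, .cup 38 169,
 .kd 2 4 0 5, .cup 105 168, .cup 105 232, .kd 0 4 3 7, .kd 2 4 3 7,
 .sn 0 4 2 3 7] (.sa 0 4 3 7 2))))))
 (.split [] 154
 (.split [.cup 129 154, .cup 154 193, .cap 169 213, .cap 213 233] 105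
 (.leaf [.cup 105 136, .cup 105 168, .cup 105 200, .cup 105 232, .kd 0 4 3 7, .kd 2 4 3 7,
 .sn 0 4 2 3 7] (.sa 0 4 3 7 2))
 (.leaf [.kd 2 4 0 5, .cup 41 136, .cup 41 168, .cup 41 200, .cup 41 232, .kd 0 4 3 7,
 .kd 2 4 3 7, .sn 0 4 2 3 7] (.sa 0 4 3 7 2)))
 (.leaf [.kd 1 3 0 5, .kd 1 3 2 5, .sn 1 3 2 5 0] (.sa 0 1 2 5 3))))))))
 (.leaf [.kd 1 3 0 4, .kd 1 3 2 4, .sn 1 3 2 4 0] (.sa 0 1 2 4 3))))))))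
 (.split [.hyp 11, .sn 0 1 3 2 6, .sx 1 0 4 2 5 6, .sz 0 1 4 2 6 7, .kf 0 1 2 6 59,
 .kf 0 1 2 6 68, .kf 0 1 2 6 187, .kf 0 1 2 6 196, .hyp 14, .kf 0 1 2 7 123] 42
 (.leaf [.cup 25 42, .cup 42 57, .cup 42 70, .cup 42 102, .cup 42 153, .cup 42 185, .cup 42 198,
 .cup 42 230, .kd 0 4 1 6, .kd 0 4 2 6, .sn 0 4 2 6 1] (.sa 1 0 2 6 4))
 (.split [] 213
 (.split [.cap 22 213, .cap 23 213, .cap 25 213, .cup 37 213, .cap 54 213, .cap 55 213,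
 .cap 57 213, .cap 86 213, .cap 87 213, .cup 101 213, .cap 118 213, .cap 119 213, .cap 150 213,
 .cap 153 213, .cup 165 213, .cup 176 213, .cap 185 213, .cap 213 214, .cup 213 229,
 .cup 213 240] 90
 (.leaf [.cup 7 90, .cap 15 90, .cup 41 90, .cap 47 90, .cup 65 90, .cap 71 90, .cap 79 90,
 .cap 90 103, .cap 90 111, .cup 90 193, .cap 105 213, .cap 213 233, .kd 2 4 0 5, .cap 39 169,
 .cap 169 213, .cup 129 144, .cup 129 208, .cap 152 213, .cap 184 213, .cap 213 216,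
 .cap 213 248] (.kd 0 1 4 7))
 (.split [] 169
 (.leaf [.cup 26 169, .cap 169 213, .cup 129 154, .cup 129 218, .kd 1 3 0 5, .kd 1 3 2 5,
 .sn 1 3 2 5 0] (.sa 0 1 2 5 3))
 (.split [] 218
 (.leaf [.cup 65 218, .cup 137 218, .cup 193 218, .cap 105 213, .cap 201 213, .cap 213 233,
 .kd 2 4 0 5, .cup 41 136, .cup 41 168, .cup 41 200, .cup 41 232, .kd 0 4 3 7, .kd 2 4 3 7,
 .sn 0 4 2 3 7] (.sa 0 4 3 7 2))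
 (.split [] 137
 (.leaf [.cup 26 137, .cap 137 213, .cup 129 154, .kd 1 3 0 5, .kd 1 3 2 5,
 .sn 1 3 2 5 0] (.sa 0 1 2 5 3))
 (.split [] 230
 (.leaf [.cap 105 230, .cap 230 233, .kd 2 4 0 5, .cup 41 136, .cup 41 168, .cup 41 200,
 .cup 41 232, .kd 0 4 3 7, .sn 0 4 2 3 7, .sa 0 4 3 7 2, .kd 2 4 3 7, .cup 26 201, .cap 201 213,
 .cup 154 193, .kd 1 3 0 5, .kd 1 3 2 5, .sn 1 3 2 5 0] (.sa 0 1 2 5 3))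
 (.split [] 201
 (.leaf [.cup 26 201, .cap 201 213, .cup 154 193, .kd 1 3 0 5, .kd 1 3 2 5,
 .sn 1 3 2 5 0] (.sa 0 1 2 5 3))
 (.split [] 193
 (.split [.cup 154 193] 26
 (.split [.cup 26 70, .cup 26 136, .cup 26 198, .cup 26 200] 102
 (.leaf [.cup 102 168, .cap 102 232, .cap 102 233, .kd 0 4 3 7, .kd 2 4 3 7,
 .sn 0 4 2 3 7] (.sa 0 4 3 7 2))
 (.leaf [.kd 0 4 1 6, .kd 0 4 2 6, .sn 0 4 2 6 1] (.sa 1 0 2 6 4)))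
 (.leaf [.kd 1 3 0 5, .kd 1 3 2 5, .sn 1 3 2 5 0] (.sa 0 1 2 5 3)))
 (.split [.cap 213 233] 105
 (.leaf [.cup 105 136, .cup 105 168, .cup 105 200, .cup 105 232, .kd 0 4 3 7, .kd 2 4 3 7,
 .sn 0 4 2 3 7] (.sa 0 4 3 7 2))
 (.leaf [.kd 2 4 0 5, .cup 41 136, .cup 41 168, .cup 41 200, .cup 41 232, .kd 0 4 3 7,
 .kd 2 4 3 7, .sn 0 4 2 3 7] (.sa 0 4 3 7 2))))))))))
 (.leaf [.kd 1 3 0 4, .kd 1 3 2 4, .sn 1 3 2 4 0] (.sa 0 1 2 4 3))))))))))))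

/-- hypotheses S2d -/
def hyS2d : List (List (ℕ × Bool)) :=
  [[(cn 0 1 2 3, true)], [(kn 0 4 2 3, true)], [(kn 4 1 2 3, false)],
    [(kn 0 1 2 4, true)], [(kn 0 1 4 3, false)], [(kn 0 5 2 3, true)],
    [(kn 5 1 2 3, false)], [(kn 0 1 2 5, true)], [(kn 0 1 5 3, false)],
    [(kn 6 1 2 4, true)], [(kn 0 6 2 4, false)],
    [(kn 0 1 6 4, true), (kn 0 1 2 6, true)], [(kn 7 1 2 4, true)],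
    [(kn 0 7 2 4, false)], [(kn 0 1 7 4, true), (kn 0 1 2 7, true)]]

lemma ckS2d : check 8 true hyS2d trS2d 0 0 = true := by decide +kernel

/-- certificate S3 -/
def trS3 : Tr :=
(.split [.hyp 0, .hyp 1, .hyp 3, .hyp 5, .hyp 7, .hyp 9, .hyp 10, .hyp 12, .hyp 13, .an 0 1 2 3,
 .ck 0 1 2 3, .sa 1 0 2 3 4, .kf 2 3 0 4 14, .kf 2 3 0 4 17, .kf 2 3 0 4 46, .kf 2 3 0 4 49,
 .kf 2 3 0 4 78, .kf 2 3 0 4 81, .kf 2 3 0 4 110, .kf 2 3 0 4 113, .kf 2 3 0 4 142,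
 .kf 2 3 0 4 145, .kf 2 3 0 4 174, .kf 2 3 0 4 177, .kf 2 3 0 4 206, .kf 2 3 0 4 209,
 .kf 2 3 0 4 238, .kf 2 3 0 4 241, .sn 0 1 3 2 4, .kf 0 1 2 4 11, .kf 0 1 2 4 20,
 .kf 0 1 2 4 43, .kf 0 1 2 4 52, .kf 0 1 2 4 75, .kf 0 1 2 4 84, .kf 0 1 2 4 107,
 .kf 0 1 2 4 116, .kf 0 1 2 4 139, .kf 0 1 2 4 148, .kf 0 1 2 4 171, .kf 0 1 2 4 180,
 .kf 0 1 2 4 203, .kf 0 1 2 4 212, .kf 0 1 2 4 235, .kf 0 1 2 4 244, .sa 1 0 2 3 5,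
 .sz 1 0 2 3 5 4, .kf 2 3 0 5 30, .kf 2 3 0 5 33, .kf 2 3 0 5 94, .kf 2 3 0 5 97,
 .kf 2 3 0 5 158, .kf 2 3 0 5 161, .kf 2 3 0 5 222, .kf 2 3 0 5 225, .sn 0 1 3 2 5,
 .kf 0 1 2 5 27, .kf 0 1 2 5 36, .kf 0 1 2 5 91, .kf 0 1 2 5 100, .kf 0 1 2 5 155,
 .kf 0 1 2 5 164, .kf 0 1 2 5 219, .kf 0 1 2 5 228, .kf 2 3 4 6 13, .kf 2 3 4 6 15,
 .kf 2 3 4 6 45, .kf 2 3 4 6 47, .kf 2 3 4 6 80, .kf 2 3 4 6 82, .kf 2 3 4 6 112,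
 .kf 2 3 4 6 114, .kf 2 3 4 6 141, .kf 2 3 4 6 143, .kf 2 3 4 6 173, .kf 2 3 4 6 175,
 .kf 2 3 4 6 208, .kf 2 3 4 6 210, .kf 2 3 4 6 240, .kf 2 3 4 6 242, .kf 2 3 4 7 77,
 .kf 2 3 4 7 79, .kf 2 3 4 7 109, .kf 2 3 4 7 111, .kf 2 3 4 7 144, .kf 2 3 4 7 146,
 .kf 2 3 4 7 176, .kf 2 3 4 7 178, .kf 0 1 2 3 3, .kf 0 1 2 3 12, .kf 0 1 2 3 19,
 .kf 0 1 2 3 28, .kf 0 1 2 3 35, .kf 0 1 2 3 44, .kf 0 1 2 3 51, .kf 0 1 2 3 60, .kf 0 1 2 3 67,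
 .kf 0 1 2 3 76, .kf 0 1 2 3 83, .kf 0 1 2 3 92, .kf 0 1 2 3 99, .kf 0 1 2 3 108,
 .kf 0 1 2 3 115, .kf 0 1 2 3 124, .kf 0 1 2 3 131, .kf 0 1 2 3 140, .kf 0 1 2 3 147,
 .kf 0 1 2 3 156, .kf 0 1 2 3 163, .kf 0 1 2 3 172, .kf 0 1 2 3 179, .kf 0 1 2 3 188,
 .kf 0 1 2 3 195, .kf 0 1 2 3 204, .kf 0 1 2 3 211, .kf 0 1 2 3 220, .kf 0 1 2 3 227,
 .kf 0 1 2 3 236, .kf 0 1 2 3 243, .kf 0 1 2 3 252, .sn 2 3 4 0 1, .sn 2 3 5 0 1, .sa 4 2 0 1 3,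
 .sa 0 4 2 3 7, .sn 2 3 6 4 0, .sn 2 3 7 4 0, .sa 1 3 0 5 2, .sa 7 3 0 5 2, .sn 2 4 6 1 0,
 .sa 0 3 4 6 2, .sa 1 3 4 6 2, .sa 5 2 4 6 3, .sa 6 3 4 7 2] 245
 (.leaf [.cap 25 245, .cap 38 245, .cap 89 245, .cap 102 245, .cap 153 245, .cap 166 245,
 .cap 217 245, .cap 230 245, .kd 0 4 2 5, .sx 4 0 3 2 5 6, .sy 4 0 3 2 5 6] (.hyp 11))
 (.split [] 202
 (.leaf [.cup 25 202, .cup 38 202, .cup 89 202, .cup 102 202, .cup 153 202, .cup 166 202,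
 .cup 202 217, .cup 202 230, .kd 0 4 2 5, .sx 4 0 3 2 5 6, .sy 4 0 3 2 5 6] (.hyp 11))
 (.split [] 53
 (.leaf [.cap 25 53, .cap 38 53, .cap 53 89, .cap 53 102, .cap 53 153, .cap 53 166, .cap 53 217,
 .cap 53 230, .kd 0 4 2 5, .sx 4 0 3 2 5 6, .sy 4 0 3 2 5 6] (.hyp 11))
 (.split [] 10
 (.leaf [.cup 10 25, .cup 10 38, .cup 10 89, .cup 10 102, .cup 10 153, .cup 10 166, .cup 10 217,
 .cup 10 230, .kd 0 4 2 5, .sx 4 0 3 2 5 6, .sy 4 0 3 2 5 6] (.hyp 11))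
 (.split [] 138
 (.leaf [.cup 25 138, .cup 38 138, .cup 89 138, .cup 102 138, .cup 138 153, .cup 138 166,
 .cup 138 217, .cup 138 230, .kd 0 4 2 5, .sx 4 0 3 2 5 6, .sy 4 0 3 2 5 6] (.hyp 11))
 (.split [] 117
 (.leaf [.cap 25 117, .cap 38 117, .cap 89 117, .cap 102 117, .cap 117 153, .cap 117 166,
 .cap 117 217, .cap 117 230, .kd 0 4 2 5, .sx 4 0 3 2 5 6, .sy 4 0 3 2 5 6] (.hyp 11))
 (.split [] 181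
 (.leaf [.cap 38 181, .cap 181 217, .cap 181 230, .kf 0 4 3 6 181, .hyp 11, .sx 4 0 3 2 5 6,
 .sz 0 4 3 2 6 7, .kf 0 4 2 6 25, .kf 0 4 2 6 102, .kf 0 4 2 6 153, .hyp 14, .kf 0 4 2 7 89,
 .kf 0 4 2 7 166] (.kd 0 4 2 5))
 (.split [] 74
 (.leaf [.cup 38 74, .cup 74 217, .cup 74 230, .kf 0 4 3 6 74, .hyp 11, .sx 4 0 3 2 5 6,
 .sz 0 4 3 2 6 7, .kf 0 4 2 6 25, .kf 0 4 2 6 102, .kf 0 4 2 6 153, .hyp 14, .kf 0 4 2 7 89,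
 .kf 0 4 2 7 166] (.kd 0 4 2 5))
 (.split [] 3552
 (.split [.sn 0 4 2 3 6, .sy 4 0 3 2 5 6, .sz 0 4 2 3 6 7, .kf 0 4 3 6 21, .kf 0 4 3 6 55,
 .kf 0 4 3 6 72, .kf 0 4 3 6 106, .kf 0 4 3 6 149, .kf 0 4 3 6 183, .kf 0 4 3 6 234, .hyp 14,
 .sn 0 4 2 3 7, .kf 0 4 3 7 85, .kf 0 4 3 7 87, .kf 0 4 3 7 168, .kf 0 4 3 7 170] 90
 (.leaf [.cap 42 90, .cap 90 213, .kd 1 3 2 4, .kd 1 3 4 6, .sa 0 1 2 4 3] (.sn 1 3 2 4 6))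
 (.split [] 165
 (.leaf [.cup 42 165, .cup 165 213, .kd 1 3 2 4, .kd 1 3 4 6, .sa 0 1 2 4 3] (.sn 1 3 2 4 6))
 (.split [] 213
 (.split [.cap 22 213, .cap 25 213, .cap 54 213, .cap 57 213, .cap 86 213, .cap 88 213,
 .cap 89 213, .cup 96 213, .cap 118 213, .cap 150 213, .cap 151 213, .cap 152 213, .cap 153 213,
 .cap 154 213, .cap 157 213, .cup 160 213, .cap 182 213, .cap 185 213, .cap 213 214,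
 .cap 213 216, .cap 213 217, .cap 213 218, .cup 213 229, .cap 213 246] 37
 (.leaf [.cap 37 38, .cap 37 102, .cap 37 166, .cap 37 230] (.kd 0 4 2 5))
 (.split [] 101
 (.leaf [.cap 38 101, .cap 101 102, .cap 101 166, .cap 101 230] (.kd 0 4 2 5))
 (.split [] 26
 (.split [.cup 9 26, .cup 26 66, .cup 26 70, .cup 26 73, .cup 26 136, .cup 26 137, .cup 26 194,
 .cup 26 198, .cup 26 201] 200
 (.leaf [.cup 102 200, .cup 166 200, .cup 200 230, .kd 0 4 2 5, .cup 26 38, .cup 38 98,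
 .cup 38 226, .cap 29 62, .cap 61 62, .cap 62 189, .kd 0 4 1 6, .kd 2 4 1 6,
 .sn 0 4 3 6 1] (.sa 0 4 1 6 2))
 (.split [] 38
 (.split [.cup 26 38, .cup 38 41, .cup 38 105, .cup 38 169, .cap 29 62, .cap 61 62, .cap 62 93,
 .cap 62 95, .cap 62 189, .kd 0 3 4 6, .sn 0 3 2 4 6, .sa 1 0 2 4 3, .kd 0 3 2 4, .cap 102 233,
 .cap 166 233, .cup 38 98, .cup 38 162] 230
 (.leaf [.cap 119 230, .cap 126 230, .cap 167 230, .kd 4 6 3 7, .cup 62 104, .kd 3 6 5 7,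
 .kd 4 6 5 7, .sa 0 4 3 7 6, .kd 3 6 4 7, .sn 4 6 3 7 5, .sn 3 6 5 7 4] (.sa 4 6 5 7 3))
 (.leaf [.cup 38 226, .kd 0 4 1 6, .kd 2 4 1 6, .sn 0 4 3 6 1] (.sa 0 4 1 6 2)))
 (.split [] 166
 (.leaf [.cap 39 166, .cap 103 166, .cap 119 166, .cap 126 166, .kd 0 5 3 7, .cup 26 102,
 .sn 3 7 2 5 0, .kd 2 5 3 7, .kd 2 5 4 7, .sa 4 7 2 5 3] (.sn 4 7 3 2 5))
 (.split [] 102
 (.leaf [.cup 26 102, .cap 102 167, .cap 39 126, .kd 0 5 3 6, .kd 2 5 3 6, .kd 2 5 4 6,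
 .sn 0 5 2 3 6, .sn 2 5 3 6 4] (.sa 0 5 3 6 2))
 (.leaf [.kd 0 4 2 5, .cap 39 230, .cap 167 230, .kd 0 5 3 6, .kd 2 5 3 6, .kd 2 5 4 6,
 .sn 0 5 2 3 6, .sn 2 5 3 6 4] (.sa 0 5 3 6 2))))))
 (.leaf [.kd 1 3 0 5, .kd 1 3 2 5, .sn 1 3 2 5 0] (.sa 0 1 2 5 3)))))
 (.split [] 42
 (.split [.cup 6 42, .cup 7 42, .cup 9 42, .cup 37 42, .cup 38 42, .cup 41 42, .cup 42 71,
 .cup 42 73, .cup 42 101, .cup 42 102, .cup 42 104, .cup 42 105, .cup 42 135, .cup 42 137,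
 .cup 42 166, .cup 42 167, .cup 42 169, .cup 42 201, .cup 42 230, .cup 42 232, .cup 42 233] 218
 (.leaf [.cup 25 218, .cup 89 218, .cup 153 218, .cup 217 218] (.kd 0 4 2 5))
 (.split [] 154
 (.leaf [.cup 25 154, .cup 89 154, .cup 153 154, .cup 154 217] (.kd 0 4 2 5))
 (.split [] 26
 (.leaf [.cup 25 26, .cup 26 89, .cup 26 153, .cup 26 217] (.kd 0 4 2 5))
 (.split [] 229
 (.split [.cap 54 229, .cap 118 229, .cap 182 229, .cap 229 246, .cap 229 249] 217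
 (.leaf [.cap 23 217, .cup 40 217, .cup 56 217, .cap 86 217, .cap 150 217, .cap 151 217,
 .cap 214 217, .cap 215 217, .cap 217 229, .kd 0 3 4 6, .cup 120 193, .cup 184 193,
 .cup 193 248, .sn 0 3 2 4 6, .kd 0 1 3 5, .sa 1 0 2 4 3, .cap 22 199] (.kd 0 3 2 4))
 (.split [] 193
 (.leaf [.cup 25 193, .cup 89 193, .cup 153 193] (.kd 0 4 2 5))
 (.split [] 62
 (.split [.cap 39 62, .cap 62 103, .cap 62 159] 22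
 (.split [.cup 22 153] 89
 (.leaf [.cap 89 119, .cup 89 136, .cup 89 152, .cup 89 200, .cup 89 216, .kd 0 5 3 7,
 .kd 2 5 3 7, .kd 2 5 4 7, .sn 3 7 2 5 0, .sn 4 7 3 2 5] (.sa 4 7 2 5 3))
 (.leaf [.kd 0 4 2 5, .cup 22 25, .cup 25 200, .cup 25 216, .cap 31 126, .cup 62 88,
 .kd 0 5 3 6, .kd 2 5 3 6, .kd 2 5 4 6, .sn 0 5 2 3 6, .sn 2 5 3 6 4] (.sa 0 5 3 6 2)))
 (.leaf [.cap 62 86, .cap 62 214, .kd 0 3 4 6, .sn 0 3 2 4 6, .sa 1 0 2 4 3, .kd 0 3 2 4,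
 .cup 25 150, .cap 150 153, .kd 0 4 2 5, .cap 89 119, .cup 89 136, .cup 89 152, .cup 89 200,
 .cup 89 216, .kd 0 5 3 7, .kd 2 5 3 7, .kd 2 5 4 7, .sn 3 7 2 5 0,
 .sn 4 7 3 2 5] (.sa 4 7 2 5 3)))
 (.split [.cup 22 42] 89
 (.leaf [.cap 89 119, .cup 89 129, .cup 89 136, .cup 89 152, .cup 89 200, .cup 89 216,
 .kd 2 3 0 7, .cap 39 126, .cap 103 126, .cap 126 190, .kd 0 5 3 7, .kd 2 3 0 6, .sn 3 7 2 5 0,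
 .cup 65 153, .kd 2 5 3 7, .kd 2 5 4 7, .sa 4 7 2 5 3] (.sn 4 7 3 2 5))
 (.split [] 153
 (.leaf [.cup 65 153, .cap 150 153, .cap 153 214, .kd 2 3 0 6, .cap 126 190, .cup 42 86,
 .kd 0 3 2 4, .kd 0 3 4 6, .sa 1 0 2 4 3] (.sn 0 3 2 4 6))
 (.leaf [.kd 0 4 2 5, .cup 25 65, .cup 25 129, .kd 2 3 0 6, .kd 2 3 0 7] (.cap 126 190)))))))
 (.leaf [.kd 1 3 0 5, .kd 1 3 2 5, .sn 1 3 2 5 0] (.sa 0 1 2 5 3))))))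
 (.leaf [.kd 1 3 2 4, .kd 1 3 4 6, .sa 0 1 2 4 3] (.sn 1 3 2 4 6))))))
 (.split [.hyp 11, .sx 4 0 3 2 5 6, .sz 0 4 3 2 6 7, .kf 0 4 2 6 25, .kf 0 4 2 6 59,
 .kf 0 4 2 6 102, .kf 0 4 2 6 153, .kf 0 4 2 6 196, .hyp 14, .kf 0 4 2 7 89, .kf 0 4 2 7 123,
 .kf 0 4 2 7 132, .kf 0 4 2 7 166, .kd 0 1 2 7, .sx 0 1 3 2 7 4] 42
 (.split [.cup 6 42, .cup 7 42, .cup 9 42, .cup 37 42, .cup 38 42, .cup 41 42, .cup 42 71,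
 .cup 42 73, .cap 42 90, .cup 42 101, .cup 42 105, .cup 42 135, .cup 42 137, .cup 42 165,
 .cup 42 169, .cup 42 201, .cup 42 230, .cup 42 233, .kd 0 4 2 5, .cap 23 217, .cup 26 217,
 .cap 86 217, .cap 87 217, .cap 150 217, .cap 151 217, .cup 154 217, .cap 214 217, .cap 215 217,
 .cup 217 218] 229
 (.leaf [.cap 54 229, .cap 118 229, .cap 182 229, .cap 217 229, .cap 229 246, .cap 229 249,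
 .cup 106 193, .cup 168 193, .cup 193 234, .kd 0 3 4 6, .cup 40 217, .cup 56 217, .cup 120 193,
 .cup 184 193, .cup 193 248, .cup 42 104, .cup 42 232, .sn 0 3 2 4 6, .kd 0 1 3 5,
 .sa 1 0 2 4 3, .cap 22 199] (.kd 0 3 2 4))
 (.leaf [.kd 1 3 0 5, .kd 1 3 2 5, .sn 1 3 2 5 0] (.sa 0 1 2 5 3)))
 (.split [] 106
 (.leaf [.cup 38 106, .cup 65 106, .cap 106 190, .cup 106 193, .cup 106 230, .kd 2 3 0 6,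
 .kd 0 4 2 5, .cap 37 62, .cap 62 101, .cap 62 165, .cup 26 217, .cup 90 217, .cup 154 217,
 .cup 217 218, .cap 217 229, .kd 1 3 0 5, .kd 1 3 2 5, .sn 1 3 2 5 0] (.sa 0 1 2 5 3))
 (.split [] 213
 (.split [.cap 54 213, .cap 88 213, .cap 90 213, .cap 154 213, .cup 165 213, .cap 182 213,
 .cap 213 216, .cap 213 217, .cap 213 218, .cup 213 229] 37
 (.leaf [.cap 37 38, .cap 37 230] (.kd 0 4 2 5))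
 (.split [] 101
 (.leaf [.cap 38 101, .cap 101 230] (.kd 0 4 2 5))
 (.split [] 26
 (.split [.cup 26 73, .cup 26 130, .cup 26 194, .cup 26 201] 38
 (.leaf [.cup 26 38, .cup 38 162, .cup 38 232, .cup 38 234, .cap 21 62, .cap 29 62, .cap 61 62,
 .cap 62 93, .cap 62 125, .cap 62 149, .cap 23 213, .cap 55 213, .kd 2 3 1 7, .cap 151 213,
 .cup 38 226, .cup 72 230, .cap 126 230, .cap 183 230, .cup 200 230,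
 .cup 62 104] (.kd 0 4 3 6))
 (.leaf [.kd 0 4 2 5, .cap 39 230, .cap 55 230, .cup 72 230, .cap 167 230, .cap 183 230,
 .cup 200 230, .kd 2 5 4 6, .kd 0 5 3 6, .kd 2 5 3 6, .sn 2 5 3 6 4,
 .sn 0 5 2 3 6] (.sa 0 5 3 6 2)))
 (.leaf [.kd 1 3 0 5, .kd 1 3 2 5, .sn 1 3 2 5 0] (.sa 0 1 2 5 3)))))
 (.split [] 193
 (.leaf [.cup 21 193, .cup 85 193, .cup 149 193, .cup 170 193, .cup 193 234, .kd 1 3 4 6,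
 .kd 1 3 2 4, .sn 1 3 2 4 6] (.sa 0 1 2 4 3))
 (.split [] 37
 (.leaf [.cap 37 38, .cap 37 62, .cap 37 126, .cap 37 230, .kd 2 3 0 7, .kd 0 4 2 5,
 .cup 65 129, .cup 85 129, .cup 129 170, .cap 149 217, .kd 2 3 0 6, .kd 1 3 4 6, .cap 21 190,
 .cap 190 234, .sn 1 3 2 4 6, .kd 1 3 2 4] (.sa 0 1 2 4 3))
 (.split [] 149
 (.leaf [.cap 62 149, .cup 149 165, .cap 149 190, .cap 149 217, .kd 2 3 0 6, .cup 65 90,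
 .cup 65 129, .cup 65 218, .kd 2 3 0 7, .cap 101 126, .cap 126 230, .kd 0 4 2 5, .cup 26 38,
 .cup 38 154, .cap 38 229, .kd 1 3 0 5, .kd 1 3 2 5, .sn 1 3 2 5 0] (.sa 0 1 2 5 3))
 (.split [] 101
 (.leaf [.cap 62 101, .cap 101 126, .kd 2 3 0 7, .cup 65 129, .cup 85 129, .cup 129 170,
 .kd 2 3 0 6, .kd 1 3 4 6, .cap 21 190, .cap 190 234, .sn 1 3 2 4 6,
 .kd 1 3 2 4] (.sa 0 1 2 4 3))
 (.split [] 229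
 (.leaf [.cap 38 229, .cap 217 229, .kd 0 4 2 5, .cap 62 230, .cap 126 230, .kd 2 3 0 7,
 .cup 65 129, .cup 85 129, .cup 129 170, .kd 2 3 0 6, .kd 1 3 4 6, .cap 21 190, .cap 190 234,
 .sn 1 3 2 4 6, .kd 1 3 2 4] (.sa 0 1 2 4 3))
 (.split [] 85
 (.leaf [.cap 62 85, .cap 85 126, .cup 85 129] (.kd 2 3 0 7))
 (.split [] 38
 (.leaf [.cup 38 170, .cup 38 234, .kd 1 3 4 6, .sn 1 3 2 4 6, .sa 0 1 2 4 3, .kd 1 3 2 4,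
 .cap 21 62, .cap 21 126, .cap 21 190, .kd 2 3 0 7, .kd 2 3 0 6] (.cup 65 129))
 (.split [] 230
 (.leaf [.cap 62 230, .cap 126 230, .kd 2 3 0 7, .cup 65 129, .cup 129 170, .kd 2 3 0 6,
 .kd 1 3 4 6, .cap 21 190, .cap 190 234, .sn 1 3 2 4 6, .kd 1 3 2 4] (.sa 0 1 2 4 3))
 (.split [.kd 0 4 2 5, .cup 26 217, .cup 90 217, .cup 154 217, .cup 217 218] 165
 (.split [.cap 62 165, .cup 165 170, .kd 1 3 4 6, .sn 1 3 2 4 6, .sa 0 1 2 4 3] 126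
 (.leaf [.cap 21 126, .cap 126 190, .kd 1 3 2 4, .kd 2 3 0 6] (.cup 65 234))
 (.leaf [.kd 2 3 0 7, .cup 65 129, .kd 2 3 0 6, .cap 21 190, .cap 190 234] (.kd 1 3 2 4)))
 (.leaf [.kd 1 3 0 5, .kd 1 3 2 5, .sn 1 3 2 5 0] (.sa 0 1 2 5 3)))))))))))))))))))))))

/-- hypotheses S3 -/
def hyS3 : List (List (ℕ × Bool)) :=
  [[(cn 0 1 2 3, true)], [(kn 0 4 2 3, true)], [(kn 4 1 2 3, false)],
    [(kn 0 1 2 4, true)], [(kn 0 1 4 3, false)], [(kn 0 5 2 3, true)],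
    [(kn 5 1 2 3, false)], [(kn 0 1 2 5, true)], [(kn 0 1 5 3, false)],
    [(kn 6 4 2 3, true)], [(kn 0 6 2 3, false)],
    [(kn 0 4 6 3, true), (kn 0 4 2 6, true)], [(kn 7 4 2 3, true)],
    [(kn 0 7 2 3, false)], [(kn 0 4 7 3, true), (kn 0 4 2 7, true)]]

lemma ckS3 : check 8 true hyS3 trS3 0 0 = true := by decide +kernel

end Pool.Agent.H12.Fr
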