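import Mathlib

/-!
# Crossing families, separation of pairs, and a checker for finite refutations

`K4 F a b c d`: no member of `F` separates the pair `a, b` from the pair `c, d`.
`Sys F C U`: `F` is a crossing family on `U` with all singletons and their complements, `C` is a
family of unseparated pairs of pairs, without opposite members, closed under slides.

The second half is a checker for refutations by splitting and unit propagation of statements about
such systems which involve at most eight elements.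
-/

set_option autoImplicit false
set_option maxHeartbeats 4000000

open Finset

namespace Pool.Agent.H12.Fr

variable {V : Type*} [DecidableEq V]

/-- no member of `F` separates `a, b` from `c, d` -/
def K4 (F : Finset V → Prop) (a b c d : V) : Prop :=
  ∀ X, F X → ¬ (a ∈ X ∧ b ∈ X ∧ c ∉ X ∧ d ∉ X) ∧ ¬ (a ∉ X ∧ b ∉ X ∧ c ∈ X ∧ d ∈ X)

omit [DecidableEq V] in
lemma K4.a {F : Finset V → Prop} {a b c d : V} (h : K4 F a b c d) : K4 F b a c d := by
  intro X hX
  have := h X hX
  tauto

omit [DecidableEq V] in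
lemma K4.n {F : Finset V → Prop} {a b c d : V} (h : K4 F a b c d) : K4 F a b d c := by
  intro X hX
  have := h X hX
  tauto

omit [DecidableEq V] in
lemma K4.s {F : Finset V → Prop} {a b c d : V} (h : K4 F a b c d) : K4 F c d a b := by
  intro X hX
  have := h X hX
  tauto

/-- a crossing family with a family of unseparated points -/
structure Sys (F : Finset V → Prop) (C : V → V → V → V → Prop) (U : Finset V) : Prop where
  cap : ∀ X Y, F X → F Y → (∃ i ∈ U, i ∈ X ∧ i ∈ Y) → (∃ i ∈ U, i ∉ X ∧ i ∉ Y) → F (X ∩ Y)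
  cup : ∀ X Y, F X → F Y → (∃ i ∈ U, i ∈ X ∧ i ∈ Y) → (∃ i ∈ U, i ∉ X ∧ i ∉ Y) → F (X ∪ Y)
  one : ∀ i ∈ U, F {i}
  con : ∀ i ∈ U, F (U.erase i)
  symA : ∀ a b c d, C a b c d → C b a c d
  symN : ∀ a b c d, C a b c d → C a b d c
  mem : ∀ a b c d, C a b c d → a ∈ U ∧ b ∈ U ∧ c ∈ U ∧ d ∈ U
  ne : ∀ a b c d, C a b c d → a ≠ b ∧ a ≠ c ∧ a ≠ d ∧ b ≠ c ∧ b ≠ d ∧ c ≠ d
  ck : ∀ a b c d, C a b c d → K4 F a b c d
  anti : ∀ a b c d, C a b c d → ¬ C c d a b
  slA : ∀ a b c d z, C a b c d → z ∈ U → z ≠ a → z ≠ b → z ≠ c → z ≠ d → K4 F z b c d →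
    C z b c d
  slN : ∀ a b c d z, C a b c d → z ∈ U → z ≠ a → z ≠ b → z ≠ c → z ≠ d → K4 F a b z d →
    C a b z d

/-- the first finite fact: movers into two common targets are unique -/
def S1 (F : Finset V → Prop) (C : V → V → V → V → Prop) (U : Finset V) : Prop :=
  ∀ a b c d z w, C a b c d → z ∈ U → w ∈ U → z ≠ a → z ≠ b → z ≠ c → z ≠ d → w ≠ a → w ≠ b →
    w ≠ c → w ≠ d → z ≠ w → (K4 F a b z d ∨ K4 F a b c z) → (K4 F a b w d ∨ K4 F a b c w) →
    K4 F z b c d → K4 F a w c d → False

/-- and the same with the two pairs exchanged -/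
def S1' (F : Finset V → Prop) (C : V → V → V → V → Prop) (U : Finset V) : Prop :=
  S1 F (fun a b c d => C c d a b) U

/-! ## The checker -/

/-- the code of `K4` -/
def kn (i j k l : ℕ) : ℕ :=
  let p := if i < j then i + 8 * j else j + 8 * i
  let q := if k < l then k + 8 * l else l + 8 * k
  if p < q then 256 + (p + 64 * q) else 256 + (q + 64 * p)

/-- the code of `C` -/
def cn (i j k l : ℕ) : ℕ :=
  let p := if i < j then i + 8 * j else j + 8 * i
  let q := if k < l then k + 8 * l else l + 8 * k
  4352 + (p + 64 * q)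

/-- the meaning of the codes -/
def val (F : Finset V → Prop) (C : V → V → V → V → Prop) (e : ℕ → V) (m v : ℕ) : Prop :=
  if v < 256 then ∃ Y, F Y ∧ ∀ i < m, (e i ∈ Y ↔ v.testBit i = true)
  else if v < 4352 then
    K4 F (e ((v - 256) % 8)) (e ((v - 256) / 8 % 8)) (e ((v - 256) / 64 % 8))
      (e ((v - 256) / 512 % 8))
  else C (e ((v - 4352) % 8)) (e ((v - 4352) / 8 % 8)) (e ((v - 4352) / 64 % 8))
    (e ((v - 4352) / 512 % 8))

/-- clauses -/
inductive Cl where
  | cap (X Y : ℕ)
  | cup (X Y : ℕ)
  | one (i : ℕ)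
  | con (i : ℕ)
  | kf (i j k l X : ℕ)
  | kd (i j k l : ℕ)
  | ck (i j k l : ℕ)
  | an (i j k l : ℕ)
  | sa (i j k l z : ℕ)
  | sn (i j k l z : ℕ)
  | sx (i j k l z w : ℕ)
  | sy (i j k l z w : ℕ)
  | sz (i j k l z w : ℕ)
  | hyp (n : ℕ)

/-- the set with mask `X` separates -/
def sep (i j k l X : ℕ) : Bool :=
  (X.testBit i && (X.testBit j && (!X.testBit k && !X.testBit l))) ||
    (!X.testBit i && (!X.testBit j && (X.testBit k && X.testBit l)))

/-- the literals of a clause -/
def lits (m : ℕ) (H : List (List (ℕ × Bool))) : Cl → List (ℕ × Bool)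
  | .cap X Y => [(X, false), (Y, false), (X &&& Y, true)]
  | .cup X Y => [(X, false), (Y, false), (X ||| Y, true)]
  | .one i => [(2 ^ i, true)]
  | .con i => [((2 ^ m - 1) ^^^ (2 ^ i), true)]
  | .kf i j k l X => [(kn i j k l, false), (X, false)]
  | .kd i j k l => (kn i j k l, true) :: ((List.range (2 ^ m)).filter (sep i j k l)).map
      (fun X => (X, true))
  | .ck i j k l => [(cn i j k l, false), (kn i j k l, true)]
  | .an i j k l => [(cn i j k l, false), (cn k l i j, false)]
  | .sa i j k l z => [(cn i j k l, false), (kn z j k l, false), (cn z j k l, true)]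
  | .sn i j k l z => [(cn i j k l, false), (kn i j z l, false), (cn i j z l, true)]
  | .sx i j k l z w => [(cn i j k l, false), (kn z j k l, false), (kn i w k l, false),
      (kn i j z l, false), (kn i j w l, false)]
  | .sy i j k l z w => [(cn i j k l, false), (kn z j k l, false), (kn i w k l, false),
      (kn i j z l, false), (kn i j k w, false)]
  | .sz i j k l z w => [(cn i j k l, false), (kn z j k l, false), (kn w j k l, false),
      (kn i j z l, false), (kn i j k w, false)]
  | .hyp n => H.getD n []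

/-- all indices are below `m` -/
def lt (m : ℕ) : List ℕ → Bool
  | [] => true
  | i :: l => Nat.blt i m && lt m l

/-- `i` does not occur -/
def nin (i : ℕ) : List ℕ → Bool
  | [] => true
  | j :: l => !(Nat.beq i j) && nin i l

/-- side conditions of a clause -/
def ok (m : ℕ) (s : Bool) (h : ℕ) : Cl → Bool
  | .cap X Y => lt (2 ^ m) [X, Y] && (!(Nat.beq (X &&& Y) 0) && !(Nat.beq (X ||| Y) (2 ^ m - 1)))
  | .cup X Y => lt (2 ^ m) [X, Y] && (!(Nat.beq (X &&& Y) 0) && !(Nat.beq (X ||| Y) (2 ^ m - 1)))
  | .one i => lt m [i]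
  | .con i => lt m [i]
  | .kf i j k l X => lt m [i, j, k, l] && (lt (2 ^ m) [X] && sep i j k l X)
  | .kd i j k l => lt m [i, j, k, l]
  | .ck i j k l => lt m [i, j, k, l]
  | .an i j k l => lt m [i, j, k, l]
  | .sa i j k l z => lt m [i, j, k, l, z] && nin z [i, j, k, l]
  | .sn i j k l z => lt m [i, j, k, l, z] && nin z [i, j, k, l]
  | .sx i j k l z w => s && (lt m [i, j, k, l, z, w] && (nin z [i, j, k, l] &&
      nin w [i, j, k, l, z]))
  | .sy i j k l z w => s && (lt m [i, j, k, l, z, w] && (nin z [i, j, k, l] &&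
      nin w [i, j, k, l, z]))
  | .sz i j k l z w => s && (lt m [i, j, k, l, z, w] && (nin z [i, j, k, l] &&
      nin w [i, j, k, l, z]))
  | .hyp n => Nat.blt n h

/-- a literal is false -/
def isF (T N : ℕ) (l : ℕ × Bool) : Bool := bif l.2 then N.testBit l.1 else T.testBit l.1

/-- refutations: unit propagation and splitting -/
inductive Tr where
  | leaf (us : List Cl) (c : Cl)
  | split (us : List Cl) (v : ℕ) (a b : Tr)

/-- unit propagation -/
def prop (m : ℕ) (s : Bool) (H : List (List (ℕ × Bool))) : List Cl → ℕ → ℕ → Option (ℕ × ℕ)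
  | [], T, N => some (T, N)
  | c :: us, T, N =>
    bif ok m s H.length c then
      match (lits m H c).filter (fun l => !isF T N l) with
      | [l] => bif l.2 then prop m s H us (T ||| 2 ^ l.1) N else prop m s H us T (N ||| 2 ^ l.1)
      | _ => none
    else none

/-- check a refutation -/
def check (m : ℕ) (s : Bool) (H : List (List (ℕ × Bool))) : Tr → ℕ → ℕ → Bool
  | .leaf us c, T, N =>
    match prop m s H us T N with
    | some (T', N') => ok m s H.length c && (lits m H c).all (isF T' N')
    | none => false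
  | .split us v a b, T, N =>
    match prop m s H us T N with
    | some (T', N') => check m s H a (T' ||| 2 ^ v) N' && check m s H b T' (N' ||| 2 ^ v)
    | none => false

end Pool.Agent.H12.Fr
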