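import Pool.Agent.H12.Fr.Role

/-!
# There is no system with the block property
-/

set_option autoImplicit false
set_option maxHeartbeats 4000000

open Finset

namespace Pool.Agent.H12.Fr

variable {V : Type*} [DecidableEq V]

/-- no member of `F` which yields a tight set between `a, b` and `c, d` separates `z` from `w` -/
def NoSep (F : Finset V → Prop) (a b c d z w : V) : Prop :=
  ∀ X, F X → ((a ∈ X ∧ b ∈ X ∧ (c ∉ X ∨ d ∉ X)) ∨ ((a ∈ X ∨ b ∈ X) ∧ c ∉ X ∧ d ∉ X)) →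
    (z ∈ X ↔ w ∈ X)

/-- the block property -/
def Blk (F : Finset V → Prop) (C : V → V → V → V → Prop) (U : Finset V) : Prop :=
  ∀ a b c d, C a b c d → ∃ z w, z ≠ w ∧ InZ F U a b c d z ∧ InZ F U a b c d w ∧
    NoSep F a b c d z w

omit [DecidableEq V] in
lemma Blk.two {F : Finset V → Prop} {C : V → V → V → V → Prop} {U : Finset V}
    (h : Blk F C U) : Two F C U := by
  intro a b c d hC
  obtain ⟨z, w, h1, h2, h3, -⟩ := h _ _ _ _ hC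
  exact ⟨z, w, h1, h2, h3⟩

omit [DecidableEq V] in
lemma K4.tr {F : Finset V → Prop} {a n x y z : V} (h1 : K4 F a x n y) (h2 : K4 F a y n z) :
    K4 F a x n z := by
  intro X hX
  have k1 := h1 X hX
  have k2 := h2 X hX
  tauto

omit [DecidableEq V] in
lemma K4.rf {F : Finset V → Prop} {a n x : V} : K4 F a x n x := by
  intro X hX
  tauto

/-- states with the roles `a`, `n` fixed -/
def St (F : Finset V → Prop) (C : V → V → V → V → Prop) (U : Finset V) (a n x y : V) : Prop :=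
  C a x n y ∧ RA F U a x n y ∧ RN F U a x n y

lemma St.step {F : Finset V → Prop} {C : V → V → V → V → Prop} {U : Finset V}
    (h : Sys F C U) (two : Two F C U) {a n x y z : V} (hs : St F C U a n x y) (hz : z ∈ U)
    (za : z ≠ a) (zx : z ≠ x) (zn : z ≠ n) (zy : z ≠ y) (k1 : K4 F a x n z)
    (k2 : K4 F a z n y) : St F C U a n z y ∧ St F C U a n x z := by
  obtain ⟨hC, rA, rN⟩ := hs
  have hi : InZ F U a x n y z := ⟨hz, ⟨za, zx, zn, zy⟩, Or.inr k2, Or.inr k1⟩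
  exact ⟨⟨slideA h hC hi k2, pers_aA h two hC rA rN hi, pers_aN h two hC rA rN hi⟩,
    ⟨slideN h hC hi k1, pers_nA h two hC rA rN hi, pers_nN h two hC rA rN hi⟩⟩

lemma exists_St {F : Finset V → Prop} {C : V → V → V → V → Prop} {U : Finset V}
    (h : Sys F C U) (two : Two F C U) {a b c d : V} (hC : C a b c d) :
    ∃ a n x y, St F C U a n x y := by
  have hN : RN F U a b c d ∨ RN F U a b d c := by
    rcases role_A h.swap two.swap hC with h1 | h1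
    · exact Or.inl (RN_iff.2 h1)
    · exact Or.inr (RN_iff.2 h1)
  have sN : ∀ {a b c d : V}, RA F U a b c d → RA F U a b d c := by
    intro a b c d h1 z hz
    have h2 := h1 z hz.s.a.s
    exact ⟨fun h3 => h2.1 h3.n, h2.2.n⟩
  have sA : ∀ {a b c d : V}, RN F U a b c d → RN F U b a c d := by
    intro a b c d h1 z hz
    have h2 := h1 z hz.a
    exact ⟨fun h3 => h2.1 h3.a, h2.2.a⟩
  rcases role_A h two hC with h1 | h1 <;> rcases hN with h2 | h2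
  · exact ⟨a, c, b, d, hC, h1, h2⟩
  · exact ⟨a, d, b, c, h.symN _ _ _ _ hC, sN h1, h2⟩
  · exact ⟨b, c, a, d, h.symA _ _ _ _ hC, h1, sA h2⟩
  · exact ⟨b, d, a, c, h.symA _ _ _ _ (h.symN _ _ _ _ hC), sN h1, sA h2⟩

/-- the clique -/
lemma exists_clique {F : Finset V → Prop} {C : V → V → V → V → Prop} {U : Finset V}
    (h : Sys F C U) (two : Two F C U) {a n x₀ y₀ : V} (hs₀ : St F C U a n x₀ y₀) :
    ∃ W : Finset V, W ⊆ U ∧ a ∉ W ∧ n ∉ W ∧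
      (∃ x ∈ W, ∃ y ∈ W, ∃ z ∈ W, x ≠ y ∧ z ≠ x ∧ z ≠ y) ∧
      (∀ u ∈ W, ∀ v ∈ W, K4 F a u n v) ∧
      (∀ u ∈ W, ∀ v ∈ W, u ≠ v → St F C U a n u v) ∧
      (∀ z ∈ U, z ≠ a → z ≠ n → (∃ u ∈ W, K4 F a u n z) → (∃ v ∈ W, K4 F a z n v) → z ∈ W) := by
  classical
  set Z : V → V → Finset V := fun x y => U.filter fun z =>
    (z ≠ a ∧ z ≠ x ∧ z ≠ n ∧ z ≠ y) ∧ K4 F a x n z ∧ K4 F a z n y with hZ
  have memZ : ∀ x y z, z ∈ Z x y ↔ z ∈ U ∧ (z ≠ a ∧ z ≠ x ∧ z ≠ n ∧ z ≠ y) ∧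
      K4 F a x n z ∧ K4 F a z n y := fun x y z => by rw [hZ, Finset.mem_filter]
  obtain ⟨x, y, hs, hmin⟩ : ∃ x y, St F C U a n x y ∧
      ∀ x' y', St F C U a n x' y' → #(Z x y) ≤ #(Z x' y') := by
    have hex : ∃ k, ∃ x y, St F C U a n x y ∧ #(Z x y) = k := ⟨_, x₀, y₀, hs₀, rfl⟩
    obtain ⟨x, y, h1, h2⟩ := Nat.find_spec hex
    exact ⟨x, y, h1, fun x' y' h' => by rw [h2]; exact Nat.find_min' hex ⟨x', y', h', rfl⟩⟩
  have hmem := h.mem _ _ _ _ hs.1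
  have hne := h.ne _ _ _ _ hs.1
  obtain ⟨mA, mX, mN, mY⟩ := hmem
  obtain ⟨n1, n2, n3, n4, n5, n6⟩ := hne
  have kxy := h.ck _ _ _ _ hs.1
  have hstep : ∀ z ∈ Z x y, St F C U a n z y ∧ St F C U a n x z := by
    intro z hz
    obtain ⟨h1, ⟨h2, h3, h4, h5⟩, h6, h7⟩ := (memZ _ _ _).1 hz
    exact hs.step h two h1 h2 h3 h4 h5 h6 h7
  -- equality
  have eq1 : ∀ z ∈ Z x y, Z x z = insert y ((Z x y).erase z) := by
    intro z hz
    obtain ⟨h1, ⟨h2, h3, h4, h5⟩, h6, h7⟩ := (memZ _ _ _).1 hz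
    refine Finset.eq_of_subset_of_card_le ?_ ?_
    · intro u hu
      obtain ⟨g1, ⟨g2, g3, g4, g5⟩, g6, g7⟩ := (memZ _ _ _).1 hu
      rw [Finset.mem_insert, Finset.mem_erase, memZ]
      by_cases huy : u = y
      · exact Or.inl huy
      · exact Or.inr ⟨g5, g1, ⟨g2, g3, g4, huy⟩, g6, g7.tr h7⟩
    · have h8 := hmin x z (hstep z hz).2
      have h9 : y ∉ (Z x y).erase z := fun h0 =>
        ((memZ _ _ _).1 (Finset.mem_of_mem_erase h0)).2.1.2.2.2 rfl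
      rw [Finset.card_insert_of_notMem h9, Finset.card_erase_of_mem hz]
      have : 0 < #(Z x y) := Finset.card_pos.2 ⟨z, hz⟩
      omega
  have eq2 : ∀ z ∈ Z x y, Z z y = insert x ((Z x y).erase z) := by
    intro z hz
    obtain ⟨h1, ⟨h2, h3, h4, h5⟩, h6, h7⟩ := (memZ _ _ _).1 hz
    refine Finset.eq_of_subset_of_card_le ?_ ?_
    · intro u hu
      obtain ⟨g1, ⟨g2, g3, g4, g5⟩, g6, g7⟩ := (memZ _ _ _).1 hu
      rw [Finset.mem_insert, Finset.mem_erase, memZ]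
      by_cases hux : u = x
      · exact Or.inl hux
      · exact Or.inr ⟨g3, g1, ⟨g2, hux, g4, g5⟩, h6.tr g6, g7⟩
    · have h8 := hmin z y (hstep z hz).1
      have h9 : x ∉ (Z x y).erase z := fun h0 =>
        ((memZ _ _ _).1 (Finset.mem_of_mem_erase h0)).2.1.2.1 rfl
      rw [Finset.card_insert_of_notMem h9, Finset.card_erase_of_mem hz]
      have : 0 < #(Z x y) := Finset.card_pos.2 ⟨z, hz⟩
      omega
  have yz : ∀ z ∈ Z x y, K4 F a y n z := fun z hz =>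
    ((memZ x z y).1 (by rw [eq1 z hz]; exact Finset.mem_insert_self _ _)).2.2.2
  have zx : ∀ z ∈ Z x y, K4 F a z n x := fun z hz =>
    ((memZ z y x).1 (by rw [eq2 z hz]; exact Finset.mem_insert_self _ _)).2.2.1
  have zz : ∀ z ∈ Z x y, ∀ u ∈ Z x y, K4 F a u n z := by
    intro z hz u hu
    by_cases huz : u = z
    · rw [huz]; exact K4.rf
    · exact ((memZ x z u).1 (by
        rw [eq1 z hz]; exact Finset.mem_insert_of_mem (Finset.mem_erase.2 ⟨huz, hu⟩))).2.2.2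
  obtain ⟨z₁, z₂, hz12, hz1, hz2⟩ := two _ _ _ _ hs.1
  have toZ : ∀ z, InZ F U a x n y z → z ∈ Z x y := by
    intro z hz
    rw [memZ]
    exact ⟨hz.1, hz.2.1, (hs.2.2 z hz).2, (hs.2.1 z hz).2⟩
  have hz1 := toZ _ hz1
  have hz2 := toZ _ hz2
  set W := insert x (insert y (Z x y)) with hW
  have memW : ∀ z, z ∈ W ↔ z = x ∨ z = y ∨ z ∈ Z x y := fun z => by
    rw [hW, Finset.mem_insert, Finset.mem_insert]
  have hWU : W ⊆ U := by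
    intro z hz
    rcases (memW z).1 hz with rfl | rfl | h1
    · exact mX
    · exact mY
    · exact ((memZ _ _ _).1 h1).1
  have haW : a ∉ W := by
    intro h0
    rcases (memW a).1 h0 with h1 | h1 | h1
    · exact n1 h1
    · exact n3 h1
    · exact ((memZ _ _ _).1 h1).2.1.1 rfl
  have hnW : n ∉ W := by
    intro h0
    rcases (memW n).1 h0 with h1 | h1 | h1
    · exact n4 h1.symm
    · exact n6 h1
    · exact ((memZ _ _ _).1 h1).2.1.2.2.1 rfl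
  have yx : K4 F a y n x := (yz _ hz1).tr (zx _ hz1)
  have cl : ∀ u ∈ W, ∀ v ∈ W, K4 F a u n v := by
    intro u hu v hv
    rcases (memW u).1 hu with rfl | rfl | h1 <;> rcases (memW v).1 hv with rfl | rfl | h2
    · exact K4.rf
    · exact kxy
    · exact ((memZ _ _ _).1 h2).2.2.1
    · exact yx
    · exact K4.rf
    · exact yz _ h2
    · exact zx _ h1
    · exact ((memZ _ _ _).1 h1).2.2.2
    · exact zz _ h2 _ h1
  have hxW : x ∈ W := (memW _).2 (Or.inl rfl)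
  have hyW : y ∈ W := (memW _).2 (Or.inr (Or.inl rfl))
  have hzW : z₁ ∈ W := (memW _).2 (Or.inr (Or.inr hz1))
  have hz1' := ((memZ _ _ _).1 hz1).2.1
  have stepW : ∀ u ∈ W, ∀ v ∈ W, ∀ z ∈ W, z ≠ u → z ≠ v → St F C U a n u v →
      St F C U a n z v ∧ St F C U a n u z := by
    intro u hu v hv z hz zu zv hst
    exact hst.step h two (hWU hz) (fun h0 => haW (h0 ▸ hz)) zu (fun h0 => hnW (h0 ▸ hz)) zv
      (cl u hu z hz) (cl z hz v hv)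
  have st1 : ∀ v ∈ W, v ≠ x → St F C U a n x v := by
    intro v hv hvx
    by_cases hvy : v = y
    · rw [hvy]; exact hs
    · exact (stepW x hxW y hyW v hv hvx hvy hs).2
  have st2 : ∀ u ∈ W, ∀ v ∈ W, u ≠ v → v ≠ x → St F C U a n u v := by
    intro u hu v hv huv hvx
    by_cases hux : u = x
    · rw [hux]; exact st1 v hv hvx
    · exact (stepW x hxW v hv u hu hux huv (st1 v hv hvx)).1
  refine ⟨W, hWU, haW, hnW, ⟨x, hxW, y, hyW, z₁, hzW, n5, hz1'.2.1, hz1'.2.2.2⟩, cl, ?_, ?_⟩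
  · intro u hu v hv huv
    by_cases hvx : v = x
    · rw [hvx] at huv ⊢
      obtain ⟨t, ht, htx, htu⟩ : ∃ t ∈ W, t ≠ x ∧ t ≠ u := by
        by_cases h1 : u = y
        · exact ⟨z₁, hzW, hz1'.2.1, by rw [h1]; exact hz1'.2.2.2⟩
        · exact ⟨y, hyW, n5.symm, Ne.symm h1⟩
      exact (stepW u hu t ht x hxW huv.symm htx.symm (st2 u hu t ht htu.symm htx)).2
    · exact st2 u hu v hv huv hvx
  · rintro z hz za zn ⟨u, hu, ku⟩ ⟨v, hv, kv⟩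
    rw [memW]
    by_cases h1 : z = x
    · exact Or.inl h1
    by_cases h2 : z = y
    · exact Or.inr (Or.inl h2)
    refine Or.inr (Or.inr ((memZ _ _ _).2 ⟨hz, ⟨za, h1, zn, h2⟩, (cl x hxW u hu).tr ku,
      kv.tr (cl v hv y hyW)⟩))

/-- two equivalence relations -/
lemma dichot {F : Finset V → Prop} {C : V → V → V → V → Prop} {U : Finset V}
    (h : Sys F C U) {a n : V} {W : Finset V} (_aU : a ∈ U) (hWU : W ⊆ U)
    (cl : ∀ u ∈ W, ∀ v ∈ W, K4 F a u n v)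
    (st : ∀ u ∈ W, ∀ v ∈ W, u ≠ v → St F C U a n u v) (haW : a ∉ W) (hnW : n ∉ W)
    {v : V} (hv : v ∈ W) {u₀ : V} (hu₀ : u₀ ∈ W) (hne : u₀ ≠ v) :
    (∃ X, F X ∧ (∀ u ∈ W, u ≠ v → u ∈ X) ∧ a ∉ X ∧ n ∉ X ∧ v ∉ X) ∨
      ∃ X, F X ∧ (∀ u ∈ W, u ≠ v → u ∉ X) ∧ a ∈ X ∧ n ∈ X ∧ v ∈ X := by
  classical
  set α : V → V → Prop := fun u z => ∃ X, F X ∧ u ∈ X ∧ z ∈ X ∧ a ∉ X ∧ n ∉ X ∧ v ∉ X with hα
  set β : V → V → Prop := fun u z => ∃ X, F X ∧ u ∉ X ∧ z ∉ X ∧ a ∈ X ∧ n ∈ X ∧ v ∈ X with hβ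
  have key : ∀ u ∈ W, ∀ z ∈ W, u ≠ v → z ≠ v → u ≠ z → α u z ∨ β u z := by
    intro u hu z hz huv hzv huz
    obtain ⟨hC, rA, -⟩ := st u hu v hv huv
    have h1 := (rA z ⟨hWU hz, ⟨fun h0 => haW (h0 ▸ hz), huz.symm, fun h0 => hnW (h0 ▸ hz), hzv⟩,
      Or.inr (cl z hz v hv), Or.inr (cl u hu z hz)⟩).1
    have h2 := cl u hu v hv
    unfold K4 at h1
    push Not at h1
    obtain ⟨X, hX, h3⟩ := h1
    have h4 := h2 X hX
    by_cases h5 : z ∈ X ∧ u ∈ X ∧ n ∉ X ∧ v ∉ X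
    · left
      refine ⟨X, hX, h5.2.1, h5.1, fun h6 => h4.1 ⟨h6, h5.2.1, h5.2.2.1, h5.2.2.2⟩, h5.2.2.1,
        h5.2.2.2⟩
    · right
      have h6 := h3 fun p q r => by_contra fun s => h5 ⟨p, q, r, s⟩
      exact ⟨X, hX, h6.2.1, h6.1, by_contra fun h7 => h4.2 ⟨h7, h6.2.1, h6.2.2.1, h6.2.2.2⟩,
        h6.2.2.1, h6.2.2.2⟩
  have αt : ∀ p q r, q ∈ U → α p q → α q r → α p r := by
    rintro p q r hq ⟨X, hX, x1, x2, x3, x4, x5⟩ ⟨Y, hY, y1, y2, y3, y4, y5⟩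
    refine ⟨X ∪ Y, h.cup X Y hX hY ⟨q, hq, x2, y1⟩ ⟨v, hWU hv, x5, y5⟩, ?_, ?_, ?_, ?_, ?_⟩ <;>
      simp [*]
  have βt : ∀ p q r, q ∈ U → β p q → β q r → β p r := by
    rintro p q r hq ⟨X, hX, x1, x2, x3, x4, x5⟩ ⟨Y, hY, y1, y2, y3, y4, y5⟩
    refine ⟨X ∩ Y, h.cap X Y hX hY ⟨v, hWU hv, x5, y5⟩ ⟨q, hq, x2, y1⟩, ?_, ?_, ?_, ?_, ?_⟩ <;>
      simp [*]
  have αs : ∀ p q, α p q → α q p := by
    rintro p q ⟨X, hX, x1, x2, x3⟩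
    exact ⟨X, hX, x2, x1, x3⟩
  have βs : ∀ p q, β p q → β q p := by
    rintro p q ⟨X, hX, x1, x2, x3⟩
    exact ⟨X, hX, x2, x1, x3⟩
  -- a total relation
  have tot : (∀ z ∈ W, z ≠ v → z ≠ u₀ → α u₀ z) ∨ ∀ z ∈ W, z ≠ v → z ≠ u₀ → β u₀ z := by
    by_contra hcon
    push Not at hcon
    obtain ⟨⟨z₁, a1, a2, a3, a4⟩, z₂, b1, b2, b3, b4⟩ := hcon
    have c1 := (key u₀ hu₀ z₁ a1 hne a2 a3.symm).resolve_left a4
    have c2 := (key u₀ hu₀ z₂ b1 hne b2 b3.symm).resolve_right b4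
    have hz : z₁ ≠ z₂ := fun h0 => b4 (h0 ▸ c1)
    rcases key z₁ a1 z₂ b1 a2 b2 hz with h1 | h1
    · exact a4 (αt _ _ _ (hWU b1) c2 (αs _ _ h1))
    · exact b4 (βt _ _ _ (hWU a1) c1 h1)
  have i1 : ∀ W' : Finset V, W' ⊆ W → (∀ z ∈ W', z ≠ v ∧ z ≠ u₀) →
      (∀ z ∈ W, z ≠ v → z ≠ u₀ → α u₀ z) →
      ∃ X, F X ∧ u₀ ∈ X ∧ (∀ z ∈ W', z ∈ X) ∧ a ∉ X ∧ n ∉ X ∧ v ∉ X := by
    intro W' h1 h2 h3
    induction W' using Finset.induction_on with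
    | empty =>
      refine ⟨{u₀}, h.one _ (hWU hu₀), Finset.mem_singleton_self _, by simp, ?_, ?_, ?_⟩
      · rw [Finset.mem_singleton]; exact fun h0 => haW (h0 ▸ hu₀)
      · rw [Finset.mem_singleton]; exact fun h0 => hnW (h0 ▸ hu₀)
      · rw [Finset.mem_singleton]; exact hne.symm
    | insert z W' hz ih =>
      obtain ⟨X, hX, x1, x2, x3, x4, x5⟩ := ih ((Finset.subset_insert _ _).trans h1)
        fun t ht => h2 t (Finset.mem_insert_of_mem ht)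
      obtain ⟨h4, h5⟩ := h2 z (Finset.mem_insert_self _ _)
      obtain ⟨Y, hY, y1, y2, y3, y4, y5⟩ := h3 z (h1 (Finset.mem_insert_self _ _)) h4 h5
      refine ⟨X ∪ Y, h.cup X Y hX hY ⟨u₀, hWU hu₀, x1, y1⟩ ⟨v, hWU hv, x5, y5⟩,
        Finset.mem_union_left _ x1, fun t ht => ?_, ?_, ?_, ?_⟩
      · rcases Finset.mem_insert.1 ht with rfl | h6
        · exact Finset.mem_union_right _ y2
        · exact Finset.mem_union_left _ (x2 t h6)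
      all_goals simp [*]
  have i2 : ∀ W' : Finset V, W' ⊆ W → (∀ z ∈ W', z ≠ v ∧ z ≠ u₀) → W'.Nonempty →
      (∀ z ∈ W, z ≠ v → z ≠ u₀ → β u₀ z) →
      ∃ X, F X ∧ u₀ ∉ X ∧ (∀ z ∈ W', z ∉ X) ∧ a ∈ X ∧ n ∈ X ∧ v ∈ X := by
    intro W' h1 h2 hW' h3
    induction hW' using Finset.Nonempty.cons_induction with
    | singleton z =>
      obtain ⟨h4, h5⟩ := h2 z (Finset.mem_singleton_self _)
      obtain ⟨Y, hY, y1, y2, y3, y4, y5⟩ := h3 z (h1 (Finset.mem_singleton_self _)) h4 h5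
      exact ⟨Y, hY, y1, fun t ht => by rw [Finset.mem_singleton.1 ht]; exact y2, y3, y4, y5⟩
    | cons z W' hz hne' ih =>
      obtain ⟨X, hX, x1, x2, x3, x4, x5⟩ := ih ((Finset.subset_cons _).trans h1)
        fun t ht => h2 t (Finset.mem_cons_of_mem ht)
      obtain ⟨h4, h5⟩ := h2 z (Finset.mem_cons_self _ _)
      obtain ⟨Y, hY, y1, y2, y3, y4, y5⟩ := h3 z (h1 (Finset.mem_cons_self _ _)) h4 h5
      refine ⟨X ∩ Y, h.cap X Y hX hY ⟨v, hWU hv, x5, y5⟩ ⟨u₀, hWU hu₀, x1, y1⟩,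
        fun h0 => x1 (Finset.mem_inter.1 h0).1, fun t ht => ?_, ?_, ?_, ?_⟩
      · rcases Finset.mem_cons.1 ht with rfl | h6
        · exact fun h0 => y2 (Finset.mem_inter.1 h0).2
        · exact fun h0 => x2 t h6 (Finset.mem_inter.1 h0).1
      all_goals simp [*]
  set W' := (W.erase v).erase u₀ with hW'
  have w1 : W' ⊆ W := (Finset.erase_subset _ _).trans (Finset.erase_subset _ _)
  have w2 : ∀ z ∈ W', z ≠ v ∧ z ≠ u₀ := by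
    intro z hz
    rw [hW', Finset.mem_erase, Finset.mem_erase] at hz
    exact ⟨hz.2.1, hz.1⟩
  have w3 : ∀ z ∈ W, z ≠ v → z = u₀ ∨ z ∈ W' := by
    intro z hz hzv
    by_cases h1 : z = u₀
    · exact Or.inl h1
    · exact Or.inr (by rw [hW', Finset.mem_erase, Finset.mem_erase]; exact ⟨h1, hzv, hz⟩)
  have left : (∀ z ∈ W, z ≠ v → z ≠ u₀ → α u₀ z) →
      ∃ X, F X ∧ (∀ u ∈ W, u ≠ v → u ∈ X) ∧ a ∉ X ∧ n ∉ X ∧ v ∉ X := by
    intro h1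
    obtain ⟨X, hX, x1, x2, x3⟩ := i1 W' w1 w2 h1
    refine ⟨X, hX, fun u hu huv => ?_, x3⟩
    rcases w3 u hu huv with rfl | h2
    · exact x1
    · exact x2 u h2
  rcases tot with h1 | h1
  · exact Or.inl (left h1)
  · rcases W'.eq_empty_or_nonempty with h2 | h2
    · left
      refine left fun z hz hzv hzu => ?_
      rcases w3 z hz hzv with h3 | h3
      · exact absurd h3 hzu
      · rw [h2] at h3; exact absurd h3 (Finset.notMem_empty _)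
    · right
      obtain ⟨X, hX, x1, x2, x3⟩ := i2 W' w1 w2 h2 h1
      refine ⟨X, hX, fun u hu huv => ?_, x3⟩
      rcases w3 u hu huv with rfl | h2
      · exact x1
      · exact x2 u h2

/-- **The combinatorial core.** -/
theorem core {F : Finset V → Prop} {C : V → V → V → V → Prop} {U : Finset V}
    (h : Sys F C U) (hb : Blk F C U) (a b c d : V) : ¬ C a b c d := by
  intro hC
  obtain ⟨a, n, x₀, y₀, hs₀⟩ := exists_St h hb.two hC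
  obtain ⟨W, hWU, haW, hnW, ⟨x, hx, y, hy, z₀, hz₀, hxy, hzx, hzy⟩, cl, st, cls⟩ :=
    exists_clique h hb.two hs₀
  have aU : a ∈ U := (h.mem _ _ _ _ hs₀.1).1
  have nU : n ∈ U := (h.mem _ _ _ _ hs₀.1).2.2.1
  -- types
  have ty : ∀ v ∈ W, (∃ X, F X ∧ (∀ u ∈ W, u ≠ v → u ∈ X) ∧ a ∉ X ∧ n ∉ X ∧ v ∉ X) ∨
      ∃ X, F X ∧ (∀ u ∈ W, u ≠ v → u ∉ X) ∧ a ∈ X ∧ n ∈ X ∧ v ∈ X := by
    intro v hv
    obtain ⟨u₀, hu₀, hne⟩ : ∃ u₀ ∈ W, u₀ ≠ v := by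
      by_cases h1 : x = v
      · exact ⟨y, hy, fun h2 => hxy (h1.trans h2.symm)⟩
      · exact ⟨x, hx, h1⟩
    exact dichot h aU hWU cl st haW hnW hv hu₀ hne
  -- the choice of the state
  obtain ⟨p, hp, q, hq, hpq, h1, h2⟩ : ∃ p ∈ W, ∃ q ∈ W, p ≠ q ∧
      ((∃ z ∈ W, z ≠ q ∧ ∃ X, F X ∧ (∀ u ∈ W, u ≠ z → u ∉ X) ∧ a ∈ X ∧ n ∈ X ∧ z ∈ X) →
        ∃ X, F X ∧ (∀ u ∈ W, u ≠ p → u ∉ X) ∧ a ∈ X ∧ n ∈ X ∧ p ∈ X) ∧
      ((∃ z ∈ W, z ≠ p ∧ ¬ (∃ X, F X ∧ (∀ u ∈ W, u ≠ z → u ∉ X) ∧ a ∈ X ∧ n ∈ X ∧ z ∈ X)) →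
        ∃ X, F X ∧ (∀ u ∈ W, u ≠ q → u ∈ X) ∧ a ∉ X ∧ n ∉ X ∧ q ∉ X) := by
    obtain ⟨p, hp, hp'⟩ : ∃ p ∈ W, (∃ z ∈ W, ∃ X, F X ∧ (∀ u ∈ W, u ≠ z → u ∉ X) ∧ a ∈ X ∧
        n ∈ X ∧ z ∈ X) → ∃ X, F X ∧ (∀ u ∈ W, u ≠ p → u ∉ X) ∧ a ∈ X ∧ n ∈ X ∧ p ∈ X := by
      by_cases h1 : ∃ z ∈ W, ∃ X, F X ∧ (∀ u ∈ W, u ≠ z → u ∉ X) ∧ a ∈ X ∧ n ∈ X ∧ z ∈ X
      · obtain ⟨z, hz, hz'⟩ := h1
        exact ⟨z, hz, fun _ => hz'⟩
      · exact ⟨x, hx, fun h2 => absurd h2 h1⟩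
    obtain ⟨r, hr, hrp⟩ : ∃ r ∈ W, r ≠ p := by
      by_cases h1 : x = p
      · exact ⟨y, hy, fun h2 => hxy (h1.trans h2.symm)⟩
      · exact ⟨x, hx, h1⟩
    by_cases h1 : ∃ z ∈ W, z ≠ p ∧ ¬ (∃ X, F X ∧ (∀ u ∈ W, u ≠ z → u ∉ X) ∧ a ∈ X ∧ n ∈ X ∧
        z ∈ X)
    · obtain ⟨z, hz, hzp, hz'⟩ := h1
      exact ⟨p, hp, z, hz, hzp.symm, fun ⟨w, hw, _, hw'⟩ => hp' ⟨w, hw, hw'⟩,
        fun _ => (ty z hz).resolve_right hz'⟩
    · exact ⟨p, hp, r, hr, hrp.symm, fun ⟨w, hw, _, hw'⟩ => hp' ⟨w, hw, hw'⟩,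
        fun h2 => absurd h2 h1⟩
  obtain ⟨hC', rA, rN⟩ := st p hp q hq hpq
  obtain ⟨z, w, hzw, hz, hw, ns⟩ := hb _ _ _ _ hC'
  have inW : ∀ z, InZ F U a p n q z → z ∈ W := fun z hz =>
    cls z hz.1 hz.2.1.1 hz.2.1.2.2.1 ⟨p, hp, (rN z hz).2⟩ ⟨q, hq, (rA z hz).2⟩
  have zW := inW z hz
  have wW := inW w hw
  obtain ⟨-, ⟨z1, z2, z3, z4⟩, -⟩ := hz
  obtain ⟨-, ⟨w1, w2, w3, w4⟩, -⟩ := hw
  -- the first kind of tight set
  have A : ∀ s t, s ∈ W → t ∈ W → s ≠ t → s ≠ p → s ≠ q → t ≠ p → t ≠ q →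
      (s ∈ ({z, w} : Finset V)) → (t ∈ ({z, w} : Finset V)) →
      (∃ X, F X ∧ (∀ u ∈ W, u ≠ s → u ∉ X) ∧ a ∈ X ∧ n ∈ X ∧ s ∈ X) → False := by
    intro s t hs ht hst sp sq tp tq hsz htz hX
    obtain ⟨Y, hY, y1, y2, y3, y4⟩ := h1 ⟨s, hs, sq, hX⟩
    obtain ⟨X, hX, x1, x2, x3, x4⟩ := hX
    have h3 := ns (X ∪ Y) (h.cup X Y hX hY ⟨a, aU, x2, y2⟩
      ⟨q, hWU hq, x1 q hq sq.symm, y1 q hq hpq.symm⟩) (Or.inl ⟨Finset.mem_union_left _ x2,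
        Finset.mem_union_right _ y4, Or.inr ?_⟩)
    · have h4 : s ∈ X ∪ Y := Finset.mem_union_left _ x4
      have h5 : t ∉ X ∪ Y := by
        rw [Finset.mem_union, not_or]
        exact ⟨x1 t ht hst.symm, y1 t ht tp⟩
      rw [Finset.mem_insert, Finset.mem_singleton] at hsz htz
      rcases hsz with rfl | rfl <;> rcases htz with rfl | rfl
      · exact hst rfl
      · exact h5 (h3.1 h4)
      · exact h5 (h3.2 h4)
      · exact hst rfl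
    · rw [Finset.mem_union, not_or]
      exact ⟨x1 q hq sq.symm, y1 q hq hpq.symm⟩
  by_cases hβz : ∃ X, F X ∧ (∀ u ∈ W, u ≠ z → u ∉ X) ∧ a ∈ X ∧ n ∈ X ∧ z ∈ X
  · exact A z w zW wW hzw z2 z4 w2 w4 (by simp) (by simp) hβz
  by_cases hβw : ∃ X, F X ∧ (∀ u ∈ W, u ≠ w → u ∉ X) ∧ a ∈ X ∧ n ∈ X ∧ w ∈ X
  · exact A w z wW zW hzw.symm w2 w4 z2 z4 (by simp) (by simp) hβw
  obtain ⟨Y, hY, y1, y2, y3, y4⟩ := h2 ⟨z, zW, z2, hβz⟩
  obtain ⟨X, hX, x1, x2, x3, x4⟩ := (ty w wW).resolve_right hβw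
  have h3 := ns (X ∩ Y) (h.cap X Y hX hY ⟨z, hWU zW, x1 z zW hzw, y1 z zW z4⟩ ⟨a, aU, x2, y2⟩)
    (Or.inr ⟨Or.inr (Finset.mem_inter.2 ⟨x1 p hp w2.symm, y1 p hp hpq⟩),
      fun h0 => x3 (Finset.mem_inter.1 h0).1, fun h0 => y4 (Finset.mem_inter.1 h0).2⟩)
  exact x4 (Finset.mem_inter.1 (h3.1 (Finset.mem_inter.2 ⟨x1 z zW hzw, y1 z zW z4⟩))).1

end Pool.Agent.H12.Fr
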