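import Pool.Agent.H12.Fr.Gd

/-!
# Existence of a point with two coordinates 1 and two coordinates -1

Take `Y ⊆ U` of minimal size with `2 ≤ g Y`, `2 ≤ g (U \ Y)`; put `Z = U \ Y`. Then `g Y = g Z = 2`:
if `3 ≤ g Y`: `2 ≤ g (Y.erase y)` for all `y ∈ Y`, so `g (insert y Z) ≤ 1` by minimality
(`U \ Y.erase y = insert y Z`); `#Y ≥ g Y ≥ 3`, take different `y, y', y''`:
`g Z + 1 ≤ g Z + g (insert y (insert y' Z)) ≤ g (insert y Z) + g (insert y' Z) ≤ 2`, contradiction.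
If `3 ≤ g Z`: `g (Y.erase y) ≤ 1` for all `y ∈ Y`, and `#Y ≥ g Z ≥ 3` (`g Z ≤ g U + #Y`), so
`g Y + 1 ≤ g Y + g (Y - y - y') ≤ 2`, contradiction.
Now `lemma pair`: if `Y ⊆ U`, `2 ≤ g Y`, `2 ≤ g (U \ Y)` then there are `a ≠ b` in `Y` such that no `X`
with `FF g U X` satisfies `a, b ∈ X ⊆ Y`, and none satisfies `U \ Y ⊆ X`, `a, b ∉ X`: otherwise fix
`u ∈ Y`; two relations `R1 u z`: there is such an `X ⊆ Y` containing `u, z`; `R2 u z`: there is such an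
`X ⊇ U \ Y` avoiding `u, z`; both are transitive (`Gd.cross`) and any two elements are related by
one of them, so one of them relates `u` to all `z ∈ Y` (as in `dichot` of `Core`), and the union of
the sets is `Y` (so `g Y = 1`), or their intersection is `U \ Y` (so `g (U \ Y) = 1`).
Apply `pair` to `Y` and to `U \ Y` (`U \ (U \ Y) = Y`): `a, b` and `c, d`. `K4`: if `X` is in the family,
`a, b ∈ X`, `c, d ∉ X` then `g X + g Y = 3`, so `g (X ∩ Y) = 1` or `g (X ∪ Y) = 1`, which contradicts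
the choice of `a, b` or `c, d`; if `c, d ∈ X`, `a, b ∉ X` use `g X + g (U \ Y) = 3`.
-/

set_option autoImplicit false
set_option maxHeartbeats 4000000

open Finset

namespace Pool.Agent.H12.Fr

variable {V : Type*} [DecidableEq V]

private lemma Exi_uniU {F : Finset V → Prop} {p q : V} {Y : Finset V}
    (hcup : ∀ X X', F X → F X' → p ∈ X → p ∈ X' → q ∉ X → q ∉ X' → F (X ∪ X'))
    (W : Finset V) (hW : W.Nonempty)
    (hx : ∀ z ∈ W, ∃ X, F X ∧ p ∈ X ∧ q ∉ X ∧ z ∈ X ∧ X ⊆ Y) :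
    ∃ X, F X ∧ p ∈ X ∧ q ∉ X ∧ (∀ z ∈ W, z ∈ X) ∧ X ⊆ Y := by
  induction hW using Finset.Nonempty.cons_induction with
  | singleton z =>
    obtain ⟨X, h1, h2, h3, h4, h5⟩ := hx z (Finset.mem_singleton_self _)
    exact ⟨X, h1, h2, h3, fun t ht => by rw [Finset.mem_singleton.1 ht]; exact h4, h5⟩
  | cons z W' hz hne ih =>
    obtain ⟨X, h1, h2, h3, h4, h5⟩ := ih fun t ht => hx t (Finset.mem_cons_of_mem ht)
    obtain ⟨X', g1, g2, g3, g4, g5⟩ := hx z (Finset.mem_cons_self _ _)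
    refine ⟨X ∪ X', hcup X X' h1 g1 h2 g2 h3 g3, Finset.mem_union_left _ h2, ?_, fun t ht => ?_,
      Finset.union_subset h5 g5⟩
    · rw [Finset.mem_union, not_or]; exact ⟨h3, g3⟩
    · rcases Finset.mem_cons.1 ht with rfl | h6
      · exact Finset.mem_union_right _ g4
      · exact Finset.mem_union_left _ (h4 t h6)

private lemma Exi_uniI {F : Finset V → Prop} {p q : V} {R : Finset V}
    (hcap : ∀ X X', F X → F X' → p ∈ X → p ∈ X' → q ∉ X → q ∉ X' → F (X ∩ X'))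
    (W : Finset V) (hW : W.Nonempty)
    (hx : ∀ z ∈ W, ∃ X, F X ∧ p ∈ X ∧ q ∉ X ∧ z ∉ X ∧ R ⊆ X) :
    ∃ X, F X ∧ p ∈ X ∧ q ∉ X ∧ (∀ z ∈ W, z ∉ X) ∧ R ⊆ X := by
  induction hW using Finset.Nonempty.cons_induction with
  | singleton z =>
    obtain ⟨X, h1, h2, h3, h4, h5⟩ := hx z (Finset.mem_singleton_self _)
    exact ⟨X, h1, h2, h3, fun t ht => by rw [Finset.mem_singleton.1 ht]; exact h4, h5⟩
  | cons z W' hz hne ih =>
    obtain ⟨X, h1, h2, h3, h4, h5⟩ := ih fun t ht => hx t (Finset.mem_cons_of_mem ht)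
    obtain ⟨X', g1, g2, g3, g4, g5⟩ := hx z (Finset.mem_cons_self _ _)
    refine ⟨X ∩ X', hcap X X' h1 g1 h2 g2 h3 g3, Finset.mem_inter.2 ⟨h2, g2⟩,
      fun h0 => h3 (Finset.mem_inter.1 h0).1, fun t ht => ?_, Finset.subset_inter h5 g5⟩
    rcases Finset.mem_cons.1 ht with rfl | h6
    · exact fun h0 => g4 (Finset.mem_inter.1 h0).2
    · exact fun h0 => h4 t h6 (Finset.mem_inter.1 h0).1

private lemma Exi_pair {g : Finset V → ℝ} {U : Finset V} (h : Gd g U) {Y : Finset V}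
    (hYU : Y ⊆ U) (h1 : 2 ≤ g Y) (h2 : 2 ≤ g (U \ Y)) :
    ∃ a ∈ Y, ∃ b ∈ Y, a ≠ b ∧ (∀ X, FF g U X → X ⊆ Y → ¬ (a ∈ X ∧ b ∈ X)) ∧
      ∀ X, FF g U X → U \ Y ⊆ X → ¬ (a ∉ X ∧ b ∉ X) := by
  obtain ⟨u, hu⟩ : Y.Nonempty := by
    rw [Finset.nonempty_iff_ne_empty]
    rintro rfl
    rw [h.e0] at h1
    norm_num at h1
  obtain ⟨q, hq⟩ : (U \ Y).Nonempty := by
    rw [Finset.nonempty_iff_ne_empty]
    intro h3
    rw [h3, h.e0] at h2
    norm_num at h2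
  have hqU := (Finset.mem_sdiff.1 hq).1
  have hqY := (Finset.mem_sdiff.1 hq).2
  by_contra hcon
  push Not at hcon
  set R1 : V → V → Prop := fun a b => ∃ X, FF g U X ∧ X ⊆ Y ∧ a ∈ X ∧ b ∈ X with hR1
  set R2 : V → V → Prop := fun a b => ∃ X, FF g U X ∧ U \ Y ⊆ X ∧ a ∉ X ∧ b ∉ X with hR2
  have key : ∀ a ∈ Y, ∀ b ∈ Y, a ≠ b → R1 a b ∨ R2 a b := by
    intro a ha b hb hab
    by_cases h3 : ∀ X, FF g U X → X ⊆ Y → a ∈ X → b ∉ X
    · obtain ⟨X, x1, x2, x3, x4⟩ := hcon a ha b hb hab h3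
      exact Or.inr ⟨X, x1, x2, x3, x4⟩
    · push Not at h3
      obtain ⟨X, x1, x2, x3, x4⟩ := h3
      exact Or.inl ⟨X, x1, x2, x3, x4⟩
  have R1t : ∀ a b c, R1 a b → R1 b c → R1 a c := by
    rintro a b c ⟨X, x1, x2, x3, x4⟩ ⟨X', y1, y2, y3, y4⟩
    exact ⟨X ∪ X', (h.cross x1 y1 x4 y3 hqU (fun h0 => hqY (x2 h0)) fun h0 => hqY (y2 h0)).2,
      Finset.union_subset x2 y2, Finset.mem_union_left _ x3, Finset.mem_union_right _ y4⟩
  have R2t : ∀ a b c, b ∈ Y → R2 a b → R2 b c → R2 a c := by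
    rintro a b c hb ⟨X, x1, x2, x3, x4⟩ ⟨X', y1, y2, y3, y4⟩
    exact ⟨X ∩ X', (h.cross x1 y1 (x2 hq) (y2 hq) (hYU hb) x4 y3).1,
      Finset.subset_inter x2 y2, fun h0 => x3 (Finset.mem_inter.1 h0).1,
      fun h0 => y4 (Finset.mem_inter.1 h0).2⟩
  have R1s : ∀ a b, R1 a b → R1 b a := fun a b ⟨X, x1, x2, x3, x4⟩ => ⟨X, x1, x2, x4, x3⟩
  have R2s : ∀ a b, R2 a b → R2 b a := fun a b ⟨X, x1, x2, x3, x4⟩ => ⟨X, x1, x2, x4, x3⟩
  have tot : (∀ z ∈ Y, z ≠ u → R1 u z) ∨ ∀ z ∈ Y, z ≠ u → R2 u z := by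
    by_contra hcon
    push Not at hcon
    obtain ⟨⟨z₁, a1, a2, a3⟩, z₂, b1, b2, b3⟩ := hcon
    have c1 := (key u hu z₁ a1 a2.symm).resolve_left a3
    have c2 := (key u hu z₂ b1 b2.symm).resolve_right b3
    have hz : z₁ ≠ z₂ := fun h0 => b3 (h0 ▸ c1)
    rcases key z₁ a1 z₂ b1 hz with h3 | h3
    · exact a3 (R1t _ _ _ c2 (R1s _ _ h3))
    · exact b3 (R2t _ _ _ a1 c1 h3)
  have hW : (Y.erase u).Nonempty := by
    rw [Finset.nonempty_iff_ne_empty]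
    intro h3
    have h4 : Y = {u} := by
      rw [← Finset.insert_erase hu, h3, insert_empty_eq]
    have h5 := (h.up ∅ u).1
    rw [insert_empty_eq, h.e0, ← h4] at h5
    linarith
  rcases tot with h3 | h3
  · obtain ⟨X, x1, x2, x3, x4, x5⟩ := Exi_uniU (F := FF g U) (p := u) (q := q) (Y := Y)
      (fun X X' x1 x2 x3 x4 x5 x6 => (h.cross x1 x2 x3 x4 hqU x5 x6).2) (Y.erase u) hW
      (fun z hz => by
        obtain ⟨X, x1, x2, x3, x4⟩ := h3 z (Finset.mem_of_mem_erase hz) (Finset.ne_of_mem_erase hz)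
        exact ⟨X, x1, x3, fun h0 => hqY (x2 h0), x4, x2⟩)
    have h4 : X = Y := by
      refine Finset.Subset.antisymm x5 fun z hz => ?_
      by_cases hzu : z = u
      · rw [hzu]; exact x2
      · exact x4 z (Finset.mem_erase.2 ⟨hzu, hz⟩)
    rw [h4] at x1
    rw [x1.2.2.2] at h1
    norm_num at h1
  · obtain ⟨X, x1, x2, x3, x4, x5⟩ := Exi_uniI (F := FF g U) (p := q) (q := u) (R := U \ Y)
      (fun X X' x1 x2 x3 x4 x5 x6 => (h.cross x1 x2 x3 x4 (hYU hu) x5 x6).1) (Y.erase u) hW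
      (fun z hz => by
        obtain ⟨X, x1, x2, x3, x4⟩ := h3 z (Finset.mem_of_mem_erase hz) (Finset.ne_of_mem_erase hz)
        exact ⟨X, x1, x2 hq, x3, x4, x2⟩)
    have h4 : X = U \ Y := by
      refine Finset.Subset.antisymm (fun z hz => ?_) x5
      refine Finset.mem_sdiff.2 ⟨x1.1 hz, fun hzY => ?_⟩
      by_cases hzu : z = u
      · exact x3 (hzu ▸ hz)
      · exact x4 z (Finset.mem_erase.2 ⟨hzu, hzY⟩) hz
    rw [h4] at x1
    rw [x1.2.2.2] at h2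
    norm_num at h2

private lemma Exi_card {g : Finset V → ℝ} {U : Finset V} (h : Gd g U) (X D : Finset V) :
    g (X ∪ D) ≤ g X + #D ∧ g X ≤ g (X ∪ D) + #D := by
  induction D using Finset.induction_on with
  | empty => simp
  | insert a D ha ih =>
    rw [Finset.union_insert, Finset.card_insert_of_notMem ha]
    have h1 := h.up (X ∪ D) a
    push_cast
    constructor <;> linarith [ih.1, ih.2, h1.1, h1.2]

private lemma Exi_min {g : Finset V → ℝ} {U : Finset V} (h : Gd g U)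
    (hY : ∃ Y, Y ⊆ U ∧ 2 ≤ g Y ∧ 2 ≤ g (U \ Y)) :
    ∃ Y, Y ⊆ U ∧ g Y = 2 ∧ g (U \ Y) = 2 := by
  classical
  obtain ⟨Y, ⟨hYU, h1, h2⟩, hmin⟩ : ∃ Y, (Y ⊆ U ∧ 2 ≤ g Y ∧ 2 ≤ g (U \ Y)) ∧
      ∀ Y', (Y' ⊆ U ∧ 2 ≤ g Y' ∧ 2 ≤ g (U \ Y')) → #Y ≤ #Y' := by
    have hne : (U.powerset.filter fun Y => Y ⊆ U ∧ 2 ≤ g Y ∧ 2 ≤ g (U \ Y)).Nonempty := by
      obtain ⟨Y, hY⟩ := hY
      exact ⟨Y, Finset.mem_filter.2 ⟨Finset.mem_powerset.2 hY.1, hY⟩⟩
    obtain ⟨Y, hY, hmin⟩ := Finset.exists_min_image _ (fun Y => #Y) hne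
    exact ⟨Y, (Finset.mem_filter.1 hY).2, fun Y' hY' => hmin Y' (Finset.mem_filter.2
      ⟨Finset.mem_powerset.2 hY'.1, hY'⟩)⟩
  set Z := U \ Y with hZ
  have hmin' : ∀ y ∈ Y, g (Y.erase y) < 2 ∨ g (insert y Z) < 2 := by
    intro y hy
    by_contra h3
    rw [not_or, not_lt, not_lt] at h3
    have e : U \ Y.erase y = insert y Z := by
      ext i
      simp only [hZ, Finset.mem_sdiff, Finset.mem_erase, Finset.mem_insert, not_and]
      constructor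
      · rintro ⟨h4, h5⟩
        by_cases hi : i = y
        · exact Or.inl hi
        · exact Or.inr ⟨h4, h5 hi⟩
      · rintro (rfl | ⟨h4, h5⟩)
        · exact ⟨hYU hy, fun h6 => absurd rfl h6⟩
        · exact ⟨h4, fun _ => h5⟩
    have h4 := hmin (Y.erase y) ⟨(Finset.erase_subset _ _).trans hYU, h3.1, by rw [e]; exact h3.2⟩
    rw [Finset.card_erase_of_mem hy] at h4
    have : 0 < #Y := Finset.card_pos.2 ⟨y, hy⟩
    omega
  have le1 : ∀ X, g X < 2 → g X ≤ 1 := by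
    intro X hX
    by_contra h3
    push Not at h3
    linarith [h.two_le h3]
  have cY : g Y ≤ #Y := by
    have := (Exi_card h ∅ Y).1
    rwa [Finset.empty_union, h.e0, zero_add] at this
  have cZ : g Z ≤ #Y := by
    have := (Exi_card h Z Y).2
    rwa [hZ, Finset.sdiff_union_of_subset hYU, h.e1, zero_add] at this
  have ZU : Z ⊆ U := Finset.sdiff_subset
  refine ⟨Y, hYU, le_antisymm ?_ h1, le_antisymm ?_ h2⟩
  · by_contra h3
    push Not at h3
    have h3' := h.three_le h3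
    have c3 : 2 < #Y := by
      have : (3 : ℝ) ≤ #Y := h3'.trans cY
      exact_mod_cast this
    obtain ⟨x, hx, y, hy, z, hz, hxy, hxz, hyz⟩ := Finset.two_lt_card.1 c3
    have t : ∀ y ∈ Y, g (insert y Z) ≤ 1 := by
      intro y hy
      refine le1 _ ((hmin' y hy).resolve_left ?_)
      rw [not_lt]
      have := (h.up (Y.erase y) y).1
      rw [Finset.insert_erase hy] at this
      linarith
    have h4 := h.sub (insert x Z) (insert y Z)
    have e1 : insert x Z ∩ insert y Z = Z := by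
      ext i
      simp only [Finset.mem_inter, Finset.mem_insert]
      constructor
      · rintro ⟨rfl | h5, h6 | h6⟩
        · exact absurd h6 hxy
        · exact h6
        · exact h5
        · exact h5
      · exact fun h5 => ⟨Or.inr h5, Or.inr h5⟩
    have h5 : 1 ≤ g (insert x Z ∪ insert y Z) := by
      refine h.ge_one (p := x) (q := z) (Finset.union_subset
        (Finset.insert_subset (hYU hx) ZU) (Finset.insert_subset (hYU hy) ZU))
        (Finset.mem_union_left _ (Finset.mem_insert_self _ _)) (hYU hz) ?_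
      have hzZ : z ∉ Z := fun h0 => (Finset.mem_sdiff.1 h0).2 hz
      simp [hzZ, hxz.symm, hyz.symm]
    rw [e1] at h4
    linarith [t x hx, t y hy]
  · by_contra h3
    push Not at h3
    have h3' := h.three_le h3
    have c3 : 2 < #Y := by
      have : (3 : ℝ) ≤ #Y := h3'.trans cZ
      exact_mod_cast this
    obtain ⟨x, hx, y, hy, z, hz, hxy, hxz, hyz⟩ := Finset.two_lt_card.1 c3
    have t : ∀ y ∈ Y, g (Y.erase y) ≤ 1 := by
      intro y hy
      refine le1 _ ((hmin' y hy).resolve_right ?_)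
      rw [not_lt]
      have := (h.up Z y).2
      linarith
    have h4 := h.sub (Y.erase x) (Y.erase y)
    have e1 : Y.erase x ∪ Y.erase y = Y := by
      ext i
      simp only [Finset.mem_union, Finset.mem_erase]
      constructor
      · rintro (h5 | h5)
        · exact h5.2
        · exact h5.2
      · intro h5
        by_cases hi : i = x
        · exact Or.inr ⟨fun h6 => hxy (hi.symm.trans h6), h5⟩
        · exact Or.inl ⟨hi, h5⟩
    have h5 : 1 ≤ g (Y.erase x ∩ Y.erase y) := by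
      refine h.ge_one (p := z) (q := x) ?_ ?_ (hYU hx) ?_
      · exact Finset.inter_subset_left.trans ((Finset.erase_subset _ _).trans hYU)
      · simp [hz, hxz.symm, hyz.symm]
      · simp
    rw [e1] at h4
    linarith [t x hx, t y hy]

theorem exi {g : Finset V → ℝ} {U : Finset V} (h : Gd g U)
    (hY : ∃ Y, Y ⊆ U ∧ 2 ≤ g Y ∧ 2 ≤ g (U \ Y)) :
    ∃ a b c d, (a ∈ U ∧ b ∈ U ∧ c ∈ U ∧ d ∈ U) ∧
      (a ≠ b ∧ a ≠ c ∧ a ≠ d ∧ b ≠ c ∧ b ≠ d ∧ c ≠ d) ∧ K4 (FF g U) a b c d := by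
  obtain ⟨Y, hYU, h1, h2⟩ := Exi_min h hY
  set Z := U \ Y with hZ
  have ZU : Z ⊆ U := Finset.sdiff_subset
  have eZ : U \ Z = Y := Finset.sdiff_sdiff_eq_self hYU
  obtain ⟨a, ha, b, hb, hab, p1, p2⟩ := Exi_pair h hYU (by rw [h1]) (by rw [← hZ, h2])
  obtain ⟨c, hc, d, hd, hcd, q1, q2⟩ := Exi_pair h ZU (by rw [h2]) (by rw [eZ, h1])
  rw [eZ] at q2
  have ne : ∀ x ∈ Y, ∀ y ∈ Z, x ≠ y := fun x hx y hy h0 =>
    (Finset.mem_sdiff.1 hy).2 (h0 ▸ hx)
  refine ⟨a, b, c, d, ⟨hYU ha, hYU hb, ZU hc, ZU hd⟩,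
    ⟨hab, ne a ha c hc, ne a ha d hd, ne b hb c hc, ne b hb d hd, hcd⟩, fun X hX => ⟨?_, ?_⟩⟩
  · rintro ⟨x1, x2, x3, x4⟩
    have h3 := h.sub X Y
    rw [hX.2.2.2, h1] at h3
    have cY : c ∉ Y := (Finset.mem_sdiff.1 hc).2
    have dY : d ∉ Y := (Finset.mem_sdiff.1 hd).2
    have s1 : X ∩ Y ⊆ U := Finset.inter_subset_left.trans hX.1
    have s2 : X ∪ Y ⊆ U := Finset.union_subset hX.1 hYU
    have m1 : a ∈ X ∩ Y := Finset.mem_inter.2 ⟨x1, ha⟩
    have m2 : c ∉ X ∩ Y := fun h0 => cY (Finset.mem_inter.1 h0).2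
    have m3 : c ∉ X ∪ Y := fun h0 => (Finset.mem_union.1 h0).elim x3 cY
    have m4 : d ∉ X ∪ Y := fun h0 => (Finset.mem_union.1 h0).elim x4 dY
    by_cases h4 : g (X ∩ Y) < 2
    · exact p1 _ (h.ff s1 m1 (ZU hc) m2 h4) Finset.inter_subset_right
        ⟨m1, Finset.mem_inter.2 ⟨x2, hb⟩⟩
    · rw [not_lt] at h4
      have h5 : g (X ∪ Y) < 2 := by linarith
      exact q2 _ (h.ff s2 (Finset.mem_union_left _ x1) (ZU hc) m3 h5) Finset.subset_union_right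
        ⟨m3, m4⟩
  · rintro ⟨x1, x2, x3, x4⟩
    have h3 := h.sub X Z
    rw [hX.2.2.2, h2] at h3
    have aZ : a ∉ Z := fun h0 => (Finset.mem_sdiff.1 h0).2 ha
    have bZ : b ∉ Z := fun h0 => (Finset.mem_sdiff.1 h0).2 hb
    have s1 : X ∩ Z ⊆ U := Finset.inter_subset_left.trans hX.1
    have s2 : X ∪ Z ⊆ U := Finset.union_subset hX.1 ZU
    have m1 : c ∈ X ∩ Z := Finset.mem_inter.2 ⟨x3, hc⟩
    have m2 : a ∉ X ∩ Z := fun h0 => aZ (Finset.mem_inter.1 h0).2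
    have m3 : a ∉ X ∪ Z := fun h0 => (Finset.mem_union.1 h0).elim x1 aZ
    have m4 : b ∉ X ∪ Z := fun h0 => (Finset.mem_union.1 h0).elim x2 bZ
    by_cases h4 : g (X ∩ Z) < 2
    · exact q1 _ (h.ff s1 m1 (hYU ha) m2 h4) Finset.inter_subset_right
        ⟨m1, Finset.mem_inter.2 ⟨x4, hd⟩⟩
    · rw [not_lt] at h4
      have h5 : g (X ∪ Z) < 2 := by linarith
      exact p2 _ (h.ff s2 (Finset.mem_union_left _ x3) (hYU ha) m3 h5) Finset.subset_union_right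
        ⟨m3, m4⟩

end Pool.Agent.H12.Fr
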