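import Pool.Agent.H12.Fr.Cert

/-!
# The three finite facts
-/

set_option autoImplicit false
set_option maxHeartbeats 4000000

open Finset

namespace Pool.Agent.H12.Fr

variable {V : Type*} [DecidableEq V]

lemma Sys.swap {F : Finset V → Prop} {C : V → V → V → V → Prop} {U : Finset V}
    (h : Sys F C U) : Sys F (fun a b c d => C c d a b) U where
  cap := h.cap
  cup := h.cup
  one := h.one
  con := h.con
  symA a b c d hC := h.symN _ _ _ _ hC
  symN a b c d hC := h.symA _ _ _ _ hC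
  mem a b c d hC := by
    have := h.mem _ _ _ _ hC
    tauto
  ne a b c d hC := by
    have := h.ne _ _ _ _ hC
    tauto
  ck a b c d hC := (h.ck _ _ _ _ hC).s
  anti a b c d hC := h.anti _ _ _ _ hC
  slA a b c d z hC hz h1 h2 h3 h4 hk := h.slN _ _ _ _ z hC hz h3 h4 h1 h2 hk.s
  slN a b c d z hC hz h1 h2 h3 h4 hk := h.slA _ _ _ _ z hC hz h3 h4 h1 h2 hk.s

lemma env_of {F : Finset V → Prop} {C : V → V → V → V → Prop} {U : Finset V}
    (h : Sys F C U) (L : List V) (x : V) (m : ℕ) (hm : L.length = m) (hnd : L.Nodup)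
    (hmem : ∀ y ∈ L, y ∈ U) (h8 : m ≤ 8) {s : Bool} (h1 : s = true → S1 F C U)
    (h1' : s = true → S1' F C U) : Env F C U (fun i => L.getD i x) m s where
  sys := h
  mem i hi := by
    subst hm
    rw [List.getD_eq_getElem _ _ hi]
    exact hmem _ (List.getElem_mem hi)
  inj i hi j hj hij := by
    subst hm
    rw [List.getD_eq_getElem _ _ hi, List.getD_eq_getElem _ _ hj] at hij
    exact (List.Nodup.getElem_inj_iff hnd).1 hij
  m8 := h8
  s1 := h1
  s1' := h1'

omit [DecidableEq V] in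
lemma sg {F : Finset V → Prop} {C : V → V → V → V → Prop} {e : ℕ → V} {m : ℕ} {l : ℕ × Bool}
    (h : lv F C e m l) : ∃ l' ∈ [l], lv F C e m l' := ⟨l, by simp, h⟩

omit [DecidableEq V] in
lemma sg2 {F : Finset V → Prop} {C : V → V → V → V → Prop} {e : ℕ → V} {m : ℕ}
    {l l' : ℕ × Bool} (h : lv F C e m l ∨ lv F C e m l') :
    ∃ x ∈ [l, l'], lv F C e m x := by
  rcases h with h | h
  · exact ⟨l, by simp, h⟩
  · exact ⟨l', by simp, h⟩

omit [DecidableEq V] in
lemma lkt {F : Finset V → Prop} {C : V → V → V → V → Prop} {e : ℕ → V} {m : ℕ} (i j k l : ℕ)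
    {a b c d : V} (ha : e i = a) (hb : e j = b) (hc : e k = c) (hd : e l = d)
    (hi : i < 8) (hj : j < 8) (hk : k < 8) (hl : l < 8) :
    lv F C e m (kn i j k l, true) ↔ K4 F a b c d := by
  rw [lvt, val_kn hi hj hk hl, ha, hb, hc, hd]

omit [DecidableEq V] in
lemma lkf {F : Finset V → Prop} {C : V → V → V → V → Prop} {e : ℕ → V} {m : ℕ} (i j k l : ℕ)
    {a b c d : V} (ha : e i = a) (hb : e j = b) (hc : e k = c) (hd : e l = d)
    (hi : i < 8) (hj : j < 8) (hk : k < 8) (hl : l < 8) :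
    lv F C e m (kn i j k l, false) ↔ ¬ K4 F a b c d := by
  rw [lvf, val_kn hi hj hk hl, ha, hb, hc, hd]

/-- **First fact.** -/
theorem s1_of {F : Finset V → Prop} {C : V → V → V → V → Prop} {U : Finset V}
    (h : Sys F C U) : S1 F C U := by
  intro a b c d z w hC hz hw z1 z2 z3 z4 w1 w2 w3 w4 hzw k1 k2 k3 k4
  obtain ⟨m1, m2, m3, m4⟩ := h.mem _ _ _ _ hC
  obtain ⟨n1, n2, n3, n4, n5, n6⟩ := h.ne _ _ _ _ hC
  have E : Env F C U (fun i => [a, b, c, d, z, w].getD i a) 6 false := by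
    refine env_of h _ _ 6 rfl ?_ ?_ (by norm_num) (by simp) (by simp)
    · simp only [List.nodup_cons, List.mem_cons, List.not_mem_nil, or_false, not_or,
        List.nodup_nil, not_false_eq_true, and_true]
      exact ⟨⟨n1, n2, n3, z1.symm, w1.symm⟩, ⟨n4, n5, z2.symm, w2.symm⟩,
        ⟨n6, z3.symm, w3.symm⟩, ⟨z4.symm, w4.symm⟩, hzw⟩
    · simp only [List.mem_cons, List.not_mem_nil, or_false, forall_eq_or_imp, forall_eq]
      exact ⟨m1, m2, m3, m4, hz, hw⟩
  refine sound E (H := hyS1) ?_ trS1 0 0 inv_zero ckS1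
  simp only [hyS1, List.forall_mem_cons]
  refine ⟨sg (lvt.2 ((val_cn h.symA h.symN (by norm_num) (by norm_num) (by norm_num)
    (by norm_num)).2 hC)), sg ((lkt 4 1 2 3 rfl rfl rfl rfl (by norm_num) (by norm_num)
    (by norm_num) (by norm_num)).2 k3), sg ((lkt 0 5 2 3 rfl rfl rfl rfl (by norm_num)
    (by norm_num) (by norm_num) (by norm_num)).2 k4), sg2 ?_, sg2 ?_, by simp⟩
  · rw [lkt 0 1 4 3 rfl rfl rfl rfl (by norm_num) (by norm_num) (by norm_num) (by norm_num),
      lkt 0 1 2 4 rfl rfl rfl rfl (by norm_num) (by norm_num) (by norm_num) (by norm_num)]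
    exact k1
  · rw [lkt 0 1 5 3 rfl rfl rfl rfl (by norm_num) (by norm_num) (by norm_num) (by norm_num),
      lkt 0 1 2 5 rfl rfl rfl rfl (by norm_num) (by norm_num) (by norm_num) (by norm_num)]
    exact k2

theorem s1'_of {F : Finset V → Prop} {C : V → V → V → V → Prop} {U : Finset V}
    (h : Sys F C U) : S1' F C U := s1_of h.swap

end Pool.Agent.H12.Fr
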