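import Pool.Agent.H12.Fr.Blo
import Pool.Agent.H12.Fr.Exi

/-!
# Components in which no sum takes values `≥ 3` and `≤ -3`
-/

set_option autoImplicit false
set_option maxHeartbeats 4000000

open Finset

namespace Pool.Agent.H12.Fr

open Pool.Agent.H54.Frank

variable {V : Type*} [Fintype V] [DecidableEq V]

/-- the component as a minor -/
def gf (f : Finset V → ℝ) (S : Finset V) (X : Finset V) : ℝ := f (S ∪ X)

lemma gd_of {f : Finset V → ℝ} (h : Data f) {S T : Finset V} (hir : Irred f S T) :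
    Gd (gf f S) (T \ S) where
  sub X Y := by
    unfold gf
    have := h.sub (S ∪ X) (S ∪ Y)
    rwa [← Finset.union_union_distrib_left, ← Finset.union_inter_distrib_left] at this
  e0 := by unfold gf; rw [Finset.union_empty]; exact hir.2.1
  e1 := by unfold gf; rw [Finset.union_sdiff_of_subset hir.1.1]; exact hir.2.2.1
  pos X hX hne hXU := by
    unfold gf
    refine h.one_le (hir.2.2.2 _ ?_ ?_)
    · refine ⟨Finset.subset_union_left, fun h1 => ?_⟩
      obtain ⟨x, hx⟩ := hne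
      exact (Finset.mem_sdiff.1 (hX hx)).2 (h1 (Finset.mem_union_right _ hx))
    · refine ⟨Finset.union_subset hir.1.1 (hX.trans Finset.sdiff_subset), fun h1 => hXU ?_⟩
      refine Finset.Subset.antisymm hX fun x hx => ?_
      obtain ⟨h2, h3⟩ := Finset.mem_sdiff.1 hx
      exact (Finset.mem_union.1 (h1 h2)).resolve_left h3
  up X i := by
    unfold gf
    rw [Finset.union_insert]
    by_cases hi : i ∈ S ∪ X
    · rw [Finset.insert_eq_of_mem hi]
      constructor <;> linarith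
    · rcases h.marg _ _ hi with h1 | h1 | h1 <;> constructor <;> linarith
  int X := h.int _

omit [Fintype V] in
lemma pairsub {S T : Finset V} {a b : V} (ha : a ∈ T \ S) (hb : b ∈ T \ S) :
    ({a, b} : Finset V) ⊆ T \ S := by
  intro i hi
  rw [Finset.mem_insert, Finset.mem_singleton] at hi
  rcases hi with rfl | rfl <;> assumption

omit [Fintype V] in
lemma pairdis {a b c d : V} (ac : a ≠ c) (ad : a ≠ d) (bc : b ≠ c) (bd : b ≠ d) :
    Disjoint ({a, b} : Finset V) {c, d} := by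
  rw [Finset.disjoint_left]
  intro i hi hi'
  rw [Finset.mem_insert, Finset.mem_singleton] at hi hi'
  rcases hi with rfl | rfl <;> rcases hi' with h1 | h1
  · exact ac h1
  · exact ad h1
  · exact bc h1
  · exact bd h1

lemma pt_of {f : Finset V → ℝ} (h : Data f) {S T : Finset V} (hir : Irred f S T)
    (H : ∀ X, S ⊆ X → X ⊆ T → f X ≤ 2 ∨ f (S ∪ (T \ X)) ≤ 2) {a b c d : V}
    (mU : a ∈ T \ S ∧ b ∈ T \ S ∧ c ∈ T \ S ∧ d ∈ T \ S)
    (ne : a ≠ b ∧ a ≠ c ∧ a ≠ d ∧ b ≠ c ∧ b ≠ d ∧ c ≠ d)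
    (hK : K4 (FF (gf f S) (T \ S)) a b c d) : Pt f S T 2 {a, b} {c, d} := by
  have G := gd_of h hir
  obtain ⟨aU, bU, cU, dU⟩ := mU
  obtain ⟨ab, ac, ad, bc, bd, cd⟩ := ne
  have key : ∀ a b c d : V, a ∈ T \ S → b ∈ T \ S → c ∈ T \ S →
      K4 (FF (gf f S) (T \ S)) a b c d → ∀ X, S ∪ {a, b} ⊆ X → X ⊆ T \ {c, d} →
      ((2 : ℕ) : ℝ) ≤ f X := by
    intro a b c d aU bU cU hK X h1 h2
    have hS : S ⊆ X := Finset.subset_union_left.trans h1
    have h3 : gf f S (X \ S) = f X := by unfold gf; rw [Finset.union_sdiff_of_subset hS]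
    rw [← h3]
    have e2 : ((2 : ℕ) : ℝ) = 2 := by norm_num
    rw [e2]
    refine ge2 G cU hK (Finset.sdiff_subset_sdiff (h2.trans Finset.sdiff_subset)
      (Finset.Subset.refl _)) ?_ ?_ ?_ ?_
    · exact Finset.mem_sdiff.2 ⟨h1 (by simp), (Finset.mem_sdiff.1 aU).2⟩
    · exact Finset.mem_sdiff.2 ⟨h1 (by simp), (Finset.mem_sdiff.1 bU).2⟩
    · intro h4
      have h5 := (Finset.mem_sdiff.1 (h2 (Finset.mem_sdiff.1 h4).1)).2
      simp at h5
    · intro h4
      have h5 := (Finset.mem_sdiff.1 (h2 (Finset.mem_sdiff.1 h4).1)).2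
      simp at h5
  refine ⟨pairsub aU bU, pairsub cU dU, pairdis ac ad bc bd, Finset.card_pair ab,
    Finset.card_pair cd, key a b c d aU bU cU hK, key c d a b cU dU aU hK.s, fun X h1 h2 => ?_⟩
  have := H X (Finset.subset_union_left.trans h1) (h2.trans Finset.sdiff_subset)
  exact_mod_cast this

/-- **The theorem for one component.** -/
theorem opp_of_two {f : Finset V → ℝ} (h : Data f) {S T : Finset V} (hir : Irred f S T)
    (H : ∀ X, S ⊆ X → X ⊆ T → f X ≤ 2 ∨ f (S ∪ (T \ X)) ≤ 2) : Opp f S T := by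
  by_contra hno
  have G := gd_of h hir
  have hST := hir.1.1
  have hS := hir.2.1
  have hT := hir.2.2.1
  set U := T \ S with hU
  set F := FF (gf f S) U with hF
  -- no two opposite chains
  have R : ∀ A N, Pt f S T 2 A N → MChain f 0 (S ∪ A) (T \ N) → MChain f 0 (S ∪ N) (T \ A) →
      False := by
    intro A N hq r1 r2
    have s1 := sub_aux hST hq.hA hq.hN hq.dis
    have s2 := sub_aux hST hq.hN hq.hA hq.dis.symm
    refine hno (opp_of_chains h hS hT hq.hA hq.hN ?_ ?_ ?_ ?_ hq.dis r1 r2)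
    · rw [hq.cA]; exact hq.lo _ (Finset.Subset.refl _) s1
    · rw [hq.cN]; exact hq.lo _ s1 (Finset.Subset.refl _)
    · rw [hq.cN]; exact hq.hi _ (Finset.Subset.refl _) s2
    · rw [hq.cA]; exact hq.hi _ s2 (Finset.Subset.refl _)
  set C : V → V → V → V → Prop := fun a b c d => (a ∈ U ∧ b ∈ U ∧ c ∈ U ∧ d ∈ U) ∧
    (a ≠ b ∧ a ≠ c ∧ a ≠ d ∧ b ≠ c ∧ b ≠ d ∧ c ≠ d) ∧ K4 F a b c d ∧
    ¬ MChain f 0 (S ∪ {a, b}) (T \ {c, d}) with hC
  have ptC : ∀ a b c d, C a b c d → Pt f S T 2 {a, b} {c, d} := fun a b c d hc =>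
    pt_of h hir H hc.1 hc.2.1 hc.2.2.1
  have totC : ∀ a b c d, C a b c d → Tot f S T 2 {a, b} {c, d} := fun a b c d hc =>
    (dichotomy h hST hS hT (ptC a b c d hc)).resolve_left hc.2.2.2
  -- a point
  obtain ⟨a, b, c, d, mU, ne, hK⟩ : ∃ a b c d, (a ∈ U ∧ b ∈ U ∧ c ∈ U ∧ d ∈ U) ∧
      (a ≠ b ∧ a ≠ c ∧ a ≠ d ∧ b ≠ c ∧ b ≠ d ∧ c ≠ d) ∧ K4 F a b c d := by
    refine exi G ?_
    by_contra hcon
    refine hno (opp_of_one h hir fun X h1 h2 => ?_)
    by_contra h3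
    rw [not_or, not_le, not_le] at h3
    refine hcon ⟨X \ S, Finset.sdiff_subset_sdiff h2 (Finset.Subset.refl _), ?_, ?_⟩
    · refine G.two_le ?_
      unfold gf
      rw [Finset.union_sdiff_of_subset h1]
      exact h3.1
    · refine G.two_le ?_
      unfold gf
      have e : U \ (X \ S) = (T \ X) := by
        ext i
        simp only [hU, Finset.mem_sdiff, not_and, not_not]
        constructor
        · rintro ⟨⟨h4, h5⟩, h6⟩
          exact ⟨h4, fun h7 => h5 (h6 h7)⟩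
        · rintro ⟨h4, h5⟩
          exact ⟨⟨h4, fun h6 => h5 (h1 h6)⟩, fun h6 => absurd h6 h5⟩
      rw [e]
      exact h3.2
  -- the system
  have sys : Sys F C U := by
    refine ⟨?_, ?_, ?_, ?_, ?_, ?_, ?_, ?_, ?_, ?_, ?_, ?_⟩
    · rintro X Y hX hY ⟨i, hi, i1, i2⟩ ⟨j, hj, j1, j2⟩
      exact (G.cross hX hY i1 i2 hj j1 j2).1
    · rintro X Y hX hY ⟨i, hi, i1, i2⟩ ⟨j, hj, j1, j2⟩
      exact (G.cross hX hY i1 i2 hj j1 j2).2
    · intro i hi
      obtain ⟨j, hj, hij⟩ : ∃ j ∈ U, j ≠ i := by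
        by_cases h1 : a = i
        · exact ⟨b, mU.2.1, fun h2 => ne.1 (h1.trans h2.symm)⟩
        · exact ⟨a, mU.1, h1⟩
      refine G.ff (Finset.singleton_subset_iff.2 hi) (Finset.mem_singleton_self _) hj
        (fun h0 => hij (Finset.mem_singleton.1 h0)) ?_
      have h1 := (G.up ∅ i).1
      rw [insert_empty_eq, G.e0] at h1
      linarith
    · intro i hi
      obtain ⟨j, hj, hij⟩ : ∃ j ∈ U, j ≠ i := by
        by_cases h1 : a = i
        · exact ⟨b, mU.2.1, fun h2 => ne.1 (h1.trans h2.symm)⟩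
        · exact ⟨a, mU.1, h1⟩
      refine G.ff (Finset.erase_subset _ _) (Finset.mem_erase.2 ⟨hij, hj⟩) hi
        (Finset.notMem_erase _ _) ?_
      have h1 := (G.up (U.erase i) i).2
      rw [Finset.insert_erase hi, G.e1] at h1
      linarith
    · rintro a b c d ⟨⟨m1, m2, m3, m4⟩, ⟨n1, n2, n3, n4, n5, n6⟩, k, hm⟩
      exact ⟨⟨m2, m1, m3, m4⟩, ⟨n1.symm, n4, n5, n2, n3, n6⟩, k.a,
        by rw [Finset.pair_comm b a]; exact hm⟩
    · rintro a b c d ⟨⟨m1, m2, m3, m4⟩, ⟨n1, n2, n3, n4, n5, n6⟩, k, hm⟩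
      exact ⟨⟨m1, m2, m4, m3⟩, ⟨n1, n3, n2, n5, n4, n6.symm⟩, k.n,
        by rw [Finset.pair_comm d c]; exact hm⟩
    · exact fun a b c d hc => hc.1
    · exact fun a b c d hc => hc.2.1
    · exact fun a b c d hc => hc.2.2.1
    · intro a b c d hc hc'
      exact hc'.2.2.2 (tot_chain hST (ptC _ _ _ _ hc) (totC _ _ _ _ hc))
    · intro a b c d z hc hz za zb zc zd hk
      have hp := ptC _ _ _ _ hc
      have ht := totC _ _ _ _ hc
      obtain ⟨⟨m1, m2, m3, m4⟩, ⟨n1, n2, n3, n4, n5, n6⟩, k, hm⟩ := hc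
      have mU' : z ∈ U ∧ b ∈ U ∧ c ∈ U ∧ d ∈ U := ⟨hz, m2, m3, m4⟩
      have ne' : z ≠ b ∧ z ≠ c ∧ z ≠ d ∧ b ≠ c ∧ b ≠ d ∧ c ≠ d := ⟨zb, zc, zd, n4, n5, n6⟩
      have hq := pt_of h hir H mU' ne' hk
      refine ⟨mU', ne', hk, fun hm' => ?_⟩
      have hmove : Move f S T 2 (({a, b} : Finset V), ({c, d} : Finset V))
          (({z, b} : Finset V), ({c, d} : Finset V)) := by
        refine ⟨hq, z, hz, by simp [za, zb], by simp [zc, zd], Or.inl ⟨a, by simp, ?_, rfl⟩⟩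
        simp only
        rw [Finset.erase_insert (by simp [n1])]
      exact R _ _ hq hm' (move_chain h hST hS hT (p := (({a, b} : Finset V), ({c, d} : Finset V)))
        (q := (({z, b} : Finset V), ({c, d} : Finset V))) hp ht hmove)
    · intro a b c d z hc hz za zb zc zd hk
      have hp := ptC _ _ _ _ hc
      have ht := totC _ _ _ _ hc
      obtain ⟨⟨m1, m2, m3, m4⟩, ⟨n1, n2, n3, n4, n5, n6⟩, k, hm⟩ := hc
      have mU' : a ∈ U ∧ b ∈ U ∧ z ∈ U ∧ d ∈ U := ⟨m1, m2, hz, m4⟩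
      have ne' : a ≠ b ∧ a ≠ z ∧ a ≠ d ∧ b ≠ z ∧ b ≠ d ∧ z ≠ d :=
        ⟨n1, za.symm, n3, zb.symm, n5, zd⟩
      have hq := pt_of h hir H mU' ne' hk
      refine ⟨mU', ne', hk, fun hm' => ?_⟩
      have hmove : Move f S T 2 (({a, b} : Finset V), ({c, d} : Finset V))
          (({a, b} : Finset V), ({z, d} : Finset V)) := by
        refine ⟨hq, z, hz, by simp [za, zb], by simp [zc, zd], Or.inr ⟨c, by simp, rfl, ?_⟩⟩
        simp only
        rw [Finset.erase_insert (by simp [n6])]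
      exact R _ _ hq hm' (move_chain h hST hS hT (p := (({a, b} : Finset V), ({c, d} : Finset V)))
        (q := (({a, b} : Finset V), ({z, d} : Finset V))) hp ht hmove)
  -- the block property
  have blk : Blk F C U := by
    intro a b c d hc
    have hp := ptC _ _ _ _ hc
    have ht := totC _ _ _ _ hc
    obtain ⟨⟨m1, m2, m3, m4⟩, ⟨n1, n2, n3, n4, n5, n6⟩, k, hm⟩ := hc
    have s1 := sub_aux hST hp.hA hp.hN hp.dis
    have vA : f (S ∪ {a, b}) = 2 := by
      refine le_antisymm ?_ (by exact_mod_cast hp.lo _ (Finset.Subset.refl _) s1)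
      have h1 := (h.up (Finset.subset_union_left (s₁ := S) (s₂ := ({a, b} : Finset V)))).1
      have h2 : #((S ∪ {a, b}) \ S) ≤ 2 := by
        rw [Finset.union_sdiff_left]
        exact (Finset.card_le_card Finset.sdiff_subset).trans (by rw [hp.cA])
      have h3 : ((#((S ∪ {a, b}) \ S) : ℕ) : ℝ) ≤ 2 := by exact_mod_cast h2
      rw [hS] at h1
      linarith
    have vN : f (T \ {c, d}) = 2 := by
      refine le_antisymm ?_ (by exact_mod_cast hp.lo _ s1 (Finset.Subset.refl _))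
      have h1 := (h.up (Finset.sdiff_subset (s := T) (t := ({c, d} : Finset V)))).2
      rw [hT, Finset.sdiff_sdiff_eq_self (hp.hN.trans Finset.sdiff_subset), hp.cN] at h1
      push_cast at h1
      linarith
    obtain ⟨z, hz, w, hw, zA, wA, wz, hsep⟩ := block (g := f) (k := 2) s1
      (fun X Y _ _ _ _ => h.sub X Y) (fun X h1 h2 => by exact_mod_cast hp.lo X h1 h2) vA vN hm
    have pz : ∀ z, z ∈ T \ {c, d} → z ∉ S ∪ {a, b} → z ∈ U ∧ (z ≠ a ∧ z ≠ b ∧ z ≠ c ∧ z ≠ d) := by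
      intro z hz hz'
      rw [Finset.mem_sdiff, Finset.mem_insert, Finset.mem_singleton, not_or] at hz
      rw [Finset.mem_union, Finset.mem_insert, Finset.mem_singleton, not_or, not_or] at hz'
      exact ⟨Finset.mem_sdiff.2 ⟨hz.1, hz'.1⟩, hz'.2.1, hz'.2.2, hz.2.1, hz.2.2⟩
    obtain ⟨zU, zne⟩ := pz z hz zA
    obtain ⟨wU, wne⟩ := pz w hw wA
    have conv : ∀ X, X ⊆ U → a ∈ X → b ∈ X → c ∉ X → d ∉ X →
        S ∪ {a, b} ⊆ S ∪ X ∧ S ∪ X ⊆ T \ {c, d} := by
      intro X x1 x2 x3 x4 x5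
      constructor
      · refine Finset.union_subset_union (Finset.Subset.refl _) fun i hi => ?_
        rw [Finset.mem_insert, Finset.mem_singleton] at hi
        rcases hi with rfl | rfl <;> assumption
      · intro i hi
        rw [Finset.mem_sdiff, Finset.mem_insert, Finset.mem_singleton, not_or]
        rcases Finset.mem_union.1 hi with h1 | h1
        · exact ⟨hST h1, fun h2 => (Finset.mem_sdiff.1 m3).2 (h2 ▸ h1),
            fun h2 => (Finset.mem_sdiff.1 m4).2 (h2 ▸ h1)⟩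
        · exact ⟨(Finset.mem_sdiff.1 (x1 h1)).1, fun h2 => x4 (h2 ▸ h1), fun h2 => x5 (h2 ▸ h1)⟩
    have pr : ∀ z w, (∀ W, S ∪ {a, b} ⊆ W → W ⊆ T \ {c, d} → f W = 2 → (z ∈ W ↔ w ∈ W)) →
        z ∈ U → w ∈ U → Pr (gf f S) U a b c d z w := by
      intro z w hs zU wU X x1 x2 x3 x4 x5 x6
      obtain ⟨h1, h2⟩ := conv X x1 x2 x3 x4 x5
      have h3 := hs _ h1 h2 x6
      rw [Finset.mem_union, Finset.mem_union] at h3
      have h4 := (Finset.mem_sdiff.1 zU).2
      have h5 := (Finset.mem_sdiff.1 wU).2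
      tauto
    have ho : To (gf f S) U a b c d := by
      intro X x1 x2 x3 x4 x5
      unfold gf
      have h1 := ht (S ∪ X) ?_ ?_
      · rw [h1]; norm_num
      · refine Finset.union_subset_union (Finset.Subset.refl _) fun i hi => ?_
        rw [Finset.mem_insert, Finset.mem_singleton] at hi
        rcases hi with rfl | rfl <;> assumption
      · intro i hi
        rw [Finset.mem_sdiff, Finset.mem_insert, Finset.mem_singleton, not_or]
        rcases Finset.mem_union.1 hi with h1 | h1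
        · exact ⟨hST h1, fun h2 => (Finset.mem_sdiff.1 m1).2 (h2 ▸ h1),
            fun h2 => (Finset.mem_sdiff.1 m2).2 (h2 ▸ h1)⟩
        · exact ⟨(Finset.mem_sdiff.1 (x1 h1)).1, fun h2 => x2 (h2 ▸ h1), fun h2 => x3 (h2 ▸ h1)⟩
    have p1 := pr z w hsep zU wU
    have p2 := pr w z (fun W w1 w2 w3 => (hsep W w1 w2 w3).symm) wU zU
    exact ⟨z, w, wz.symm,
      inZ_of G ⟨m1, m2, m3, m4⟩ ⟨n1, n2, n3, n4, n5, n6⟩ zU zne wne wz k ho p1,
      inZ_of G ⟨m1, m2, m3, m4⟩ ⟨n1, n2, n3, n4, n5, n6⟩ wU wne zne wz.symm k ho p2,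
      noSep_of G ⟨m1, m2, m3, m4⟩ ⟨n1, n2, n3, n4, n5, n6⟩ zne wne k p1⟩
  -- one of the two directions is bad
  have hp := pt_of h hir H mU ne hK
  by_cases h1 : MChain f 0 (S ∪ {a, b}) (T \ {c, d})
  · by_cases h2 : MChain f 0 (S ∪ {c, d}) (T \ {a, b})
    · exact R _ _ hp h1 h2
    · obtain ⟨m1, m2, m3, m4⟩ := mU
      obtain ⟨n1, n2, n3, n4, n5, n6⟩ := ne
      exact core sys blk c d a b ⟨⟨m3, m4, m1, m2⟩,
        ⟨n6, n2.symm, n4.symm, n3.symm, n5.symm, n1⟩, hK.s, h2⟩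
  · exact core sys blk a b c d ⟨mU, ne, hK, h1⟩

end Pool.Agent.H12.Fr
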