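import Pool.Agent.H12.Fr.Core
import Pool.Agent.H54.Frank.Cases

/-!
# The family of the sets of value one

`g` is the restriction of `f` to an irreducible component, `U` the component (as a minor).
-/

set_option autoImplicit false
set_option maxHeartbeats 4000000

open Finset

namespace Pool.Agent.H12.Fr

variable {V : Type*} [DecidableEq V]

/-- the properties of `f` on a component -/
structure Gd (g : Finset V → ℝ) (U : Finset V) : Prop where
  sub : ∀ X Y, g (X ∪ Y) + g (X ∩ Y) ≤ g X + g Y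
  e0 : g ∅ = 0
  e1 : g U = 0
  pos : ∀ X, X ⊆ U → X.Nonempty → X ≠ U → 1 ≤ g X
  up : ∀ X i, g (insert i X) ≤ g X + 1 ∧ g X ≤ g (insert i X) + 1
  int : ∀ X, ∃ n : ℤ, g X = n

/-- the sets of value one -/
def FF (g : Finset V → ℝ) (U X : Finset V) : Prop := X ⊆ U ∧ X.Nonempty ∧ X ≠ U ∧ g X = 1

lemma Gd.two_le {g : Finset V → ℝ} {U : Finset V} (h : Gd g U) {X : Finset V} (hX : 1 < g X) :
    2 ≤ g X := by
  obtain ⟨n, hn⟩ := h.int X
  rw [hn] at hX ⊢
  have : 1 < n := by exact_mod_cast hX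
  exact_mod_cast this

lemma Gd.three_le {g : Finset V → ℝ} {U : Finset V} (h : Gd g U) {X : Finset V}
    (hX : 2 < g X) : 3 ≤ g X := by
  obtain ⟨n, hn⟩ := h.int X
  rw [hn] at hX ⊢
  have : 2 < n := by exact_mod_cast hX
  exact_mod_cast this

/-- a set meeting `U` properly with value below two has value one -/
lemma Gd.ff {g : Finset V → ℝ} {U : Finset V} (h : Gd g U) {X : Finset V} (hX : X ⊆ U)
    {p q : V} (hp : p ∈ X) (hq : q ∈ U) (hq' : q ∉ X) (hv : g X < 2) : FF g U X := by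
  have h1 : X ≠ U := fun h0 => hq' (h0 ▸ hq)
  have h2 := h.pos X hX ⟨p, hp⟩ h1
  refine ⟨hX, ⟨p, hp⟩, h1, le_antisymm ?_ h2⟩
  by_contra h3
  push Not at h3
  linarith [h.two_le h3]

lemma Gd.ge_one {g : Finset V → ℝ} {U : Finset V} (h : Gd g U) {X : Finset V} (hX : X ⊆ U)
    {p q : V} (hp : p ∈ X) (hq : q ∈ U) (hq' : q ∉ X) : 1 ≤ g X :=
  h.pos X hX ⟨p, hp⟩ fun h0 => hq' (h0 ▸ hq)

/-- crossing -/
lemma Gd.cross {g : Finset V → ℝ} {U : Finset V} (h : Gd g U) {X Y : Finset V}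
    (hX : FF g U X) (hY : FF g U Y) {p q : V} (hpX : p ∈ X) (hpY : p ∈ Y) (hq : q ∈ U)
    (hqX : q ∉ X) (hqY : q ∉ Y) : FF g U (X ∩ Y) ∧ FF g U (X ∪ Y) := by
  have h1 := h.sub X Y
  rw [hX.2.2.2, hY.2.2.2] at h1
  have hi : X ∩ Y ⊆ U := Finset.inter_subset_left.trans hX.1
  have hu : X ∪ Y ⊆ U := Finset.union_subset hX.1 hY.1
  have hpi : p ∈ X ∩ Y := Finset.mem_inter.2 ⟨hpX, hpY⟩
  have hpu : p ∈ X ∪ Y := Finset.mem_union_left _ hpX
  have hqi : q ∉ X ∩ Y := fun h0 => hqX (Finset.mem_inter.1 h0).1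
  have hqu : q ∉ X ∪ Y := fun h0 => (Finset.mem_union.1 h0).elim hqX hqY
  have h2 := h.ge_one hi hpi hq hqi
  have h3 := h.ge_one hu hpu hq hqu
  exact ⟨h.ff hi hpi hq hqi (by linarith), h.ff hu hpu hq hqu (by linarith)⟩

end Pool.Agent.H12.Fr
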