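import Pool.Agent.H12.Fr.Fct

/-!
# Persistence of the roles (finite part)
-/

set_option autoImplicit false
set_option maxHeartbeats 4000000

open Finset

namespace Pool.Agent.H12.Fr

variable {V : Type*} [DecidableEq V]

/-- `z` is a target of the second and fourth token only -/
def Pz (F : Finset V → Prop) (a b c d z : V) : Prop :=
  K4 F a z c d ∧ ¬ K4 F z b c d ∧ K4 F a b c z ∧ ¬ K4 F a b z d

/-- `u` is a target of the first token and of one of the last two, not of the second -/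
def Pu (F : Finset V → Prop) (a b c d u : V) : Prop :=
  K4 F u b c d ∧ ¬ K4 F a u c d ∧ (K4 F a b u d ∨ K4 F a b c u)

omit [DecidableEq V] in
lemma kt {F : Finset V → Prop} {C : V → V → V → V → Prop} {e : ℕ → V} {m : ℕ} {i j k l : ℕ}
    (hb : i < 8 ∧ j < 8 ∧ k < 8 ∧ l < 8) (h : K4 F (e i) (e j) (e k) (e l)) :
    ∃ x ∈ [(kn i j k l, true)], lv F C e m x :=
  sg (lvt.2 ((val_kn hb.1 hb.2.1 hb.2.2.1 hb.2.2.2).2 h))

omit [DecidableEq V] in
lemma kg {F : Finset V → Prop} {C : V → V → V → V → Prop} {e : ℕ → V} {m : ℕ} {i j k l : ℕ}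
    (hb : i < 8 ∧ j < 8 ∧ k < 8 ∧ l < 8) (h : ¬ K4 F (e i) (e j) (e k) (e l)) :
    ∃ x ∈ [(kn i j k l, false)], lv F C e m x :=
  sg (lvf.2 (fun h0 => h ((val_kn hb.1 hb.2.1 hb.2.2.1 hb.2.2.2).1 h0)))

omit [DecidableEq V] in
lemma k2 {F : Finset V → Prop} {C : V → V → V → V → Prop} {e : ℕ → V} {m : ℕ}
    {i j k l i' j' k' l' : ℕ} (hb : i < 8 ∧ j < 8 ∧ k < 8 ∧ l < 8)
    (hb' : i' < 8 ∧ j' < 8 ∧ k' < 8 ∧ l' < 8)
    (h : K4 F (e i) (e j) (e k) (e l) ∨ K4 F (e i') (e j') (e k') (e l')) :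
    ∃ x ∈ [(kn i j k l, true), (kn i' j' k' l', true)], lv F C e m x :=
  sg2 (h.imp (fun h0 => lvt.2 ((val_kn hb.1 hb.2.1 hb.2.2.1 hb.2.2.2).2 h0))
    (fun h0 => lvt.2 ((val_kn hb'.1 hb'.2.1 hb'.2.2.1 hb'.2.2.2).2 h0)))

lemma factS2a {F : Finset V → Prop} {C : V → V → V → V → Prop} {U : Finset V}
    (h : Sys F C U) {a b c d z w : V} (hC : C a b c d) (nd : [a, b, c, d, z, w].Nodup)
    (hz : z ∈ U) (hw : w ∈ U)
    (pz : Pz F a b c d z) (pw : Pz F a b c d w)
    (q0 : Pu F a b c z d)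
    (q1 : Pu F a b c z w) : False := by
  obtain ⟨m1, m2, m3, m4⟩ := h.mem _ _ _ _ hC
  have E : Env F C U (fun i => [a, b, c, d, z, w].getD i a) 6 true := by
    refine env_of h _ _ 6 rfl nd ?_ (by norm_num) (fun _ => s1_of h) (fun _ => s1'_of h)
    simp only [List.mem_cons, List.not_mem_nil, or_false, forall_eq_or_imp, forall_eq]
    exact ⟨m1, m2, m3, m4, hz, hw⟩
  refine sound E (H := hyS2a) ?_ trS2a 0 0 inv_zero ckS2a
  simp only [hyS2a, List.forall_mem_cons]
  refine ⟨sg (lvt.2 ((val_cn h.symA h.symN (by norm_num) (by norm_num) (by norm_num)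
    (by norm_num)).2 hC)),
    kt (by decide) pz.1,
    kg (by decide) pz.2.1,
    kt (by decide) pz.2.2.1,
    kg (by decide) pz.2.2.2,
    kt (by decide) pw.1,
    kg (by decide) pw.2.1,
    kt (by decide) pw.2.2.1,
    kg (by decide) pw.2.2.2,
    kt (by decide) q0.1,
    kg (by decide) q0.2.1,
    k2 (by decide) (by decide) q0.2.2,
    kt (by decide) q1.1,
    kg (by decide) q1.2.1,
    k2 (by decide) (by decide) q1.2.2,
    by simp⟩

lemma factS2b {F : Finset V → Prop} {C : V → V → V → V → Prop} {U : Finset V}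
    (h : Sys F C U) {a b c d z w u : V} (hC : C a b c d) (nd : [a, b, c, d, z, w, u].Nodup)
    (hz : z ∈ U) (hw : w ∈ U) (hu : u ∈ U)
    (pz : Pz F a b c d z) (pw : Pz F a b c d w)
    (q0 : Pu F a b c z d)
    (q1 : Pu F a b c z u) : False := by
  obtain ⟨m1, m2, m3, m4⟩ := h.mem _ _ _ _ hC
  have E : Env F C U (fun i => [a, b, c, d, z, w, u].getD i a) 7 true := by
    refine env_of h _ _ 7 rfl nd ?_ (by norm_num) (fun _ => s1_of h) (fun _ => s1'_of h)
    simp only [List.mem_cons, List.not_mem_nil, or_false, forall_eq_or_imp, forall_eq]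
    exact ⟨m1, m2, m3, m4, hz, hw, hu⟩
  refine sound E (H := hyS2b) ?_ trS2b 0 0 inv_zero ckS2b
  simp only [hyS2b, List.forall_mem_cons]
  refine ⟨sg (lvt.2 ((val_cn h.symA h.symN (by norm_num) (by norm_num) (by norm_num)
    (by norm_num)).2 hC)),
    kt (by decide) pz.1,
    kg (by decide) pz.2.1,
    kt (by decide) pz.2.2.1,
    kg (by decide) pz.2.2.2,
    kt (by decide) pw.1,
    kg (by decide) pw.2.1,
    kt (by decide) pw.2.2.1,
    kg (by decide) pw.2.2.2,
    kt (by decide) q0.1,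
    kg (by decide) q0.2.1,
    k2 (by decide) (by decide) q0.2.2,
    kt (by decide) q1.1,
    kg (by decide) q1.2.1,
    k2 (by decide) (by decide) q1.2.2,
    by simp⟩

lemma factS2c {F : Finset V → Prop} {C : V → V → V → V → Prop} {U : Finset V}
    (h : Sys F C U) {a b c d z w u : V} (hC : C a b c d) (nd : [a, b, c, d, z, w, u].Nodup)
    (hz : z ∈ U) (hw : w ∈ U) (hu : u ∈ U)
    (pz : Pz F a b c d z) (pw : Pz F a b c d w)
    (q0 : Pu F a b c z w)
    (q1 : Pu F a b c z u) : False := by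
  obtain ⟨m1, m2, m3, m4⟩ := h.mem _ _ _ _ hC
  have E : Env F C U (fun i => [a, b, c, d, z, w, u].getD i a) 7 true := by
    refine env_of h _ _ 7 rfl nd ?_ (by norm_num) (fun _ => s1_of h) (fun _ => s1'_of h)
    simp only [List.mem_cons, List.not_mem_nil, or_false, forall_eq_or_imp, forall_eq]
    exact ⟨m1, m2, m3, m4, hz, hw, hu⟩
  refine sound E (H := hyS2c) ?_ trS2c 0 0 inv_zero ckS2c
  simp only [hyS2c, List.forall_mem_cons]
  refine ⟨sg (lvt.2 ((val_cn h.symA h.symN (by norm_num) (by norm_num) (by norm_num)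
    (by norm_num)).2 hC)),
    kt (by decide) pz.1,
    kg (by decide) pz.2.1,
    kt (by decide) pz.2.2.1,
    kg (by decide) pz.2.2.2,
    kt (by decide) pw.1,
    kg (by decide) pw.2.1,
    kt (by decide) pw.2.2.1,
    kg (by decide) pw.2.2.2,
    kt (by decide) q0.1,
    kg (by decide) q0.2.1,
    k2 (by decide) (by decide) q0.2.2,
    kt (by decide) q1.1,
    kg (by decide) q1.2.1,
    k2 (by decide) (by decide) q1.2.2,
    by simp⟩

lemma factS2d {F : Finset V → Prop} {C : V → V → V → V → Prop} {U : Finset V}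
    (h : Sys F C U) {a b c d z w u v : V} (hC : C a b c d) (nd : [a, b, c, d, z, w, u, v].Nodup)
    (hz : z ∈ U) (hw : w ∈ U) (hu : u ∈ U) (hv : v ∈ U)
    (pz : Pz F a b c d z) (pw : Pz F a b c d w)
    (q0 : Pu F a b c z u)
    (q1 : Pu F a b c z v) : False := by
  obtain ⟨m1, m2, m3, m4⟩ := h.mem _ _ _ _ hC
  have E : Env F C U (fun i => [a, b, c, d, z, w, u, v].getD i a) 8 true := by
    refine env_of h _ _ 8 rfl nd ?_ (by norm_num) (fun _ => s1_of h) (fun _ => s1'_of h)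
    simp only [List.mem_cons, List.not_mem_nil, or_false, forall_eq_or_imp, forall_eq]
    exact ⟨m1, m2, m3, m4, hz, hw, hu, hv⟩
  refine sound E (H := hyS2d) ?_ trS2d 0 0 inv_zero ckS2d
  simp only [hyS2d, List.forall_mem_cons]
  refine ⟨sg (lvt.2 ((val_cn h.symA h.symN (by norm_num) (by norm_num) (by norm_num)
    (by norm_num)).2 hC)),
    kt (by decide) pz.1,
    kg (by decide) pz.2.1,
    kt (by decide) pz.2.2.1,
    kg (by decide) pz.2.2.2,
    kt (by decide) pw.1,
    kg (by decide) pw.2.1,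
    kt (by decide) pw.2.2.1,
    kg (by decide) pw.2.2.2,
    kt (by decide) q0.1,
    kg (by decide) q0.2.1,
    k2 (by decide) (by decide) q0.2.2,
    kt (by decide) q1.1,
    kg (by decide) q1.2.1,
    k2 (by decide) (by decide) q1.2.2,
    by simp⟩

lemma factS3 {F : Finset V → Prop} {C : V → V → V → V → Prop} {U : Finset V}
    (h : Sys F C U) {a b c d z w u v : V} (hC : C a b c d) (nd : [a, b, c, d, z, w, u, v].Nodup)
    (hz : z ∈ U) (hw : w ∈ U) (hu : u ∈ U) (hv : v ∈ U)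
    (pz : Pz F a b c d z) (pw : Pz F a b c d w)
    (q0 : Pu F a z c d u)
    (q1 : Pu F a z c d v) : False := by
  obtain ⟨m1, m2, m3, m4⟩ := h.mem _ _ _ _ hC
  have E : Env F C U (fun i => [a, b, c, d, z, w, u, v].getD i a) 8 true := by
    refine env_of h _ _ 8 rfl nd ?_ (by norm_num) (fun _ => s1_of h) (fun _ => s1'_of h)
    simp only [List.mem_cons, List.not_mem_nil, or_false, forall_eq_or_imp, forall_eq]
    exact ⟨m1, m2, m3, m4, hz, hw, hu, hv⟩
  refine sound E (H := hyS3) ?_ trS3 0 0 inv_zero ckS3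
  simp only [hyS3, List.forall_mem_cons]
  refine ⟨sg (lvt.2 ((val_cn h.symA h.symN (by norm_num) (by norm_num) (by norm_num)
    (by norm_num)).2 hC)),
    kt (by decide) pz.1,
    kg (by decide) pz.2.1,
    kt (by decide) pz.2.2.1,
    kg (by decide) pz.2.2.2,
    kt (by decide) pw.1,
    kg (by decide) pw.2.1,
    kt (by decide) pw.2.2.1,
    kg (by decide) pw.2.2.2,
    kt (by decide) q0.1,
    kg (by decide) q0.2.1,
    k2 (by decide) (by decide) q0.2.2,
    kt (by decide) q1.1,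
    kg (by decide) q1.2.1,
    k2 (by decide) (by decide) q1.2.2,
    by simp⟩

end Pool.Agent.H12.Fr
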