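import Pool.Agent.H12.Fr.Pers

/-!
# Roles of the four elements and their persistence
-/

set_option autoImplicit false
set_option maxHeartbeats 4000000

open Finset

namespace Pool.Agent.H12.Fr

variable {V : Type*} [DecidableEq V]

/-- `z` is a target of one of the first two and of one of the last two tokens -/
def InZ (F : Finset V → Prop) (U : Finset V) (a b c d z : V) : Prop :=
  z ∈ U ∧ (z ≠ a ∧ z ≠ b ∧ z ≠ c ∧ z ≠ d) ∧ (K4 F z b c d ∨ K4 F a z c d) ∧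
    (K4 F a b z d ∨ K4 F a b c z)

/-- among the first two tokens only the second moves to the common targets -/
def RA (F : Finset V → Prop) (U : Finset V) (a b c d : V) : Prop :=
  ∀ z, InZ F U a b c d z → ¬ K4 F z b c d ∧ K4 F a z c d

/-- among the last two tokens only the second moves to the common targets -/
def RN (F : Finset V → Prop) (U : Finset V) (a b c d : V) : Prop :=
  ∀ z, InZ F U a b c d z → ¬ K4 F a b z d ∧ K4 F a b c z

/-- there are two common targets -/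
def Two (F : Finset V → Prop) (C : V → V → V → V → Prop) (U : Finset V) : Prop :=
  ∀ a b c d, C a b c d → ∃ z w, z ≠ w ∧ InZ F U a b c d z ∧ InZ F U a b c d w

omit [DecidableEq V] in
lemma InZ.a {F : Finset V → Prop} {U : Finset V} {a b c d z : V} (h : InZ F U a b c d z) :
    InZ F U b a c d z := by
  obtain ⟨h1, ⟨h2, h3, h4, h5⟩, h6, h7⟩ := h
  exact ⟨h1, ⟨h3, h2, h4, h5⟩, h6.symm.imp K4.a K4.a, h7.imp K4.a K4.a⟩

omit [DecidableEq V] in
lemma InZ.s {F : Finset V → Prop} {U : Finset V} {a b c d z : V} (h : InZ F U a b c d z) :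
    InZ F U c d a b z := by
  obtain ⟨h1, ⟨h2, h3, h4, h5⟩, h6, h7⟩ := h
  exact ⟨h1, ⟨h4, h5, h2, h3⟩, h7.imp K4.s K4.s, h6.imp K4.s K4.s⟩

omit [DecidableEq V] in
lemma RN_iff {F : Finset V → Prop} {U : Finset V} {a b c d : V} :
    RN F U a b c d ↔ RA F U c d a b := by
  constructor
  · intro h z hz
    have h1 := h z hz.s
    exact ⟨fun h2 => h1.1 h2.s, h1.2.s⟩
  · intro h z hz
    have h1 := h z hz.s
    exact ⟨fun h2 => h1.1 h2.s, h1.2.s⟩

omit [DecidableEq V] in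
lemma RA_iff {F : Finset V → Prop} {U : Finset V} {a b c d : V} :
    RA F U a b c d ↔ RN F U c d a b := RN_iff.symm

omit [DecidableEq V] in
lemma Two.swap {F : Finset V → Prop} {C : V → V → V → V → Prop} {U : Finset V}
    (h : Two F C U) : Two F (fun a b c d => C c d a b) U := by
  intro a b c d hC
  obtain ⟨z, w, h1, h2, h3⟩ := h _ _ _ _ hC
  exact ⟨z, w, h1, h2.s, h3.s⟩

lemma role_A {F : Finset V → Prop} {C : V → V → V → V → Prop} {U : Finset V}
    (h : Sys F C U) (two : Two F C U) {a b c d : V} (hC : C a b c d) :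
    RA F U a b c d ∨ RA F U b a c d := by
  by_contra hcon
  push Not at hcon
  obtain ⟨h1, h2⟩ := hcon
  unfold RA at h1 h2
  push Not at h1 h2
  obtain ⟨z, hz, hz'⟩ := h1
  obtain ⟨w, hw, hw'⟩ := h2
  have kz : K4 F z b c d := by
    by_contra h3
    exact hz' h3 (hz.2.2.1.resolve_left h3)
  have hw := hw.a
  have kw : K4 F a w c d := by
    by_contra h3
    have h4 := hw.2.2.1.resolve_right h3
    exact hw' (fun h5 => h3 h5.a) h4.a
  have s1 := s1_of h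
  have key : ∀ z w, InZ F U a b c d z → InZ F U a b c d w → z ≠ w → K4 F z b c d →
      K4 F a w c d → False := by
    intro z w hz hw hzw k1 k2
    exact s1 a b c d z w hC hz.1 hw.1 hz.2.1.1 hz.2.1.2.1 hz.2.1.2.2.1 hz.2.1.2.2.2 hw.2.1.1
      hw.2.1.2.1 hw.2.1.2.2.1 hw.2.1.2.2.2 hzw hz.2.2.2 hw.2.2.2 k1 k2
  by_cases hzw : z = w
  · subst hzw
    obtain ⟨u, v, huv, hu, hv⟩ := two _ _ _ _ hC
    obtain ⟨t, htz, ht⟩ : ∃ t, t ≠ z ∧ InZ F U a b c d t := by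
      by_cases h3 : u = z
      · exact ⟨v, fun h4 => huv (h3.trans h4.symm), hv⟩
      · exact ⟨u, h3, hu⟩
    rcases ht.2.2.1 with h4 | h4
    · exact key t z ht hz htz h4 kw
    · exact key z t hz ht htz.symm kz h4
  · exact key z w hz hw hzw kz kw

/-- another target -/
lemma other {F : Finset V → Prop} {C : V → V → V → V → Prop} {U : Finset V}
    (two : Two F C U) {a b c d : V} (hC : C a b c d) (z : V) :
    ∃ t, t ≠ z ∧ InZ F U a b c d t := by
  obtain ⟨u, v, huv, hu, hv⟩ := two _ _ _ _ hC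
  by_cases h3 : u = z
  · exact ⟨v, fun h4 => huv (h3.trans h4.symm), hv⟩
  · exact ⟨u, h3, hu⟩

lemma slideN {F : Finset V → Prop} {C : V → V → V → V → Prop} {U : Finset V}
    (h : Sys F C U) {a b c d z : V} (hC : C a b c d) (hz : InZ F U a b c d z)
    (hk : K4 F a b c z) : C a b c z := by
  obtain ⟨h1, ⟨h2, h3, h4, h5⟩, -⟩ := hz
  exact h.symN _ _ _ _ (h.slN _ _ _ _ z (h.symN _ _ _ _ hC) h1 h2 h3 h5 h4 hk.n)

lemma slideA {F : Finset V → Prop} {C : V → V → V → V → Prop} {U : Finset V}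
    (h : Sys F C U) {a b c d z : V} (hC : C a b c d) (hz : InZ F U a b c d z)
    (hk : K4 F a z c d) : C a z c d := by
  obtain ⟨h1, ⟨h2, h3, h4, h5⟩, -⟩ := hz
  exact h.symA _ _ _ _ (h.slA _ _ _ _ z (h.symA _ _ _ _ hC) h1 h3 h2 h4 h5 hk.a)

/-- **Second fact.** -/
theorem pers_nA {F : Finset V → Prop} {C : V → V → V → V → Prop} {U : Finset V}
    (h : Sys F C U) (two : Two F C U) {a b c d z : V} (hC : C a b c d) (rA : RA F U a b c d)
    (rN : RN F U a b c d) (hz : InZ F U a b c d z) : RA F U a b c z := by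
  have hC' := slideN h hC hz (rN z hz).2
  rcases role_A h two hC' with h1 | h1
  · exact h1
  exfalso
  obtain ⟨w, hwz, hw⟩ := other two hC z
  have pz : Pz F a b c d z := ⟨(rA z hz).2, (rA z hz).1, (rN z hz).2, (rN z hz).1⟩
  have pw : Pz F a b c d w := ⟨(rA w hw).2, (rA w hw).1, (rN w hw).2, (rN w hw).1⟩
  obtain ⟨u, v, huv, hu, hv⟩ := two _ _ _ _ hC'
  have pu : ∀ u, InZ F U a b c z u → Pu F a b c z u := fun u hu =>
    ⟨(h1 u hu.a).2.a, fun h2 => (h1 u hu.a).1 h2.a, hu.2.2.2⟩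
  have qu := pu u hu
  have qv := pu v hv
  obtain ⟨n1, n2, n3, n4, n5, n6⟩ := h.ne _ _ _ _ hC
  obtain ⟨uU, ⟨u1, u2, u3, u4⟩, -⟩ := hu
  obtain ⟨vU, ⟨v1, v2, v3, v4⟩, -⟩ := hv
  obtain ⟨zU, ⟨z1, z2, z3, z4⟩, -⟩ := hz
  obtain ⟨wU, ⟨w1, w2, w3, w4⟩, -⟩ := hw
  have nd6 : [a, b, c, d, z, w].Nodup := by
    simp only [List.nodup_cons, List.mem_cons, List.not_mem_nil, or_false, not_or,
      List.nodup_nil, not_false_eq_true, and_true]
    exact ⟨⟨n1, n2, n3, z1.symm, w1.symm⟩, ⟨n4, n5, z2.symm, w2.symm⟩,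
      ⟨n6, z3.symm, w3.symm⟩, ⟨z4.symm, w4.symm⟩, hwz.symm⟩
  have nd7 : ∀ t, t ≠ a → t ≠ b → t ≠ c → t ≠ z → t ≠ d → t ≠ w →
      [a, b, c, d, z, w, t].Nodup := by
    intro t t1 t2 t3 t4 t5 t6
    simp only [List.nodup_cons, List.mem_cons, List.not_mem_nil, or_false, not_or,
      List.nodup_nil, not_false_eq_true, and_true]
    exact ⟨⟨n1, n2, n3, z1.symm, w1.symm, t1.symm⟩, ⟨n4, n5, z2.symm, w2.symm, t2.symm⟩,
      ⟨n6, z3.symm, w3.symm, t3.symm⟩, ⟨z4.symm, w4.symm, t5.symm⟩, ⟨hwz.symm, t4.symm⟩, t6.symm⟩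
  by_cases e1 : u = d
  · rw [e1] at qu huv
    by_cases e2 : v = w
    · rw [e2] at qv
      exact factS2a h hC nd6 zU wU pz pw qu qv
    · exact factS2b h hC (nd7 v v1 v2 v3 v4 huv.symm e2) zU wU vU pz pw qu qv
  by_cases e3 : u = w
  · rw [e3] at qu huv
    by_cases e2 : v = d
    · rw [e2] at qv
      exact factS2a h hC nd6 zU wU pz pw qv qu
    · exact factS2c h hC (nd7 v v1 v2 v3 v4 e2 huv.symm) zU wU vU pz pw qu qv
  by_cases e4 : v = d
  · rw [e4] at qv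
    exact factS2b h hC (nd7 u u1 u2 u3 u4 e1 e3) zU wU uU pz pw qv qu
  by_cases e5 : v = w
  · rw [e5] at qv
    exact factS2c h hC (nd7 u u1 u2 u3 u4 e1 e3) zU wU uU pz pw qv qu
  refine factS2d h hC ?_ zU wU uU vU pz pw qu qv
  simp only [List.nodup_cons, List.mem_cons, List.not_mem_nil, or_false, not_or,
    List.nodup_nil, not_false_eq_true, and_true]
  exact ⟨⟨n1, n2, n3, z1.symm, w1.symm, u1.symm, v1.symm⟩,
    ⟨n4, n5, z2.symm, w2.symm, u2.symm, v2.symm⟩, ⟨n6, z3.symm, w3.symm, u3.symm, v3.symm⟩,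
    ⟨z4.symm, w4.symm, Ne.symm e1, Ne.symm e4⟩, ⟨hwz.symm, u4.symm, v4.symm⟩,
    ⟨Ne.symm e3, Ne.symm e5⟩, huv⟩

/-- **Third fact.** -/
theorem pers_aA {F : Finset V → Prop} {C : V → V → V → V → Prop} {U : Finset V}
    (h : Sys F C U) (two : Two F C U) {a b c d z : V} (hC : C a b c d) (rA : RA F U a b c d)
    (rN : RN F U a b c d) (hz : InZ F U a b c d z) : RA F U a z c d := by
  have hC' := slideA h hC hz (rA z hz).2
  rcases role_A h two hC' with h1 | h1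
  · exact h1
  exfalso
  obtain ⟨w, hwz, hw⟩ := other two hC z
  have pz : Pz F a b c d z := ⟨(rA z hz).2, (rA z hz).1, (rN z hz).2, (rN z hz).1⟩
  have pw : Pz F a b c d w := ⟨(rA w hw).2, (rA w hw).1, (rN w hw).2, (rN w hw).1⟩
  obtain ⟨u, v, huv, hu, hv⟩ := two _ _ _ _ hC'
  have pu : ∀ u, InZ F U a z c d u → Pu F a z c d u := fun u hu =>
    ⟨(h1 u hu.a).2.a, fun h2 => (h1 u hu.a).1 h2.a, hu.2.2.2⟩
  have qu := pu u hu
  have qv := pu v hv
  have kC := h.ck _ _ _ _ hC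
  have ub : u ≠ b := fun h2 => qu.2.1 (h2 ▸ kC)
  have uw : u ≠ w := fun h2 => qu.2.1 (h2 ▸ pw.1)
  have vb : v ≠ b := fun h2 => qv.2.1 (h2 ▸ kC)
  have vw : v ≠ w := fun h2 => qv.2.1 (h2 ▸ pw.1)
  obtain ⟨n1, n2, n3, n4, n5, n6⟩ := h.ne _ _ _ _ hC
  obtain ⟨uU, ⟨u1, u2, u3, u4⟩, -⟩ := hu
  obtain ⟨vU, ⟨v1, v2, v3, v4⟩, -⟩ := hv
  obtain ⟨zU, ⟨z1, z2, z3, z4⟩, -⟩ := hz
  obtain ⟨wU, ⟨w1, w2, w3, w4⟩, -⟩ := hw
  refine factS3 h hC ?_ zU wU uU vU pz pw qu qv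
  simp only [List.nodup_cons, List.mem_cons, List.not_mem_nil, or_false, not_or,
    List.nodup_nil, not_false_eq_true, and_true]
  exact ⟨⟨n1, n2, n3, z1.symm, w1.symm, u1.symm, v1.symm⟩,
    ⟨n4, n5, z2.symm, w2.symm, ub.symm, vb.symm⟩, ⟨n6, z3.symm, w3.symm, u3.symm, v3.symm⟩,
    ⟨z4.symm, w4.symm, u4.symm, v4.symm⟩, ⟨hwz.symm, u2.symm, v2.symm⟩,
    ⟨uw.symm, vw.symm⟩, huv⟩

theorem pers_aN {F : Finset V → Prop} {C : V → V → V → V → Prop} {U : Finset V}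
    (h : Sys F C U) (two : Two F C U) {a b c d z : V} (hC : C a b c d) (rA : RA F U a b c d)
    (rN : RN F U a b c d) (hz : InZ F U a b c d z) : RN F U a z c d :=
  RN_iff.2 (pers_nA h.swap two.swap hC (RN_iff.1 rN) (RA_iff.1 rA) hz.s)

theorem pers_nN {F : Finset V → Prop} {C : V → V → V → V → Prop} {U : Finset V}
    (h : Sys F C U) (two : Two F C U) {a b c d z : V} (hC : C a b c d) (rA : RA F U a b c d)
    (rN : RN F U a b c d) (hz : InZ F U a b c d z) : RN F U a b c z :=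
  RN_iff.2 (pers_aA h.swap two.swap hC (RN_iff.1 rN) (RA_iff.1 rA) hz.s)

end Pool.Agent.H12.Fr
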