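import Pool.Agent.H12.Fr.Fin

/-!
# Components with at most six elements
-/

set_option autoImplicit false
set_option maxHeartbeats 4000000

open Finset

namespace Pool.Agent.H12.Fr

open Pool.Agent.H54.Frank

variable {V : Type*} [Fintype V] [DecidableEq V]

lemma Data3 {f : Finset V → ℝ} (h : Data f) {X : Finset V} (hX : 2 < f X) : 3 ≤ f X := by
  obtain ⟨n, hn⟩ := h.int X
  rw [hn] at hX ⊢
  have : 2 < n := by exact_mod_cast hX
  exact_mod_cast this

/-- irreducible components with at most six elements -/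
theorem opp_six {f : Finset V → ℝ} (h : Data f) {S T : Finset V} (hir : Irred f S T)
    (hm : #(T \ S) ≤ 6) : Opp f S T := by
  by_cases H : ∀ X, S ⊆ X → X ⊆ T → f X ≤ 2 ∨ f (S ∪ (T \ X)) ≤ 2
  · exact opp_of_two h hir H
  push Not at H
  obtain ⟨X, h1, h2, h3, h4⟩ := H
  have hST := hir.1.1
  have hS := hir.2.1
  have hT := hir.2.2.1
  have h3' := Data3 h h3
  have h4' := Data3 h h4
  have e1 := Finset.card_sdiff_add_card_eq_card h1
  have e2 := Finset.card_sdiff_add_card_eq_card h2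
  have e3 := Finset.card_sdiff_add_card_eq_card hST
  have u1 := (h.up h1).1
  have u2 := (h.up h2).2
  rw [hir.2.1, zero_add] at u1
  rw [hir.2.2.1, zero_add] at u2
  have c1 : 3 ≤ #(X \ S) := by exact_mod_cast h3'.trans u1
  have c2 : 3 ≤ #(T \ X) := by exact_mod_cast h3'.trans u2
  have c1' : #(X \ S) = 3 := by omega
  have c2' : #(T \ X) = 3 := by omega
  have k1 : S ∪ (X \ S) = X := Finset.union_sdiff_of_subset h1
  have k2 : T \ (T \ X) = X := Finset.sdiff_sdiff_eq_self h2
  have k3 : T \ (X \ S) = S ∪ (T \ X) := by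
    ext i
    simp only [Finset.mem_sdiff, Finset.mem_union, not_and, not_not]
    constructor
    · rintro ⟨h5, h6⟩
      by_cases hi : i ∈ X
      · exact Or.inl (h6 hi)
      · exact Or.inr ⟨h5, hi⟩
    · rintro (h5 | ⟨h5, h6⟩)
      · exact ⟨hST h5, fun _ => h5⟩
      · exact ⟨h5, fun h7 => absurd h7 h6⟩
  have s1 : X \ S ⊆ T \ S := Finset.sdiff_subset_sdiff h2 (Finset.Subset.refl _)
  have s2 : T \ X ⊆ T \ S := Finset.sdiff_subset_sdiff (Finset.Subset.refl _) h1
  have hd : Disjoint (X \ S) (T \ X) := by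
    rw [Finset.disjoint_left]
    exact fun i hi hi' => (Finset.mem_sdiff.1 hi').2 (Finset.mem_sdiff.1 hi).1
  refine opp_of_chains h hS hT s1 s2 ?_ ?_ ?_ ?_ hd ?_ ?_
  · rw [k1, c1']; exact_mod_cast h3'
  · rw [k2, c2']; exact_mod_cast h3'
  · rw [c2']; exact_mod_cast h4'
  · rw [k3, c1']; exact_mod_cast h4'
  · rw [k1, k2]; exact MChain.refl _
  · rw [k3]; exact MChain.refl _

end Pool.Agent.H12.Fr
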