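import Pool.Agent.H12.Fr.Chk

/-!
# Soundness of the checker
-/

set_option autoImplicit false
set_option maxHeartbeats 4000000

open Finset

namespace Pool.Agent.H12.Fr

variable {V : Type*} [DecidableEq V]

/-- the truth of a literal -/
def lv (F : Finset V → Prop) (C : V → V → V → V → Prop) (e : ℕ → V) (m : ℕ) (l : ℕ × Bool) :
    Prop := if l.2 = true then val F C e m l.1 else ¬ val F C e m l.1

omit [DecidableEq V] in
lemma val_F {F : Finset V → Prop} {C : V → V → V → V → Prop} {e : ℕ → V} {m v : ℕ}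
    (hv : v < 256) : val F C e m v ↔ ∃ Y, F Y ∧ ∀ i < m, (e i ∈ Y ↔ v.testBit i = true) := by
  unfold val
  rw [if_pos hv]

omit [DecidableEq V] in
lemma val_k {F : Finset V → Prop} {C : V → V → V → V → Prop} {e : ℕ → V} {m i j k l : ℕ}
    (hi : i < 8) (hj : j < 8) (hk : k < 8) (hl : l < 8) :
    val F C e m (256 + (i + 8 * j + 64 * (k + 8 * l))) ↔ K4 F (e i) (e j) (e k) (e l) := by
  unfold val
  rw [if_neg (by omega), if_pos (by omega)]
  have h1 : (256 + (i + 8 * j + 64 * (k + 8 * l)) - 256) % 8 = i := by omega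
  have h2 : (256 + (i + 8 * j + 64 * (k + 8 * l)) - 256) / 8 % 8 = j := by omega
  have h3 : (256 + (i + 8 * j + 64 * (k + 8 * l)) - 256) / 64 % 8 = k := by omega
  have h4 : (256 + (i + 8 * j + 64 * (k + 8 * l)) - 256) / 512 % 8 = l := by omega
  rw [h1, h2, h3, h4]

omit [DecidableEq V] in
lemma val_c {F : Finset V → Prop} {C : V → V → V → V → Prop} {e : ℕ → V} {m i j k l : ℕ}
    (hi : i < 8) (hj : j < 8) (hk : k < 8) (hl : l < 8) :
    val F C e m (4352 + (i + 8 * j + 64 * (k + 8 * l))) ↔ C (e i) (e j) (e k) (e l) := by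
  unfold val
  rw [if_neg (by omega), if_neg (by omega)]
  have h1 : (4352 + (i + 8 * j + 64 * (k + 8 * l)) - 4352) % 8 = i := by omega
  have h2 : (4352 + (i + 8 * j + 64 * (k + 8 * l)) - 4352) / 8 % 8 = j := by omega
  have h3 : (4352 + (i + 8 * j + 64 * (k + 8 * l)) - 4352) / 64 % 8 = k := by omega
  have h4 : (4352 + (i + 8 * j + 64 * (k + 8 * l)) - 4352) / 512 % 8 = l := by omega
  rw [h1, h2, h3, h4]

omit [DecidableEq V] in
lemma val_kn {F : Finset V → Prop} {C : V → V → V → V → Prop} {e : ℕ → V} {m i j k l : ℕ}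
    (hi : i < 8) (hj : j < 8) (hk : k < 8) (hl : l < 8) :
    val F C e m (kn i j k l) ↔ K4 F (e i) (e j) (e k) (e l) := by
  unfold kn
  have sA : ∀ a b c d : V, K4 F a b c d ↔ K4 F b a c d := fun a b c d => ⟨K4.a, K4.a⟩
  have sN : ∀ a b c d : V, K4 F a b c d ↔ K4 F a b d c := fun a b c d => ⟨K4.n, K4.n⟩
  have sS : ∀ a b c d : V, K4 F a b c d ↔ K4 F c d a b := fun a b c d => ⟨K4.s, K4.s⟩
  by_cases h1 : i < j <;> by_cases h2 : k < l <;> simp only [h1, h2, if_true, if_false] <;>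
    split_ifs <;> rw [val_k (by assumption) (by assumption) (by assumption) (by assumption)]
  · exact sS _ _ _ _
  · exact sN _ _ _ _
  · rw [sS, sN]
  · exact sA _ _ _ _
  · rw [sS, sA]
  · rw [sA, sN]
  · rw [sS, sA, sN]

omit [DecidableEq V] in
lemma val_cn {F : Finset V → Prop} {C : V → V → V → V → Prop} {e : ℕ → V} {m i j k l : ℕ}
    (hA : ∀ a b c d, C a b c d → C b a c d) (hN : ∀ a b c d, C a b c d → C a b d c)
    (hi : i < 8) (hj : j < 8) (hk : k < 8) (hl : l < 8) :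
    val F C e m (cn i j k l) ↔ C (e i) (e j) (e k) (e l) := by
  unfold cn
  have sA : ∀ a b c d : V, C a b c d ↔ C b a c d := fun a b c d => ⟨hA _ _ _ _, hA _ _ _ _⟩
  have sN : ∀ a b c d : V, C a b c d ↔ C a b d c := fun a b c d => ⟨hN _ _ _ _, hN _ _ _ _⟩
  by_cases h1 : i < j <;> by_cases h2 : k < l <;> simp only [h1, h2, if_true, if_false] <;>
    rw [val_c (by assumption) (by assumption) (by assumption) (by assumption)]
  · exact sN _ _ _ _
  · exact sA _ _ _ _
  · rw [sA, sN]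

/-- the setting of a refutation -/
structure Env (F : Finset V → Prop) (C : V → V → V → V → Prop) (U : Finset V) (e : ℕ → V)
    (m : ℕ) (s : Bool) : Prop where
  sys : Sys F C U
  mem : ∀ i < m, e i ∈ U
  inj : ∀ i < m, ∀ j < m, e i = e j → i = j
  m8 : m ≤ 8
  s1 : s = true → S1 F C U
  s1' : s = true → S1' F C U

lemma exists_mask (m : ℕ) (P : ℕ → Prop) : ∃ X < 2 ^ m, ∀ i < m, (X.testBit i = true ↔ P i) := by
  classical
  induction m with
  | zero => exact ⟨0, by simp, fun i hi => absurd hi (Nat.not_lt_zero i)⟩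
  | succ m ih =>
    obtain ⟨X, hX, h⟩ := ih
    by_cases hm : P m
    · refine ⟨X ||| 2 ^ m, ?_, fun i hi => ?_⟩
      · refine Nat.or_lt_two_pow (hX.trans (Nat.pow_lt_pow_right (by norm_num) (by omega)))
          (Nat.pow_lt_pow_right (by norm_num) (by omega))
      · rw [Nat.testBit_or, Nat.testBit_two_pow]
        rcases Nat.lt_or_ge i m with h1 | h1
        · have h2 : m ≠ i := by omega
          simp [h2, h i h1]
        · have h2 : m = i := by omega
          subst h2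
          simp [hm]
    · refine ⟨X, hX.trans (Nat.pow_lt_pow_right (by norm_num) (by omega)), fun i hi => ?_⟩
      rcases Nat.lt_or_ge i m with h1 | h1
      · exact h i h1
      · have h2 : m = i := by omega
        subst h2
        simp only [hm, iff_false]
        rw [Nat.testBit_lt_two_pow hX]
        simp

lemma lt_iff {m : ℕ} {l : List ℕ} : lt m l = true ↔ ∀ i ∈ l, i < m := by
  induction l with
  | nil => simp [lt]
  | cons a l ih =>
    simp only [lt, Bool.and_eq_true, ih, List.mem_cons, forall_eq_or_imp]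
    constructor
    · rintro ⟨h1, h2⟩
      exact ⟨by simpa using h1, h2⟩
    · rintro ⟨h1, h2⟩
      exact ⟨by simpa using h1, h2⟩

lemma nbeq {i a : ℕ} : (!Nat.beq i a) = true ↔ i ≠ a := by
  rw [Bool.not_eq_true', ← Bool.not_eq_true, Nat.beq_eq]

lemma nin_iff {i : ℕ} {l : List ℕ} : nin i l = true ↔ ∀ j ∈ l, i ≠ j := by
  induction l with
  | nil => simp [nin]
  | cons a l ih =>
    simp only [nin, Bool.and_eq_true, ih, List.mem_cons, forall_eq_or_imp, nbeq]

lemma ex2 {α : Type*} {p : α → Prop} {x y : α} (h : ¬ p x → p y) : ∃ l ∈ [x, y], p l := by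
  by_cases hx : p x
  · exact ⟨x, by simp, hx⟩
  · exact ⟨y, by simp, h hx⟩

lemma ex3 {α : Type*} {p : α → Prop} {x y z : α} (h : ¬ p x → ¬ p y → p z) :
    ∃ l ∈ [x, y, z], p l := by
  by_cases hx : p x
  · exact ⟨x, by simp, hx⟩
  · by_cases hy : p y
    · exact ⟨y, by simp, hy⟩
    · exact ⟨z, by simp, h hx hy⟩

lemma ex5 {α : Type*} {p : α → Prop} {x y z w u : α}
    (h : ¬ p x → ¬ p y → ¬ p z → ¬ p w → p u) : ∃ l ∈ [x, y, z, w, u], p l := by
  by_cases hx : p x
  · exact ⟨x, by simp, hx⟩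
  by_cases hy : p y
  · exact ⟨y, by simp, hy⟩
  by_cases hz : p z
  · exact ⟨z, by simp, hz⟩
  by_cases hw : p w
  · exact ⟨w, by simp, hw⟩
  exact ⟨u, by simp, h hx hy hz hw⟩

omit [DecidableEq V] in
lemma lvt {F : Finset V → Prop} {C : V → V → V → V → Prop} {e : ℕ → V} {m v : ℕ} :
    lv F C e m (v, true) ↔ val F C e m v := by simp [lv]

omit [DecidableEq V] in
lemma lvf {F : Finset V → Prop} {C : V → V → V → V → Prop} {e : ℕ → V} {m v : ℕ} :
    lv F C e m (v, false) ↔ ¬ val F C e m v := by simp [lv]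

omit [DecidableEq V] in
lemma nlvf {F : Finset V → Prop} {C : V → V → V → V → Prop} {e : ℕ → V} {m v : ℕ} :
    ¬ lv F C e m (v, false) ↔ val F C e m v := by simp [lv]

/-- two masks which meet and do not cover -/
lemma cross {F : Finset V → Prop} {C : V → V → V → V → Prop} {U : Finset V} {e : ℕ → V} {m : ℕ}
    {s : Bool} (E : Env F C U e m s) {X Y : ℕ} (hX : X < 2 ^ m) (hY : Y < 2 ^ m)
    (h1 : X &&& Y ≠ 0) (h2 : X ||| Y ≠ 2 ^ m - 1) {Z W : Finset V}
    (hZ : ∀ i < m, (e i ∈ Z ↔ X.testBit i = true)) (hW : ∀ i < m, (e i ∈ W ↔ Y.testBit i = true)) :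
    (∃ i ∈ U, i ∈ Z ∧ i ∈ W) ∧ (∃ i ∈ U, i ∉ Z ∧ i ∉ W) := by
  constructor
  · obtain ⟨i, hi⟩ := Nat.exists_testBit_of_ne_zero h1
    rw [Nat.testBit_and, Bool.and_eq_true] at hi
    have him : i < m := by
      by_contra h3
      push Not at h3
      have h4 : X < 2 ^ i := hX.trans_le (Nat.pow_le_pow_right (by norm_num) h3)
      rw [Nat.testBit_lt_two_pow h4] at hi
      simp at hi
    exact ⟨e i, E.mem i him, (hZ i him).2 hi.1, (hW i him).2 hi.2⟩
  · by_contra hcon
    push Not at hcon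
    apply h2
    apply Nat.eq_of_testBit_eq
    intro i
    rw [Nat.testBit_or, Nat.testBit_two_pow_sub_one]
    rcases Nat.lt_or_ge i m with h3 | h3
    · have h4 := hcon (e i) (E.mem i h3)
      rw [hZ i h3, hW i h3] at h4
      simp only [h3, decide_true]
      by_cases h5 : X.testBit i = true
      · simp [h5]
      · simp [h4 h5]
    · have h4 : X < 2 ^ i := hX.trans_le (Nat.pow_le_pow_right (by norm_num) h3)
      have h5 : Y < 2 ^ i := hY.trans_le (Nat.pow_le_pow_right (by norm_num) h3)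
      rw [Nat.testBit_lt_two_pow h4, Nat.testBit_lt_two_pow h5]
      simp
      omega

lemma two_pow_le {m : ℕ} (hm : m ≤ 8) : 2 ^ m ≤ 256 :=
  (Nat.pow_le_pow_right (by norm_num) hm).trans (by norm_num)

/-- clauses are valid -/
theorem valid {F : Finset V → Prop} {C : V → V → V → V → Prop} {U : Finset V} {e : ℕ → V} {m : ℕ}
    {s : Bool} (E : Env F C U e m s) {H : List (List (ℕ × Bool))}
    (hH : ∀ c ∈ H, ∃ l ∈ c, lv F C e m l) {c : Cl} (hc : ok m s H.length c = true) :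
    ∃ l ∈ lits m H c, lv F C e m l := by
  have h8 := two_pow_le E.m8
  have hsA := E.sys.symA
  have hsN := E.sys.symN
  have lt8 : ∀ {i : ℕ}, i < m → i < 8 := fun h => lt_of_lt_of_le h E.m8
  have ene : ∀ {i j : ℕ}, i < m → j < m → i ≠ j → e i ≠ e j :=
    fun hi hj hij h => hij (E.inj _ hi _ hj h)
  cases c with
  | cap X Y =>
    simp only [ok, Bool.and_eq_true, lt_iff, nbeq, List.mem_cons, List.not_mem_nil, or_false,
      forall_eq_or_imp, forall_eq] at hc
    obtain ⟨⟨hX, hY⟩, h1, h2⟩ := hc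
    refine ex3 fun a b => ?_
    rw [nlvf, val_F (by omega)] at a b
    rw [lvt, val_F (by have := Nat.and_le_left (n := X) (m := Y); omega)]
    obtain ⟨Z, z1, z2⟩ := a
    obtain ⟨W, w1, w2⟩ := b
    obtain ⟨h3, h4⟩ := cross E hX hY h1 h2 z2 w2
    refine ⟨Z ∩ W, E.sys.cap _ _ z1 w1 h3 h4, fun i hi => ?_⟩
    rw [Finset.mem_inter, z2 i hi, w2 i hi, Nat.testBit_and, Bool.and_eq_true]
  | cup X Y =>
    simp only [ok, Bool.and_eq_true, lt_iff, nbeq, List.mem_cons, List.not_mem_nil, or_false,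
      forall_eq_or_imp, forall_eq] at hc
    obtain ⟨⟨hX, hY⟩, h1, h2⟩ := hc
    refine ex3 fun a b => ?_
    rw [nlvf, val_F (by omega)] at a b
    rw [lvt, val_F (by have := Nat.or_lt_two_pow hX hY; omega)]
    obtain ⟨Z, z1, z2⟩ := a
    obtain ⟨W, w1, w2⟩ := b
    obtain ⟨h3, h4⟩ := cross E hX hY h1 h2 z2 w2
    refine ⟨Z ∪ W, E.sys.cup _ _ z1 w1 h3 h4, fun i hi => ?_⟩
    rw [Finset.mem_union, z2 i hi, w2 i hi, Nat.testBit_or, Bool.or_eq_true]
  | one i =>
    simp only [ok, lt_iff, List.mem_cons, List.not_mem_nil, or_false, forall_eq] at hc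
    refine ⟨_, List.mem_singleton.2 rfl, ?_⟩
    have h1 : 2 ^ i < 2 ^ m := Nat.pow_lt_pow_right (by norm_num) hc
    rw [lvt, val_F (by omega)]
    refine ⟨{e i}, E.sys.one _ (E.mem i hc), fun j hj => ?_⟩
    rw [Finset.mem_singleton, Nat.testBit_two_pow]
    simp only [decide_eq_true_eq]
    exact ⟨fun h => (E.inj _ hj _ hc h).symm, fun h => by rw [h]⟩
  | con i =>
    simp only [ok, lt_iff, List.mem_cons, List.not_mem_nil, or_false, forall_eq] at hc
    refine ⟨_, List.mem_singleton.2 rfl, ?_⟩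
    have h1 : 2 ^ i < 2 ^ m := Nat.pow_lt_pow_right (by norm_num) hc
    have h2 : (2 ^ m - 1) ^^^ 2 ^ i < 2 ^ m := Nat.xor_lt_two_pow (Nat.sub_lt (by positivity) one_pos) h1
    rw [lvt, val_F (by omega)]
    refine ⟨U.erase (e i), E.sys.con _ (E.mem i hc), fun j hj => ?_⟩
    rw [Finset.mem_erase, Nat.testBit_xor, Nat.testBit_two_pow_sub_one, Nat.testBit_two_pow]
    have h3 : e j ∈ U := E.mem j hj
    by_cases hij : i = j
    · subst hij
      simp [hj]
    · have h4 : e j ≠ e i := ene hj hc (Ne.symm hij)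
      simp [hj, hij, h3, h4]
  | kf i j k l X =>
    simp only [ok, sep, Bool.and_eq_true, lt_iff, List.mem_cons, List.not_mem_nil, or_false,
      forall_eq_or_imp, forall_eq, Bool.or_eq_true, Bool.not_eq_true'] at hc
    obtain ⟨⟨hi, hj, hk, hl⟩, hX, h1⟩ := hc
    refine ex2 fun a => ?_
    rw [nlvf, val_kn (lt8 hi) (lt8 hj) (lt8 hk) (lt8 hl)] at a
    rw [lvf, val_F (by omega)]
    rintro ⟨Z, z1, z2⟩
    have h2 := a Z z1
    simp only [z2 i hi, z2 j hj, z2 k hk, z2 l hl] at h2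
    rcases h1 with ⟨x1, x2, x3, x4⟩ | ⟨x1, x2, x3, x4⟩
    · exact h2.1 ⟨x1, x2, by simp [x3], by simp [x4]⟩
    · exact h2.2 ⟨by simp [x1], by simp [x2], x3, x4⟩
  | kd i j k l =>
    simp only [ok, lt_iff, List.mem_cons, List.not_mem_nil, or_false,
      forall_eq_or_imp, forall_eq] at hc
    obtain ⟨hi, hj, hk, hl⟩ := hc
    by_cases hK : K4 F (e i) (e j) (e k) (e l)
    · refine ⟨_, List.mem_cons_self, ?_⟩
      rw [lvt, val_kn (lt8 hi) (lt8 hj) (lt8 hk) (lt8 hl)]
      exact hK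
    · unfold K4 at hK
      push Not at hK
      obtain ⟨Z, hZ, h1⟩ := hK
      obtain ⟨X, hX, h2⟩ := exists_mask m (fun i => e i ∈ Z)
      refine ⟨(X, true), ?_, ?_⟩
      · refine List.mem_cons_of_mem _ (List.mem_map.2 ⟨X, List.mem_filter.2
          ⟨List.mem_range.2 hX, ?_⟩, rfl⟩)
        simp only [sep, Bool.or_eq_true, Bool.and_eq_true, Bool.not_eq_true', h2 i hi, h2 j hj,
          ← Bool.not_eq_true, h2 k hk, h2 l hl]
        by_cases h3 : e i ∈ Z ∧ e j ∈ Z ∧ e k ∉ Z ∧ e l ∉ Z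
        · exact Or.inl h3
        · exact Or.inr (h1 (fun a b c => by_contra fun d => h3 ⟨a, b, c, d⟩))
      · rw [lvt, val_F (by omega)]
        exact ⟨Z, hZ, fun i hi => (h2 i hi).symm⟩
  | ck i j k l =>
    simp only [ok, lt_iff, List.mem_cons, List.not_mem_nil, or_false,
      forall_eq_or_imp, forall_eq] at hc
    obtain ⟨hi, hj, hk, hl⟩ := hc
    refine ex2 fun a => ?_
    rw [nlvf, val_cn hsA hsN (lt8 hi) (lt8 hj) (lt8 hk) (lt8 hl)] at a
    rw [lvt, val_kn (lt8 hi) (lt8 hj) (lt8 hk) (lt8 hl)]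
    exact E.sys.ck _ _ _ _ a
  | an i j k l =>
    simp only [ok, lt_iff, List.mem_cons, List.not_mem_nil, or_false,
      forall_eq_or_imp, forall_eq] at hc
    obtain ⟨hi, hj, hk, hl⟩ := hc
    refine ex2 fun a => ?_
    rw [nlvf, val_cn hsA hsN (lt8 hi) (lt8 hj) (lt8 hk) (lt8 hl)] at a
    rw [lvf, val_cn hsA hsN (lt8 hk) (lt8 hl) (lt8 hi) (lt8 hj)]
    exact E.sys.anti _ _ _ _ a
  | sa i j k l z =>
    simp only [ok, Bool.and_eq_true, lt_iff, nin_iff, List.mem_cons, List.not_mem_nil, or_false,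
      forall_eq_or_imp, forall_eq] at hc
    obtain ⟨⟨hi, hj, hk, hl, hz⟩, z1, z2, z3, z4⟩ := hc
    refine ex3 fun a b => ?_
    rw [nlvf, val_cn hsA hsN (lt8 hi) (lt8 hj) (lt8 hk) (lt8 hl)] at a
    rw [nlvf, val_kn (lt8 hz) (lt8 hj) (lt8 hk) (lt8 hl)] at b
    rw [lvt, val_cn hsA hsN (lt8 hz) (lt8 hj) (lt8 hk) (lt8 hl)]
    exact E.sys.slA _ _ _ _ _ a (E.mem _ hz) (ene hz hi z1) (ene hz hj z2) (ene hz hk z3)
      (ene hz hl z4) b
  | sn i j k l z =>
    simp only [ok, Bool.and_eq_true, lt_iff, nin_iff, List.mem_cons, List.not_mem_nil, or_false,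
      forall_eq_or_imp, forall_eq] at hc
    obtain ⟨⟨hi, hj, hk, hl, hz⟩, z1, z2, z3, z4⟩ := hc
    refine ex3 fun a b => ?_
    rw [nlvf, val_cn hsA hsN (lt8 hi) (lt8 hj) (lt8 hk) (lt8 hl)] at a
    rw [nlvf, val_kn (lt8 hi) (lt8 hj) (lt8 hz) (lt8 hl)] at b
    rw [lvt, val_cn hsA hsN (lt8 hi) (lt8 hj) (lt8 hz) (lt8 hl)]
    exact E.sys.slN _ _ _ _ _ a (E.mem _ hz) (ene hz hi z1) (ene hz hj z2) (ene hz hk z3)
      (ene hz hl z4) b
  | sx i j k l z w =>
    simp only [ok, Bool.and_eq_true, lt_iff, nin_iff, List.mem_cons, List.not_mem_nil, or_false,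
      forall_eq_or_imp, forall_eq] at hc
    obtain ⟨hs, ⟨hi, hj, hk, hl, hz, hw⟩, ⟨z1, z2, z3, z4⟩, w1, w2, w3, w4, w5⟩ := hc
    refine ex5 fun a b c d => ?_
    rw [nlvf, val_cn hsA hsN (lt8 hi) (lt8 hj) (lt8 hk) (lt8 hl)] at a
    rw [nlvf, val_kn (lt8 hz) (lt8 hj) (lt8 hk) (lt8 hl)] at b
    rw [nlvf, val_kn (lt8 hi) (lt8 hw) (lt8 hk) (lt8 hl)] at c
    rw [nlvf, val_kn (lt8 hi) (lt8 hj) (lt8 hz) (lt8 hl)] at d
    rw [lvf, val_kn (lt8 hi) (lt8 hj) (lt8 hw) (lt8 hl)]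
    intro f
    exact E.s1 hs _ _ _ _ _ _ a (E.mem _ hz) (E.mem _ hw) (ene hz hi z1) (ene hz hj z2)
      (ene hz hk z3) (ene hz hl z4) (ene hw hi w1) (ene hw hj w2) (ene hw hk w3) (ene hw hl w4)
      (ene hw hz w5).symm (Or.inl d) (Or.inl f) b c
  | sy i j k l z w =>
    simp only [ok, Bool.and_eq_true, lt_iff, nin_iff, List.mem_cons, List.not_mem_nil, or_false,
      forall_eq_or_imp, forall_eq] at hc
    obtain ⟨hs, ⟨hi, hj, hk, hl, hz, hw⟩, ⟨z1, z2, z3, z4⟩, w1, w2, w3, w4, w5⟩ := hc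
    refine ex5 fun a b c d => ?_
    rw [nlvf, val_cn hsA hsN (lt8 hi) (lt8 hj) (lt8 hk) (lt8 hl)] at a
    rw [nlvf, val_kn (lt8 hz) (lt8 hj) (lt8 hk) (lt8 hl)] at b
    rw [nlvf, val_kn (lt8 hi) (lt8 hw) (lt8 hk) (lt8 hl)] at c
    rw [nlvf, val_kn (lt8 hi) (lt8 hj) (lt8 hz) (lt8 hl)] at d
    rw [lvf, val_kn (lt8 hi) (lt8 hj) (lt8 hk) (lt8 hw)]
    intro f
    exact E.s1 hs _ _ _ _ _ _ a (E.mem _ hz) (E.mem _ hw) (ene hz hi z1) (ene hz hj z2)
      (ene hz hk z3) (ene hz hl z4) (ene hw hi w1) (ene hw hj w2) (ene hw hk w3) (ene hw hl w4)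
      (ene hw hz w5).symm (Or.inl d) (Or.inr f) b c
  | sz i j k l z w =>
    simp only [ok, Bool.and_eq_true, lt_iff, nin_iff, List.mem_cons, List.not_mem_nil, or_false,
      forall_eq_or_imp, forall_eq] at hc
    obtain ⟨hs, ⟨hi, hj, hk, hl, hz, hw⟩, ⟨z1, z2, z3, z4⟩, w1, w2, w3, w4, w5⟩ := hc
    refine ex5 fun a b c d => ?_
    rw [nlvf, val_cn hsA hsN (lt8 hi) (lt8 hj) (lt8 hk) (lt8 hl)] at a
    rw [nlvf, val_kn (lt8 hz) (lt8 hj) (lt8 hk) (lt8 hl)] at b
    rw [nlvf, val_kn (lt8 hw) (lt8 hj) (lt8 hk) (lt8 hl)] at c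
    rw [nlvf, val_kn (lt8 hi) (lt8 hj) (lt8 hz) (lt8 hl)] at d
    rw [lvf, val_kn (lt8 hi) (lt8 hj) (lt8 hk) (lt8 hw)]
    intro f
    exact E.s1' hs (e k) (e l) (e i) (e j) (e z) (e w) a (E.mem _ hz) (E.mem _ hw) (ene hz hk z3)
      (ene hz hl z4) (ene hz hi z1) (ene hz hj z2) (ene hw hk w3) (ene hw hl w4) (ene hw hi w1)
      (ene hw hj w2) (ene hw hz w5).symm (Or.inl b.s) (Or.inl c.s) d.s f.s
  | hyp n =>
    have hn : n < H.length := by simpa [ok] using hc
    have h1 : lits m H (Cl.hyp n) = H[n] := by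
      simp [lits, List.getD_eq_getElem?_getD, hn]
    rw [h1]
    exact hH _ (List.getElem_mem hn)

/-- the state is correct -/
def Inv (F : Finset V → Prop) (C : V → V → V → V → Prop) (e : ℕ → V) (m T N : ℕ) : Prop :=
  (∀ v, T.testBit v = true → val F C e m v) ∧ ∀ v, N.testBit v = true → ¬ val F C e m v

omit [DecidableEq V] in
lemma isF_sound {F : Finset V → Prop} {C : V → V → V → V → Prop} {e : ℕ → V} {m T N : ℕ}
    (h : Inv F C e m T N) {l : ℕ × Bool} (hl : isF T N l = true) : ¬ lv F C e m l := by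
  obtain ⟨v, b⟩ := l
  cases b
  · rw [nlvf]
    exact h.1 v (by simpa [isF] using hl)
  · rw [lvt]
    exact h.2 v (by simpa [isF] using hl)

omit [DecidableEq V] in
lemma inv_T {F : Finset V → Prop} {C : V → V → V → V → Prop} {e : ℕ → V} {m T N : ℕ}
    (h : Inv F C e m T N) {v : ℕ} (hv : val F C e m v) : Inv F C e m (T ||| 2 ^ v) N := by
  refine ⟨fun w hw => ?_, h.2⟩
  rw [Nat.testBit_or, Nat.testBit_two_pow, Bool.or_eq_true, decide_eq_true_eq] at hw
  rcases hw with h1 | rfl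
  · exact h.1 w h1
  · exact hv

omit [DecidableEq V] in
lemma inv_N {F : Finset V → Prop} {C : V → V → V → V → Prop} {e : ℕ → V} {m T N : ℕ}
    (h : Inv F C e m T N) {v : ℕ} (hv : ¬ val F C e m v) : Inv F C e m T (N ||| 2 ^ v) := by
  refine ⟨h.1, fun w hw => ?_⟩
  rw [Nat.testBit_or, Nat.testBit_two_pow, Bool.or_eq_true, decide_eq_true_eq] at hw
  rcases hw with h1 | rfl
  · exact h.2 w h1
  · exact hv

lemma prop_sound {F : Finset V → Prop} {C : V → V → V → V → Prop} {U : Finset V} {e : ℕ → V}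
    {m : ℕ} {s : Bool} (E : Env F C U e m s) {H : List (List (ℕ × Bool))}
    (hH : ∀ c ∈ H, ∃ l ∈ c, lv F C e m l) (us : List Cl) :
    ∀ T N T' N' : ℕ, Inv F C e m T N → prop m s H us T N = some (T', N') →
      Inv F C e m T' N' := by
  induction us with
  | nil =>
    intro T N T' N' h1 h2
    simp only [prop, Option.some.injEq, Prod.mk.injEq] at h2
    rw [← h2.1, ← h2.2]
    exact h1
  | cons c us ih =>
    intro T N T' N' h1 h2
    unfold prop at h2
    cases hok : ok m s H.length c with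
    | false => rw [hok] at h2; simp at h2
    | true =>
      rw [hok] at h2
      simp only [cond_true] at h2
      obtain ⟨l, hl, hv⟩ := valid E hH hok
      have hmem : l ∈ (lits m H c).filter (fun l => !isF T N l) := by
        rw [List.mem_filter]
        refine ⟨hl, ?_⟩
        cases hf : isF T N l with
        | false => rfl
        | true => exact absurd hv (isF_sound h1 hf)
      split at h2
      · rename_i l' heq
        rw [heq, List.mem_singleton] at hmem
        subst hmem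
        obtain ⟨v, b⟩ := l
        cases b
        · simp only [cond_false] at h2
          exact ih _ _ _ _ (inv_N h1 (lvf.1 hv)) h2
        · simp only [cond_true] at h2
          exact ih _ _ _ _ (inv_T h1 (lvt.1 hv)) h2
      · simp at h2

/-- **Soundness of the checker.** -/
theorem sound {F : Finset V → Prop} {C : V → V → V → V → Prop} {U : Finset V} {e : ℕ → V}
    {m : ℕ} {s : Bool} (E : Env F C U e m s) {H : List (List (ℕ × Bool))}
    (hH : ∀ c ∈ H, ∃ l ∈ c, lv F C e m l) (t : Tr) :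
    ∀ T N : ℕ, Inv F C e m T N → check m s H t T N = true → False := by
  induction t with
  | leaf us c =>
    intro T N h1 h2
    unfold check at h2
    cases hp : prop m s H us T N with
    | none => rw [hp] at h2; simp at h2
    | some q =>
      obtain ⟨T', N'⟩ := q
      rw [hp] at h2
      simp only [Bool.and_eq_true, List.all_eq_true] at h2
      obtain ⟨l, hl, hv⟩ := valid E hH h2.1
      exact isF_sound (prop_sound E hH us _ _ _ _ h1 hp) (h2.2 l hl) hv
  | split us v a b iha ihb =>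
    intro T N h1 h2
    unfold check at h2
    cases hp : prop m s H us T N with
    | none => rw [hp] at h2; simp at h2
    | some q =>
      obtain ⟨T', N'⟩ := q
      rw [hp] at h2
      simp only [Bool.and_eq_true] at h2
      have h3 := prop_sound E hH us _ _ _ _ h1 hp
      by_cases hv : val F C e m v
      · exact iha _ _ (inv_T h3 hv) h2.1
      · exact ihb _ _ (inv_N h3 hv) h2.2

omit [DecidableEq V] in
lemma inv_zero {F : Finset V → Prop} {C : V → V → V → V → Prop} {e : ℕ → V} {m : ℕ} :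
    Inv F C e m 0 0 := by
  refine ⟨fun v hv => ?_, fun v hv => ?_⟩ <;> simp at hv

end Pool.Agent.H12.Fr
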